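import Pool.Agent.Lib.MP_df705a_gt.Mg.G024

/-!
# Simplices moved by a flow
-/

open scoped Topology ContDiff
open Set MeasureTheory Module

noncomputable section

set_option linter.unusedSectionVars false

namespace Pool.Agent.Lib.MP_df705a_gt.Wide

open Pool.Agent.Lib.MP_df705a_gt.Pin

variable {E : Type*} [NormedAddCommGroup E] [NormedSpace ℝ E]
  {F : Type*} [NormedAddCommGroup F] [NormedSpace ℝ F]

/-- The weighted average of the values of `f` at the entries of the list `L` and at `y`, with the
weights of the list and the weight `τ` of `y`. -/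
def avg (f : E → F) (L : List (E × ℝ)) (y : E) (τ : ℝ) : F :=
  ((L.map Prod.snd).sum + τ)⁻¹ • ((L.map fun p => p.2 • f p.1).sum + τ • f y)

/-- The point of the simplex moved by `T` so that the value of `s` becomes the average of the values
of `f` at the vertices. -/
def mv (f s : E → F) (T : F → E → E) (C : E → ℝ → E → E) (L : List (E × ℝ)) (y : E) (τ : ℝ) : E :=
  T (avg f L y τ - s (Psi C L y τ)) (Psi C L y τ)

private theorem sum_filter (L : List (E × ℝ)) :
    ((L.filter fun p => decide (p.2 ≠ 0)).map Prod.snd).sum = (L.map Prod.snd).sum := by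
  induction L with
  | nil => rfl
  | cons p L ih =>
    by_cases h : p.2 = 0
    · rw [List.filter_cons_of_neg (by simp [h]), ih, List.map_cons, List.sum_cons, h, zero_add]
    · rw [List.filter_cons_of_pos (by simp [h]), List.map_cons, List.sum_cons, ih, List.map_cons,
        List.sum_cons]

private theorem wsum_filter (f : E → F) (L : List (E × ℝ)) :
    ((L.filter fun p => decide (p.2 ≠ 0)).map fun p => p.2 • f p.1).sum =
      (L.map fun p => p.2 • f p.1).sum := by
  induction L with
  | nil => rfl
  | cons p L ih =>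
    by_cases h : p.2 = 0
    · rw [List.filter_cons_of_neg (by simp [h]), ih, List.map_cons, List.sum_cons, h, zero_smul,
        zero_add]
    · rw [List.filter_cons_of_pos (by simp [h]), List.map_cons, List.sum_cons, ih, List.map_cons,
        List.sum_cons]

theorem avg_filter (f : E → F) (L : List (E × ℝ)) (y : E) (τ : ℝ) :
    avg f (L.filter fun p => decide (p.2 ≠ 0)) y τ = avg f L y τ := by
  unfold avg
  rw [sum_filter, wsum_filter]

theorem avg_append (f : E → F) (L : List (E × ℝ)) (v y : E) (t : ℝ) :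
    avg f (L ++ [(v, t)]) y 0 = avg f L v t := by
  unfold avg
  rw [List.map_append, List.sum_append, List.map_append, List.sum_append, List.map_singleton,
    List.map_singleton, List.sum_singleton, List.sum_singleton, add_zero, zero_smul, add_zero]

theorem avg_smul (f : E → F) (L : List (E × ℝ)) (y : E) (τ : ℝ) {c : ℝ} (hc : 0 < c) :
    avg f (L.map fun p => (p.1, c * p.2)) y (c * τ) = avg f L y τ := by
  have h1 : ((L.map fun p => (p.1, c * p.2)).map Prod.snd).sum = c * (L.map Prod.snd).sum := by
    induction L with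
    | nil => simp
    | cons p L ih =>
      rw [List.map_cons, List.map_cons, List.sum_cons, ih, List.map_cons, List.sum_cons, mul_add]
  have h2 : ((L.map fun p => (p.1, c * p.2)).map fun p => p.2 • f p.1).sum =
      c • (L.map fun p => p.2 • f p.1).sum := by
    induction L with
    | nil => simp
    | cons p L ih =>
      rw [List.map_cons, List.map_cons, List.sum_cons, List.map_cons, List.sum_cons, smul_add,
        smul_smul]
      congr 1
      apply ih
      have h3 : ((List.map (fun p : E × ℝ => (p.1, c * p.2)) (p :: L)).map Prod.snd).sum =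
        c * ((p :: L).map Prod.snd).sum := h1
      rw [List.map_cons, List.map_cons, List.sum_cons, List.map_cons, List.sum_cons, mul_add] at h3
      linarith
  unfold avg
  rw [h1, h2, mul_smul, ← smul_add, ← mul_add, smul_smul, mul_inv, mul_assoc, mul_comm _ c,
    ← mul_assoc, inv_mul_cancel₀ hc.ne', one_mul]

theorem avg_of_zero (f : E → F) (L : List (E × ℝ)) (hL : ∀ p ∈ L, p.2 = 0) (y : E) {τ : ℝ}
    (hτ : τ ≠ 0) : avg f L y τ = f y := by
  have h1 : (L.map Prod.snd).sum = 0 := by
    apply List.sum_eq_zero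
    intro x hx
    obtain ⟨q, hq, rfl⟩ := List.mem_map.1 hx
    exact hL q hq
  have h2 : (L.map fun p => p.2 • f p.1).sum = 0 := by
    apply List.sum_eq_zero
    intro x hx
    obtain ⟨q, hq, rfl⟩ := List.mem_map.1 hx
    rw [hL q hq, zero_smul]
  unfold avg
  rw [h1, h2, zero_add, zero_add, smul_smul, inv_mul_cancel₀ hτ, one_smul]

/-- The average is near to `a` if all values are. -/
theorem norm_avg_sub_le (f : E → F) (L : List (E × ℝ)) (y : E) {τ δ : ℝ} (a : F) (hτ : 0 ≤ τ)
    (hL : ∀ p ∈ L, 0 ≤ p.2) (hpos : 0 < (L.map Prod.snd).sum + τ)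
    (hδ : ∀ p ∈ L, p.2 ≠ 0 → ‖f p.1 - a‖ ≤ δ) (hy : τ ≠ 0 → ‖f y - a‖ ≤ δ) :
    ‖avg f L y τ - a‖ ≤ δ := by
  have h1 : ∀ L : List (E × ℝ), (∀ p ∈ L, 0 ≤ p.2) → (∀ p ∈ L, p.2 ≠ 0 → ‖f p.1 - a‖ ≤ δ) →
      ‖(L.map fun p => p.2 • f p.1).sum - (L.map Prod.snd).sum • a‖ ≤ (L.map Prod.snd).sum * δ := by
    intro L
    induction L with
    | nil => intro _ _; simp
    | cons p L ih =>
      intro h2 h3
      have h4 := ih (fun q hq => h2 q (List.mem_cons_of_mem _ hq))
        (fun q hq => h3 q (List.mem_cons_of_mem _ hq))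
      rw [List.map_cons, List.sum_cons, List.map_cons, List.sum_cons]
      have h5 : p.2 • f p.1 + (L.map fun p => p.2 • f p.1).sum - (p.2 + (L.map Prod.snd).sum) • a =
          p.2 • (f p.1 - a) + ((L.map fun p => p.2 • f p.1).sum - (L.map Prod.snd).sum • a) := by
        rw [add_smul, smul_sub]; abel
      rw [h5, add_mul]
      refine (norm_add_le _ _).trans (add_le_add ?_ h4)
      rw [norm_smul, Real.norm_eq_abs, abs_of_nonneg (h2 p List.mem_cons_self)]
      by_cases h0 : p.2 = 0
      · rw [h0, zero_mul, zero_mul]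
      · exact mul_le_mul_of_nonneg_left (h3 p List.mem_cons_self h0) (h2 p List.mem_cons_self)
  have h2 := h1 L hL hδ
  set S := (L.map Prod.snd).sum with hS
  set Z := (L.map fun p => p.2 • f p.1).sum with hZ
  have h3 : avg f L y τ - a = (S + τ)⁻¹ • ((Z - S • a) + τ • (f y - a)) := by
    have h4 : (S + τ)⁻¹ • ((S + τ) • a) = a := by
      rw [smul_smul, inv_mul_cancel₀ hpos.ne', one_smul]
    calc avg f L y τ - a = (S + τ)⁻¹ • (Z + τ • f y) - (S + τ)⁻¹ • ((S + τ) • a) := by
          rw [h4]; rfl
      _ = (S + τ)⁻¹ • ((Z - S • a) + τ • (f y - a)) := by module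
  rw [h3, norm_smul, norm_inv, Real.norm_eq_abs, abs_of_pos hpos, inv_mul_le_iff₀ hpos, add_mul]
  refine (norm_add_le _ _).trans (add_le_add h2 ?_)
  rw [norm_smul, Real.norm_eq_abs, abs_of_nonneg hτ]
  by_cases h0 : τ = 0
  · rw [h0, zero_mul, zero_mul]
  · exact mul_le_mul_of_nonneg_left (hy h0) hτ

end Pool.Agent.Lib.MP_df705a_gt.Wide
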