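import Pool.Agent.Lib.MP_df705a_gt.Wide.A0

/-!
# The moved simplices of low dimension are small
-/

open scoped Topology ContDiff
open Set MeasureTheory Module

noncomputable section

set_option linter.unusedSectionVars false

namespace Pool.Agent.Lib.MP_df705a_gt.Wide

open Pool.Agent.Lib.MP_df705a_gt.Pin

variable {E : Type*} [NormedAddCommGroup E] [NormedSpace ℝ E]
  {F : Type*} [NormedAddCommGroup F] [NormedSpace ℝ F]
  {f s : E → F} {T : F → E → E} {C : E → ℝ → E → E}

theorem contDiffOn_avg (f : E → F) (m : ℕ) (w : Fin m → E) (v : E) :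
    ContDiffOn ℝ 1 (fun u : Fin m → ℝ => avg f (List.ofFn fun i => (w i, u i)) v 1)
      {u | ∀ i, 0 < u i} := by
  have h1 : (fun u : Fin m → ℝ => avg f (List.ofFn fun i => (w i, u i)) v 1) =
      fun u : Fin m → ℝ => ((∑ i, u i) + 1)⁻¹ • ((∑ i, u i • f (w i)) + (1 : ℝ) • f v) := by
    funext u
    unfold avg
    rw [List.map_ofFn, List.sum_ofFn, List.map_ofFn, List.sum_ofFn]
    rfl
  rw [h1]
  refine ContDiffOn.smul (ContDiffOn.inv ?_ ?_) ?_
  · exact ((ContDiff.sum fun i _ => contDiff_apply ℝ ℝ i).add contDiff_const).contDiffOn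
  · intro u hu
    have h2 : 0 ≤ ∑ i, u i := Finset.sum_nonneg fun i _ => (hu i).le
    positivity
  · exact ((ContDiff.sum fun i _ => (contDiff_apply ℝ ℝ i).smul contDiff_const).add
      contDiff_const).contDiffOn

theorem contDiffOn_mv [FiniteDimensional ℝ E] (hC : IsCone C) (hs : ContDiff ℝ 1 s)
    (hT : ContDiff ℝ 1 fun p : F × E => T p.1 p.2) (f : E → F) (m : ℕ) (w : Fin m → E) (v : E) :
    ContDiffOn ℝ 1 (fun u : Fin m → ℝ => mv f s T C (List.ofFn fun i => (w i, u i)) v 1)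
      {u | ∀ i, 0 < u i} := by
  have h1 := contDiffOn_Psi hC m w v
  have h2 := contDiffOn_avg f m w v
  exact hT.comp_contDiffOn ((h2.sub (hs.comp_contDiffOn h1)).prodMk h1)

/-- The union of the moved simplices with at most `n` vertices, all in the set `V`. -/
def MSimp (f s : E → F) (T : F → E → E) (C : E → ℝ → E → E) (V : Set E) (n : ℕ) : Set E :=
  {z : E | ∃ (L : List (E × ℝ)) (v : E) (t : ℝ), L.length < n ∧ v ∈ V ∧ 0 < t ∧
    (∀ p ∈ L, p.1 ∈ V ∧ 0 < p.2) ∧ z = mv f s T C L v t}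

theorem mv_smul (f s : E → F) (T : F → E → E) (C : E → ℝ → E → E) (L : List (E × ℝ)) (y : E)
    (τ : ℝ) {c : ℝ} (hc : 0 < c) :
    mv f s T C (L.map fun p => (p.1, c * p.2)) y (c * τ) = mv f s T C L y τ := by
  unfold mv
  rw [avg_smul f L y τ hc, Psi_smul L y τ hc]

theorem MSimp_subset (V : Set E) (n : ℕ) : MSimp f s T C V n ⊆
    ⋃ (i : Σ m : Fin n, (Fin (m : ℕ) → V) × V),
      (fun u : Fin (i.1 : ℕ) → ℝ =>
        mv f s T C (List.ofFn fun j => ((i.2.1 j : E), u j)) (i.2.2 : E) 1) ''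
        {u | ∀ j, 0 < u j} := by
  rintro z ⟨L, v, t, hlen, hv, ht, hL, rfl⟩
  rw [mem_iUnion]
  refine ⟨⟨⟨L.length, hlen⟩, fun j => ⟨(L.get j).1, (hL _ (L.get_mem j)).1⟩, ⟨v, hv⟩⟩,
    fun j => 1 / t * (L.get j).2, ?_, ?_⟩
  · intro j
    have h1 := (hL _ (L.get_mem j)).2
    positivity
  · have h1 := mv_smul f s T C L v t (c := 1 / t) (by positivity)
    rw [one_div_mul_cancel ht.ne'] at h1
    have h2 : (List.ofFn fun j : Fin L.length => ((L.get j).1, 1 / t * (L.get j).2)) =
        L.map fun p => (p.1, 1 / t * p.2) := by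
      conv_rhs => rw [← List.ofFn_get L]
      rw [List.map_ofFn]
      rfl
    simp only
    rw [← h1, ← h2]

theorem dense_compl_MSimp [FiniteDimensional ℝ E] (hC : IsCone C) (hs : ContDiff ℝ 1 s)
    (hT : ContDiff ℝ 1 fun p : F × E => T p.1 p.2) (f : E → F) {n : ℕ} (hn : n ≤ finrank ℝ E)
    {V : Set E} (hV : V.Countable) : Dense (MSimp f s T C V n)ᶜ := by
  rcases Nat.eq_zero_or_pos n with rfl | hn0
  · have h0 : MSimp f s T C V 0 = ∅ := by
      ext z
      simp [MSimp]
    rw [h0, compl_empty]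
    exact dense_univ
  have hVc : Countable V := hV.to_subtype
  apply dense_compl_of_dimH_lt_finrank
  refine (dimH_mono (MSimp_subset V n)).trans_lt ?_
  rw [dimH_iUnion]
  have hle : (⨆ (i : Σ m : Fin n, (Fin (m : ℕ) → V) × V),
      dimH ((fun u : Fin (i.1 : ℕ) → ℝ =>
          mv f s T C (List.ofFn fun j => ((i.2.1 j : E), u j)) (i.2.2 : E) 1) ''
          {u | ∀ j, 0 < u j})) ≤ ((n - 1 : ℕ) : ENNReal) := by
    apply iSup_le
    intro i
    refine ((contDiffOn_mv hC hs hT f (i.1 : ℕ) (fun j => (i.2.1 j : E)) (i.2.2 : E)).dimH_image_le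
      (convex_orthant _) Subset.rfl).trans ?_
    refine (dimH_mono (subset_univ _)).trans ?_
    rw [Real.dimH_univ_pi_fin]
    have h3 : (i.1 : ℕ) ≤ n - 1 := by
      have := i.1.2
      omega
    exact_mod_cast h3
  refine hle.trans_lt ?_
  have h4 : n - 1 < finrank ℝ E := by omega
  exact_mod_cast h4

/-- Every moved point with weight zero of the last vertex and at most `n` active entries lies in
`MSimp`. -/
theorem mem_MSimp (hC : IsCone C) (f s : E → F) (T : F → E → E) {n : ℕ} {V : Set E}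
    (L : List (E × ℝ)) (hL : ∀ p ∈ L, 0 ≤ p.2 ∧ p.1 ∈ V) (hsum : 0 < (L.map Prod.snd).sum)
    (hn : (L.filter fun p => decide (p.2 ≠ 0)).length ≤ n) (y : E) :
    mv f s T C L y 0 ∈ MSimp f s T C V n := by
  have hF : L.filter (fun p => decide (p.2 ≠ 0)) ≠ [] := by
    intro h
    rw [List.filter_eq_nil_iff] at h
    have h0 : (L.map Prod.snd).sum = 0 := by
      apply List.sum_eq_zero
      intro x hx
      obtain ⟨q, hq, rfl⟩ := List.mem_map.1 hx
      have := h q hq
      simpa using this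
    rw [h0] at hsum
    exact lt_irrefl _ hsum
  have hmv : mv f s T C (L.filter fun p => decide (p.2 ≠ 0)) y 0 = mv f s T C L y 0 := by
    unfold mv
    rw [avg_filter, Psi_filter hC]
  set P := L.filter (fun p => decide (p.2 ≠ 0)) with hPdef
  have hmemP : ∀ q ∈ P, q.1 ∈ V ∧ 0 < q.2 := by
    intro q hq
    rw [hPdef, List.mem_filter] at hq
    have h1 := hL q hq.1
    have h2 : q.2 ≠ 0 := by simpa using hq.2
    exact ⟨h1.2, lt_of_le_of_ne h1.1 h2.symm⟩
  have hsplit := List.dropLast_append_getLast hF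
  have hlast := hmemP _ (List.getLast_mem hF)
  refine ⟨P.dropLast, (P.getLast hF).1, (P.getLast hF).2, ?_, hlast.1, hlast.2, ?_, ?_⟩
  · rw [List.length_dropLast]
    have h1 : 0 < P.length := List.length_pos_iff.2 hF
    omega
  · intro q hq
    exact hmemP q (List.mem_of_mem_dropLast hq)
  · rw [← hmv]
    have h3 : P = P.dropLast ++ [((P.getLast hF).1, (P.getLast hF).2)] := hsplit.symm
    conv_lhs => rw [h3]
    unfold mv
    rw [Psi_append hC P.dropLast (P.getLast hF).1 y hlast.2, avg_append]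

end Pool.Agent.Lib.MP_df705a_gt.Wide
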