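import Pool.Agent.Lib.MP_df705a_gt.Wide.A1

/-!
# No cover of multiplicity `n` over a ball
-/

open scoped Topology ContDiff
open Set MeasureTheory Module Metric

noncomputable section

set_option linter.unusedSectionVars false

namespace Pool.Agent.Lib.MP_df705a_gt.Wide

open Pool.Agent.Lib.MP_df705a_gt.Pin

variable {E : Type*} [NormedAddCommGroup E] [InnerProductSpace ℝ E] [FiniteDimensional ℝ E]
  {F : Type*} [NormedAddCommGroup F] [NormedSpace ℝ F]
  {d : E → E → ℝ} {K : Set E} {G G' : E → E → E} {f s : E → F} {T : F → E → E}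

/-- The swelling of a cover. -/
theorem swelling (hd : IsD d) (hf : Continuous f) {J : Type*} {V : J → Set E} (hV : LocallyFinite V)
    (hVc : ∀ j, IsClosed (V j)) {n : ℕ} (hm : ∀ x, {j | x ∈ V j}.encard ≤ n) {D δ : ℝ}
    (hD : ∀ j, ∀ x ∈ V j, ∀ y ∈ V j, d x y ≤ D)
    (hosc : ∀ j, ∀ x ∈ V j, ∀ y ∈ V j, ‖f x - f y‖ ≤ δ) {η : ℝ} (hη : 0 < η) :
    ∃ O : J → Set E, (∀ j, IsOpen (O j)) ∧ (∀ j, V j ⊆ O j) ∧ (∀ x, {j | x ∈ O j}.encard ≤ n) ∧
      (∀ j, ∀ x ∈ O j, ∀ y ∈ O j, d x y ≤ D + 2) ∧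
      ∀ j, ∀ x ∈ O j, ∀ y ∈ O j, ‖f x - f y‖ ≤ δ + 2 * η := by
  have hδ : ∀ x : E, ∃ r : ℝ, 0 < r ∧ ∀ y, dist y x < r → d x y ≤ 1 ∧ ‖f x - f y‖ ≤ η := by
    intro x
    have h1 : Continuous fun y => d x y := hd.cont.comp (Continuous.prodMk_right x)
    have h2 : {y | d x y < 1} ∈ 𝓝 x := by
      apply (isOpen_lt h1 continuous_const).mem_nhds
      show d x x < 1
      rw [hd.self]
      exact one_pos
    have h3 : {y | ‖f x - f y‖ < η} ∈ 𝓝 x := by
      apply (isOpen_lt (continuous_const.sub hf).norm continuous_const).mem_nhds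
      show ‖f x - f x‖ < η
      rw [sub_self, norm_zero]
      exact hη
    obtain ⟨r, hr, hr'⟩ := Metric.mem_nhds_iff.1 (Filter.inter_mem h2 h3)
    exact ⟨r, hr, fun y hy => ⟨(hr' hy).1.le, (hr' hy).2.le⟩⟩
  choose r hr hr' using hδ
  obtain ⟨O, h1, h2, h3, h4⟩ := exists_swelling hV hVc hm r hr
  refine ⟨O, h1, h2, h3, fun j x hx y hy => ?_, fun j x hx y hy => ?_⟩
  · obtain ⟨x', hx', hxx'⟩ := h4 j x hx
    obtain ⟨y', hy', hyy'⟩ := h4 j y hy
    have a1 := (hr' x' x hxx').1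
    have a2 := (hr' y' y hyy').1
    have a3 := hD j x' hx' y' hy'
    have a4 := hd.tri x x' y
    have a5 := hd.tri x' y' y
    have a6 := hd.comm x x'
    linarith
  · obtain ⟨x', hx', hxx'⟩ := h4 j x hx
    obtain ⟨y', hy', hyy'⟩ := h4 j y hy
    have a1 := (hr' x' x hxx').2
    have a2 := (hr' y' y hyy').2
    have a3 := hosc j x' hx' y' hy'
    have a4 : f x - f y = -(f x' - f x) + (f x' - f y') + (f y' - f y) := by abel
    rw [a4]
    refine (norm_add_le _ _).trans ?_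
    have a5 := norm_add_le (-(f x' - f x)) (f x' - f y')
    rw [norm_neg] at a5
    linarith

/-- **No cover of multiplicity `n` over a ball.** Let `E` be the covering of the product of a compact
space with `F`, let `s` be the projection to `F`, `T` the lifted translations, and let `f` be at
bounded distance from `s`. Then the set where `‖f‖ ≤ 1 / 2` is not covered by closed sets `V j` of
bounded diameter, such that at most `n = dim E` of them contain a given point and `f` varies by at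
most `1 / 16` on each of them. -/
theorem no_ball_cover [Nontrivial E] (hd : IsD d) (hG : CoCpt d K G G') (hs : ContDiff ℝ 1 s)
    (hsd : ∀ x y, ‖s x - s y‖ ≤ d x y) (hT : ContDiff ℝ 1 fun p : F × E => T p.1 p.2)
    (hT0 : ∀ y, T 0 y = y) (hTs : ∀ a y, s (T a y) = s y + a) (hTd : ∀ a y, d y (T a y) ≤ ‖a‖)
    (hf : Continuous f) {c : ℝ} (hfs : ∀ x, ‖f x - s x‖ ≤ c) {J : Type*} [Countable J]
    {V : J → Set E} (hV : LocallyFinite V) (hVc : ∀ j, IsClosed (V j))
    (hcov : ∀ x, ‖f x‖ ≤ 1 / 2 → ∃ j, x ∈ V j) (hm : ∀ x, {j | x ∈ V j}.encard ≤ finrank ℝ E)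
    {D : ℝ} (hD : ∀ j, ∀ x ∈ V j, ∀ y ∈ V j, d x y ≤ D)
    (hosc : ∀ j, ∀ x ∈ V j, ∀ y ∈ V j, ‖f x - f y‖ ≤ 1 / 16) : False := by
  classical
  have hC := hG.isCone
  set n := finrank ℝ E with hn
  obtain ⟨O, hO, hVO, hmO, hDO, hoscO⟩ :=
    swelling hd hf hV hVc hm hD hosc (η := 1 / 32) (by norm_num)
  obtain ⟨R, hR⟩ := exists_displacement hd hG (D + 2) n
  have hsc : Continuous s := hs.continuous
  have hTc : Continuous fun p : F × E => T p.1 p.2 := hT.continuous
  let v : J → E := fun j => if h : (O j).Nonempty then h.some else 0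
  have hv : ∀ j x, x ∈ O j → v j ∈ O j := by
    intro j x hx
    have h1 : (O j).Nonempty := ⟨x, hx⟩
    change (if h : (O j).Nonempty then h.some else 0) ∈ O j
    rw [dif_pos h1]
    exact h1.some_mem
  have hdc : Continuous fun y => d 0 y := hd.cont.comp (Continuous.prodMk_right 0)
  -- the center
  set y₀ := T (- s 0) 0 with hy₀
  have hsy₀ : s y₀ = 0 := by rw [hy₀, hTs]; abel
  obtain ⟨p, ⟨hpB, hps⟩, hp⟩ := (dense_compl_MSimp hC hs hT f (le_refl (finrank ℝ E))
    (V := range v) (countable_range v)).inter_open_nonempty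
    (ball y₀ 1 ∩ {y | ‖s y‖ < 1 / 8}) (isOpen_ball.inter (isOpen_lt hsc.norm continuous_const))
    ⟨y₀, mem_ball_self one_pos, by
      show ‖s y₀‖ < 1 / 8
      rw [hsy₀, norm_zero]; norm_num⟩
  rw [← hn] at hp
  have hps' : ‖s p‖ < 1 / 8 := hps
  -- the radius
  set R' := R + (1 + c + R) with hR'
  obtain ⟨ρ₁, hρ1, hρa⟩ : ∃ ρ₁ : ℝ, 1 ≤ ρ₁ ∧ ∀ x, d p x ≤ R' → ‖x - p‖ ≤ ρ₁ := by
    obtain ⟨ρ₀, hρ₀⟩ := (hd.proper p R').isBounded.subset_closedBall p
    refine ⟨max ρ₀ 1, le_max_right _ _, fun x hx => ?_⟩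
    have h1 : x ∈ closedBall p ρ₀ := hρ₀ hx
    rw [mem_closedBall, dist_eq_norm] at h1
    exact h1.trans (le_max_left _ _)
  set ρ₂ := ρ₁ + 3 with hρ₂
  set B := closedBall p ρ₂ with hB
  obtain ⟨S, hS⟩ : ∃ S : Finset J, B ∩ {x | ‖f x‖ ≤ 1 / 2} ⊆ ⋃ j ∈ S, O j := by
    have hK0 : IsCompact (B ∩ {x | ‖f x‖ ≤ 1 / 2}) :=
      (isCompact_closedBall p ρ₂).inter_right (isClosed_le hf.norm continuous_const)
    refine hK0.elim_finite_subcover O hO ?_
    rintro x ⟨_, hx⟩
    obtain ⟨j, hj⟩ := hcov x hx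
    exact mem_iUnion.2 ⟨j, hVO j hj⟩
  let φ : J → E → ℝ := fun j => T6_g (O j)
  have hφc : ∀ j, Continuous (φ j) := fun j => T6_g_cont _
  have hφ0 : ∀ j x, 0 ≤ φ j x := fun j x => T6_g_nonneg _ _
  have hφm : ∀ j x, φ j x ≠ 0 → x ∈ O j := fun j x h => T6_g_mem _ _ h
  have hφs : ∀ x, 0 ≤ ∑ j ∈ S, φ j x := fun x => Finset.sum_nonneg fun j _ => hφ0 j x
  have hφp : ∀ x ∈ B, ‖f x‖ ≤ 1 / 2 → 0 < ∑ j ∈ S, φ j x := by
    intro x hx hfx
    obtain ⟨j, hj, hxj⟩ := mem_iUnion₂.1 (hS ⟨hx, hfx⟩)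
    exact Finset.sum_pos' (fun j _ => hφ0 j x) ⟨j, hj, T6_g_pos (hO j) hxj⟩
  -- the cut off functions
  let θ : E → ℝ := fun x => max 0 (min 1 (‖x - p‖ - (ρ₂ - 2)))
  let ν : E → ℝ := fun x => max 0 (min 1 (‖x - p‖ - (ρ₂ - 1)))
  let lam : E → ℝ := fun x => max 0 (min 1 (8 * (‖f x‖ - 3 / 8)))
  let μ : E → ℝ := fun x => θ x + (1 - θ x) * lam x
  have hθc : Continuous θ := by
    change Continuous fun x => max 0 (min 1 (‖x - p‖ - (ρ₂ - 2)))
    fun_prop
  have hνc : Continuous ν := by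
    change Continuous fun x => max 0 (min 1 (‖x - p‖ - (ρ₂ - 1)))
    fun_prop
  have hlc : Continuous lam := by
    change Continuous fun x => max 0 (min 1 (8 * (‖f x‖ - 3 / 8)))
    have := hf.norm
    fun_prop
  have hμc : Continuous μ := hθc.add ((continuous_const.sub hθc).mul hlc)
  have h01 : ∀ r : ℝ, 0 ≤ max 0 (min 1 r) ∧ max 0 (min 1 r) ≤ 1 := fun r =>
    ⟨le_max_left _ _, max_le zero_le_one (min_le_left _ _)⟩
  have hθ0 : ∀ x, 0 ≤ θ x := fun x => (h01 _).1
  have hθ1 : ∀ x, θ x ≤ 1 := fun x => (h01 _).2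
  have hl0 : ∀ x, 0 ≤ lam x := fun x => (h01 _).1
  have hl1 : ∀ x, lam x ≤ 1 := fun x => (h01 _).2
  have hμ0 : ∀ x, 0 ≤ μ x := fun x =>
    add_nonneg (hθ0 x) (mul_nonneg (by linarith [hθ1 x]) (hl0 x))
  have hμ1 : ∀ x, μ x ≤ 1 := by
    intro x
    have h1 := mul_le_mul_of_nonneg_left (hl1 x) (show 0 ≤ 1 - θ x by linarith [hθ1 x])
    change θ x + (1 - θ x) * lam x ≤ 1
    linarith
  have hpos_of : ∀ r : ℝ, 0 < max 0 (min 1 r) → 0 < r := by
    intro r h0
    by_contra hcon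
    push Not at hcon
    have h2 : max 0 (min 1 r) = 0 := max_eq_left ((min_le_right _ _).trans hcon)
    rw [h2] at h0
    exact lt_irrefl _ h0
  have hone : ∀ r : ℝ, 1 ≤ r → max 0 (min 1 r) = 1 := by
    intro r hr
    rw [min_eq_left hr]
    exact max_eq_right zero_le_one
  have hθpos : ∀ x, 0 < θ x → ρ₁ < ‖x - p‖ := by
    intro x h0
    have h1 := hpos_of _ h0
    linarith
  have hνθ : ∀ x, 0 < ν x → θ x = 1 := by
    intro x h0
    have h1 := hpos_of _ h0
    exact hone _ (by linarith)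
  have htot : ∀ x ∈ B, 0 < (1 - μ x) * (∑ j ∈ S, φ j x) + μ x := by
    intro x hx
    have h1 := hφs x
    have h2 : 0 ≤ (1 - μ x) * (∑ j ∈ S, φ j x) := mul_nonneg (by linarith [hμ1 x]) h1
    rcases (hμ0 x).eq_or_lt with h | h
    · rw [← h, sub_zero, one_mul, add_zero]
      apply hφp x hx
      by_contra hcon
      push Not at hcon
      have h3 : lam x = 1 := hone _ (by linarith)
      have h4 : μ x = 1 := by
        change θ x + (1 - θ x) * lam x = 1
        rw [h3]; ring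
      rw [h4] at h
      exact zero_ne_one h
    · linarith
  -- the list
  let Ls : E → List (E × ℝ) := fun x => S.toList.map fun j => (v j, (1 - μ x) * φ j x)
  have hLsum : ∀ x, ((Ls x).map Prod.snd).sum = (1 - μ x) * ∑ j ∈ S, φ j x := by
    intro x
    change ((S.toList.map fun j => (v j, (1 - μ x) * φ j x)).map Prod.snd).sum = _
    rw [List.map_map, Finset.mul_sum]
    exact Finset.sum_map_toList S _
  have hLw : ∀ x, ((Ls x).map fun q => q.2 • f q.1).sum =
      ∑ j ∈ S, ((1 - μ x) * φ j x) • f (v j) := by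
    intro x
    change ((S.toList.map fun j => (v j, (1 - μ x) * φ j x)).map fun q => q.2 • f q.1).sum = _
    rw [List.map_map]
    exact Finset.sum_map_toList S _
  have hL0 : ∀ x, ∀ q ∈ Ls x, 0 ≤ q.2 ∧ q.1 ∈ range v := by
    intro x q hq
    obtain ⟨j, _, rfl⟩ := List.mem_map.1 hq
    exact ⟨mul_nonneg (by linarith [hμ1 x]) (hφ0 j x), mem_range_self j⟩
  have hLa : ∀ x, ∀ q ∈ Ls x, q.2 ≠ 0 → d x q.1 ≤ D + 2 ∧ ‖f q.1 - f x‖ ≤ 1 / 8 := by
    intro x q hq hq2
    obtain ⟨j, _, rfl⟩ := List.mem_map.1 hq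
    have h4 : φ j x ≠ 0 := right_ne_zero_of_mul hq2
    have h5 := hφm j x h4
    refine ⟨hDO j x h5 (v j) (hv j x h5), ?_⟩
    have h6 := hoscO j (v j) (hv j x h5) x h5
    norm_num at h6 ⊢
    linarith
  have hLl : ∀ x, ((Ls x).filter fun p => decide (p.2 ≠ 0)).length ≤ n := fun x =>
    T9_length S (hmO x) v _ (fun j _ h => hφm j x (right_ne_zero_of_mul h))
  -- the maps
  let H₁ : E → E := fun x => Psi (cone G G') (Ls x) x (μ x)
  let σ : E → F := fun x => avg f (Ls x) x (μ x)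
  let H : E → E := fun x => T ((1 - ν x) • (σ x - s (H₁ x))) (H₁ x)
  have hH₁c : ContinuousOn H₁ B := by
    intro x hx
    refine continuousWithinAt_Psi hC v S.toList (fun j x => (1 - μ x) * φ j x) (fun x => x)
      μ B ?_ ?_ continuousOn_id hμc.continuousOn (fun x _ => hμ0 x) x hx ?_
    · intro j _
      exact ((continuous_const.sub hμc).mul (hφc j)).continuousOn
    · intro j _ x _
      exact mul_nonneg (by linarith [hμ1 x]) (hφ0 j x)
    · have h1 : (S.toList.map fun j => (1 - μ x) * φ j x).sum = (1 - μ x) * ∑ j ∈ S, φ j x := by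
        rw [Finset.mul_sum]
        exact Finset.sum_map_toList S _
      rw [h1]
      exact htot x hx
  have hσc : ContinuousOn σ B := by
    have h1 : σ = fun x => ((1 - μ x) * (∑ j ∈ S, φ j x) + μ x)⁻¹ •
        ((∑ j ∈ S, ((1 - μ x) * φ j x) • f (v j)) + μ x • f x) := by
      funext x
      change avg f (Ls x) x (μ x) = _
      unfold avg
      rw [hLsum, hLw]
    rw [h1]
    refine ContinuousOn.smul (ContinuousOn.inv₀ ?_ fun x hx => (htot x hx).ne') ?_
    · exact (((continuous_const.sub hμc).mul (continuous_finsetSum _ fun j _ => hφc j)).add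
        hμc).continuousOn
    · exact ((continuous_finsetSum _ fun j _ => ((continuous_const.sub hμc).mul (hφc j)).smul
        continuous_const).add (hμc.smul hf)).continuousOn
  have hHc : ContinuousOn H B := by
    change ContinuousOn (fun x => T ((1 - ν x) • (σ x - s (H₁ x))) (H₁ x)) B
    have h1 : ContinuousOn (fun x => ((1 - ν x) • (σ x - s (H₁ x)), H₁ x)) B :=
      (((continuous_const.sub hνc).continuousOn).smul (hσc.sub (hsc.comp_continuousOn hH₁c))).prodMk
        hH₁c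
    exact hTc.comp_continuousOn h1
  have hid : ∀ x, ‖x - p‖ = ρ₂ → H x = x := by
    intro x hx
    have h1 : ν x = 1 := hone _ (by linarith)
    have h2 : θ x = 1 := hone _ (by linarith)
    have h3 : μ x = 1 := by
      change θ x + (1 - θ x) * lam x = 1
      rw [h2]; ring
    have h4 : H₁ x = x := by
      change Psi (cone G G') (Ls x) x (μ x) = x
      apply Psi_of_zero hC
      intro q hq
      obtain ⟨j, _, rfl⟩ := List.mem_map.1 hq
      simp only
      rw [h3, sub_self, zero_mul]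
    change T ((1 - ν x) • (σ x - s (H₁ x))) (H₁ x) = x
    rw [h1, sub_self, zero_smul, hT0, h4]
  have hdH₁ : ∀ x, d x (H₁ x) ≤ R := by
    intro x
    exact hR x (Ls x) (μ x) (hμ0 x) (fun q hq => (hL0 x q hq).1)
      (fun q hq hq2 => (hLa x q hq hq2).1) (hLl x)
  have hσf : ∀ x ∈ B, ‖σ x - f x‖ ≤ 1 / 8 := by
    intro x hx
    refine norm_avg_sub_le f (Ls x) x (f x) (hμ0 x) (fun q hq => (hL0 x q hq).1) ?_
      (fun q hq hq2 => (hLa x q hq hq2).2) (fun _ => by rw [sub_self, norm_zero]; norm_num)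
    rw [hLsum]
    exact htot x hx
  have hν01 : ∀ x, 0 ≤ 1 - ν x ∧ 1 - ν x ≤ 1 := fun x => by
    have h1 : 0 ≤ ν x ∧ ν x ≤ 1 := h01 _
    constructor <;> linarith [h1.1, h1.2]
  have hdH : ∀ x ∈ B, d x (H x) ≤ R' := by
    intro x hx
    have h1 := hdH₁ x
    have h2 : ‖σ x - s (H₁ x)‖ ≤ 1 + c + R := by
      have a1 : σ x - s (H₁ x) = (σ x - f x) + (f x - s x) + (s x - s (H₁ x)) := by abel
      rw [a1]
      have a2 := norm_add_le ((σ x - f x) + (f x - s x)) (s x - s (H₁ x))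
      have a3 := norm_add_le (σ x - f x) (f x - s x)
      have a4 := hσf x hx
      have a5 := hfs x
      have a6 := hsd x (H₁ x)
      linarith
    have h3 := hd.tri x (H₁ x) (H x)
    have h4 : d (H₁ x) (H x) ≤ ‖(1 - ν x) • (σ x - s (H₁ x))‖ := hTd _ _
    rw [norm_smul, Real.norm_eq_abs, abs_of_nonneg (hν01 x).1] at h4
    have h5 : (1 - ν x) * ‖σ x - s (H₁ x)‖ ≤ 1 * ‖σ x - s (H₁ x)‖ :=
      mul_le_mul_of_nonneg_right (hν01 x).2 (norm_nonneg _)
    rw [hR']
    linarith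
  obtain ⟨x, hx, hxp⟩ := exists_eq_center (by linarith : 0 < ρ₂) hHc hid
  have hfar : ¬ ρ₁ < ‖x - p‖ := by
    intro hcon
    have h1 := hdH x hx
    rw [hxp, hd.comm] at h1
    have h2 := hρa x h1
    linarith
  have hθz : θ x = 0 := by
    rcases (hθ0 x).eq_or_lt with h | h
    · exact h.symm
    · exact absurd (hθpos x h) hfar
  have hνz : ν x = 0 := by
    have h1 : 0 ≤ ν x := (h01 _).1
    rcases h1.eq_or_lt with h | h
    · exact h.symm
    · have h2 := hνθ x h
      rw [hθz] at h2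
      exact absurd h2 zero_ne_one
  have hxp' : T (σ x - s (H₁ x)) (H₁ x) = p := by
    have h1 : T ((1 - ν x) • (σ x - s (H₁ x))) (H₁ x) = p := hxp
    rwa [hνz, sub_zero, one_smul] at h1
  have hσp : σ x = s p := by
    rw [← hxp', hTs]
    abel
  have hfx : ‖f x‖ < 3 / 8 := by
    have h1 := hσf x hx
    rw [hσp] at h1
    have h2 : f x = s p - (s p - f x) := by abel
    rw [h2]
    have h3 := norm_sub_le (s p) (s p - f x)
    linarith
  have hlz : lam x = 0 := by
    rcases (hl0 x).eq_or_lt with h | h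
    · exact h.symm
    · have h1 := hpos_of _ h
      linarith
  have hμz : μ x = 0 := by
    change θ x + (1 - θ x) * lam x = 0
    rw [hθz, hlz]; ring
  apply hp
  have h1 : p = mv f s T (cone G G') (Ls x) x 0 := by
    rw [← hxp']
    change T (avg f (Ls x) x (μ x) - s (Psi (cone G G') (Ls x) x (μ x)))
      (Psi (cone G G') (Ls x) x (μ x)) = _
    rw [hμz]
    rfl
  rw [h1]
  refine mem_MSimp hC f s T (Ls x) (hL0 x) ?_ (hLl x) x
  have h2 := htot x hx
  rw [hLsum]
  rw [hμz] at h2 ⊢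
  linarith

end Pool.Agent.Lib.MP_df705a_gt.Wide
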