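import Pool.Agent.Lib.MP_df705a_gt.Mg.G065

/-!
# The lifted translations
-/

open scoped Manifold ContDiff Topology
open Set Bundle Module Filter MeasureTheory

noncomputable section

set_option linter.unusedSectionVars false

namespace Pool.Agent.Lib.MP_df705a_gt.Wide

open Pool.Agent.Lib.MP_df705a_gt.Pin
open Pool.Agent.Lib.MP_df705a_gt.Coll (Met)

variable {E' : Type*} [NormedAddCommGroup E'] [NormedSpace ℝ E'] [FiniteDimensional ℝ E']
  {E : Type*} [NormedAddCommGroup E] [NormedSpace ℝ E] [FiniteDimensional ℝ E]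
  {F : Type*} [NormedAddCommGroup F] [InnerProductSpace ℝ F] [FiniteDimensional ℝ F]
  {M : Type*} [TopologicalSpace M] [ChartedSpace E M] [IsManifold 𝓘(ℝ, E) ∞ M]
  {q : E' → M} {s : E' → F}

/-- A continuous lift of a smooth map is smooth. -/
theorem contDiff_lift' (H : StableCover E q s) {Z : Type*} [NormedAddCommGroup Z] [NormedSpace ℝ Z]
    {γ : Z → E'} (hγ : Continuous γ) {α : Z → E'} {β : Z → F} (hα : ContDiff ℝ ∞ α)
    (hβ : ContDiff ℝ ∞ β) (hγq : ∀ w, q (γ w) = q (α w) ∧ s (γ w) = β w) : ContDiff ℝ ∞ γ := by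
  rw [contDiff_iff_contDiffAt]
  intro w
  have hq := H.smooth_q
  have hs := H.smooth_s
  set c := extChartAt 𝓘(ℝ, E) (q (α w)) with hc
  have htq : ∀ y, q y = q (α w) → ContDiffAt ℝ ∞ (fun z => c (q z)) y := by
    intro y hy
    have h1 : ContMDiffAt 𝓘(ℝ, E) 𝓘(ℝ, E) ∞ (extChartAt 𝓘(ℝ, E) (q (α w))) (q y) := by
      rw [hy]
      exact contMDiffAt_extChartAt
    have h2 : ContMDiffAt 𝓘(ℝ, E') 𝓘(ℝ, E) ∞ (extChartAt 𝓘(ℝ, E) (q (α w)) ∘ q) y :=
      ContMDiffAt.comp y h1 (hq y)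
    exact h2.contDiffAt
  set y := γ w with hy
  have hqy : q y = q (α w) := (hγq w).1
  let Θ : E' → E × F := fun z => (c (q z), s z)
  have hΘ : ContDiffAt ℝ ∞ Θ y := (htq y hqy).prodMk hs.contDiffAt
  let A : E' →L[ℝ] E × F := (fderiv ℝ (fun z => c (q z)) y).prod (fderiv ℝ s y)
  have hΘd : HasFDerivAt Θ A y :=
    ((htq y hqy).differentiableAt (by simp)).hasFDerivAt.prodMk
      ((hs.contDiffAt (x := y)).differentiableAt (by simp)).hasFDerivAt
  have hA : Function.Bijective A := by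
    have h1 := H.bij y
    have h2 : (fun v : E' => ((mfderiv 𝓘(ℝ, E') 𝓘(ℝ, E) q y v : E), fderiv ℝ s y v)) = A := by
      funext v
      refine Prod.ext ?_ rfl
      have h3 : MDifferentiableAt 𝓘(ℝ, E') 𝓘(ℝ, E) q y := (hq y).mdifferentiableAt (by simp)
      show (mfderiv 𝓘(ℝ, E') 𝓘(ℝ, E) q y : E' →L[ℝ] E) v = fderiv ℝ (fun z => c (q z)) y v
      rw [h3.mfderiv]
      simp only [writtenInExtChartAt, extChartAt_model_space_eq_id, PartialEquiv.refl_symm,
        PartialEquiv.refl_coe, modelWithCornersSelf_coe, Set.range_id, id_eq, fderivWithin_univ,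
        Function.comp_id]
      rw [hqy]
      rfl
    rw [h2] at h1
    exact h1
  let Λ₀ : E' ≃ₗ[ℝ] E × F := LinearEquiv.ofBijective (A : E' →ₗ[ℝ] E × F) hA
  let Λ : E' ≃L[ℝ] E × F := Λ₀.toContinuousLinearEquiv
  have hΛ : (Λ : E' →L[ℝ] E × F) = A := by
    ext v <;> rfl
  have hΘd' : HasFDerivAt Θ (Λ : E' →L[ℝ] E × F) y := by
    rw [hΛ]
    exact hΘd
  have : CompleteSpace E' := FiniteDimensional.complete ℝ E'
  have hn : (∞ : ℕ∞ω) ≠ 0 := by simp
  have hinv := hΘ.to_localInverse hΘd' hn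
  let e := hΘ.toOpenPartialHomeomorph Θ hΘd' hn
  have hey : y ∈ e.source := hΘ.mem_toOpenPartialHomeomorph_source hΘd' hn
  have hsrc : ∀ᶠ x in 𝓝 w, γ x ∈ e.source :=
    hγ.continuousAt.eventually (e.open_source.mem_nhds hey)
  have heq : γ =ᶠ[𝓝 w] fun x => hΘ.localInverse hΘd' hn (c (q (α x)), β x) := by
    filter_upwards [hsrc] with x hx
    have h1 : e.symm (e (γ x)) = γ x := e.left_inv hx
    have h2 : e (γ x) = (c (q (α x)), β x) := by
      show ((c (q (γ x)), s (γ x)) : E × F) = _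
      rw [(hγq x).1, (hγq x).2]
    rw [h2] at h1
    exact h1.symm
  refine ContDiffAt.congr_of_eventuallyEq ?_ heq
  have h3 : ContDiffAt ℝ ∞ (fun x => ((c (q (α x)), β x) : E × F)) w :=
    ((htq (α w) rfl).comp w hα.contDiffAt).prodMk hβ.contDiffAt
  have h4 : Θ y = (c (q (α w)), β w) := by
    show ((c (q (γ w)), s (γ w)) : E × F) = _
    rw [(hγq w).1, (hγq w).2]
  rw [h4] at hinv
  exact ContDiffAt.comp w hinv h3

/-- **The lifted translations.** -/
theorem exists_flow (H : StableCover E q s) : ∃ T : F → E' → E',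
    ContDiff ℝ ∞ (fun z : F × E' => T z.1 z.2) ∧ (∀ y, T 0 y = y) ∧
      (∀ a y, q (T a y) = q y) ∧ ∀ a y, s (T a y) = s y + a := by
  have hqc : Continuous q := H.smooth_q.continuous
  have hsc : Continuous s := H.smooth_s.continuous
  have hcontr : ContractibleSpace (F × E') := RealTopologicalVectorSpace.contractibleSpace
  have hcontr' : ContractibleSpace E' := RealTopologicalVectorSpace.contractibleSpace
  obtain ⟨Γ, ⟨hΓ0, hΓ⟩, -⟩ := H.cov.existsUnique_continuousMap_lifts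
    (⟨fun z => (q z.2, s z.2 + z.1), (hqc.comp continuous_snd).prodMk
      ((hsc.comp continuous_snd).add continuous_fst)⟩ : C(F × E', M × F)) (0, 0) 0
    (Prod.ext rfl (by simp))
  have h1 : ∀ z : F × E', q (Γ z) = q z.2 ∧ s (Γ z) = s z.2 + z.1 := by
    intro z
    have h := congrFun hΓ z
    exact ⟨congrArg Prod.fst h, congrArg Prod.snd h⟩
  have h0 : ∀ y, Γ (0, y) = y := by
    have h2 : (fun y => Γ (0, y)) = fun y => y := by
      refine H.cov.eq_of_comp_eq (Γ.continuous.comp (Continuous.prodMk_right 0)) continuous_id ?_ 0 ?_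
      · funext y
        refine Prod.ext ?_ ?_
        · change q (Γ (0, y)) = q y
          rw [(h1 _).1]
        · change s (Γ (0, y)) = s y
          rw [(h1 _).2, add_zero]
      · exact hΓ0
    exact congrFun h2
  have hsm : ContDiff ℝ ∞ fun z : F × E' => Γ z :=
    contDiff_lift' H Γ.continuous (α := Prod.snd) (β := fun z => s z.2 + z.1) contDiff_snd
      ((H.smooth_s.comp contDiff_snd).add contDiff_fst) h1
  exact ⟨fun a y => Γ (a, y), hsm, h0, fun a y => (h1 _).1, fun a y => (h1 _).2⟩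

end Pool.Agent.Lib.MP_df705a_gt.Wide
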