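import Pool.Agent.Lib.MP_df705a_gt.Wide.A1

/-!
# Chains of segments which avoid a small set, and the push along a chain
-/

open scoped Topology ContDiff
open Set MeasureTheory Module Metric

noncomputable section

set_option linter.unusedSectionVars false

namespace Pool.Agent.Lib.MP_df705a_gt.Wide

open Pool.Agent.Lib.MP_df705a_gt.Pin

variable {E : Type*} [NormedAddCommGroup E] [NormedSpace ℝ E]
  {F : Type*} [NormedAddCommGroup F] [NormedSpace ℝ F]

/-- `y` is the end of a chain of segments which starts at `p` and is contained in the set `U`; `Z` is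
the union of the segments. -/
inductive Chain (U : Set E) (p : E) : E → Set E → Prop
  | nil : p ∈ U → Chain U p p {p}
  | cons {y y' : E} {Z : Set E} : Chain U p y Z → segment ℝ y y' ⊆ U →
      Chain U p y' (Z ∪ segment ℝ y y')

theorem Chain.subset {U : Set E} {p y : E} {Z : Set E} (h : Chain U p y Z) : Z ⊆ U := by
  induction h with
  | nil h => exact singleton_subset_iff.2 h
  | cons _ h2 ih => exact union_subset ih h2

theorem Chain.mem {U : Set E} {p y : E} {Z : Set E} (h : Chain U p y Z) : y ∈ Z := by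
  induction h with
  | nil _ => rfl
  | cons _ _ _ => exact Or.inr (right_mem_segment ℝ _ _)

theorem Chain.isCompact {U : Set E} {p y : E} {Z : Set E} (h : Chain U p y Z) : IsCompact Z := by
  induction h with
  | nil _ => exact isCompact_singleton
  | cons _ _ ih =>
    refine ih.union ?_
    rw [segment_eq_image]
    exact isCompact_Icc.image (by fun_prop)

/-- The push along a chain. -/
theorem Chain.exists_push {U : Set E} {p y : E} {Z : Set E} (h : Chain U p y Z) {A : Set E}
    (hA : IsClosed A) (hdis : Disjoint Z A) :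
    ∃ ψ : E → E, Continuous ψ ∧ (∀ x ∈ A, ψ x = x) ∧ ∀ x, ψ x = p → x = y := by
  induction h with
  | nil _ => exact ⟨id, continuous_id, fun _ _ => rfl, fun _ hx => hx⟩
  | @cons y y' Z _ _ ih =>
    obtain ⟨ψ, h1, h2, h3⟩ := ih (hdis.mono_left subset_union_left)
    obtain ⟨θ, g1, g2, g3⟩ := Pin.exists_push hA y y' (hdis.mono_left subset_union_right)
    refine ⟨fun x => ψ (x + θ x • (y - y')), h1.comp (continuous_id.add (g1.smul
      continuous_const)), fun x hx => ?_, fun x hx => g3 x (h3 _ hx)⟩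
    show ψ (x + θ x • (y - y')) = x
    rw [g2 x hx, zero_smul, add_zero, h2 x hx]

/-- **Existence of chains.** Let `U` be open and connected and let `S` be a set such that for every
`p ∉ S` the segment from `p` to `y` avoids `S` for a dense set of points `y`. Then every point of `U`
is a limit of ends of chains in `U \ S` which start at a given point `p ∈ U \ S`. -/
theorem exists_chain {U S : Set E} (hU : IsOpen U) (hUc : IsPreconnected U)
    (hS : ∀ p, p ∉ S → Dense {y | Disjoint (segment ℝ p y) S}) {p : E} (hp : p ∈ U) (hpS : p ∉ S)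
    {y : E} (hy : y ∈ U) {O : Set E} (hO : IsOpen O) (hyO : y ∈ O) :
    ∃ (y' : E) (Z : Set E), y' ∈ O ∧ Chain (U \ S) p y' Z := by
  let R : Set E := {y | ∀ O : Set E, IsOpen O → y ∈ O → ∃ (y' : E) (Z : Set E), y' ∈ O ∧
    Chain (U \ S) p y' Z}
  have hpR : p ∈ R := fun O _ hpO => ⟨p, {p}, hpO, Chain.nil ⟨hp, hpS⟩⟩
  have hstep : ∀ y ∈ U ∩ R, ∃ δ : ℝ, 0 < δ ∧ ball y δ ⊆ R := by
    rintro y ⟨hyU, hyR⟩
    obtain ⟨δ, hδ, hδU⟩ := Metric.isOpen_iff.1 hU y hyU
    refine ⟨δ, hδ, fun z hz O hO hzO => ?_⟩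
    obtain ⟨y', Z, hy', hZ⟩ := hyR (ball y δ) isOpen_ball (mem_ball_self hδ)
    have hy'S : y' ∉ S := (hZ.subset hZ.mem).2
    obtain ⟨z', ⟨hz'O, hz'b⟩, hz'⟩ := (hS y' hy'S).inter_open_nonempty (O ∩ ball y δ)
      (hO.inter isOpen_ball) ⟨z, hzO, hz⟩
    refine ⟨z', _, hz'O, hZ.cons (y' := z') fun w hw => ⟨hδU ?_, fun hwS => ?_⟩⟩
    · exact (convex_ball y δ).segment_subset hy' hz'b hw
    · exact Set.disjoint_left.1 hz' hw hwS
  have hint : ∀ y ∈ U ∩ R, y ∈ interior R := by
    intro y hy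
    obtain ⟨δ, hδ, hδR⟩ := hstep y hy
    exact mem_interior.2 ⟨ball y δ, hδR, isOpen_ball, mem_ball_self hδ⟩
  have hmain : U ⊆ interior R := by
    refine hUc.subset_of_closure_inter_subset isOpen_interior ⟨p, hp, hint p ⟨hp, hpR⟩⟩ ?_
    rintro y ⟨hyc, hyU⟩
    refine hint y ⟨hyU, fun O hO hyO => ?_⟩
    obtain ⟨z, hzO, hzR⟩ := mem_closure_iff.1 hyc O hO hyO
    exact interior_subset hzR O hO hzO
  exact interior_subset (hmain hy) O hO hyO

/-- The set where `‖s‖ < c` is connected. -/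
theorem isPreconnected_lt {s : E → F} {T : F → E → E} (hs : Continuous s)
    (hT : Continuous fun z : F × E => T z.1 z.2) (hT0 : ∀ y, T 0 y = y)
    (hTs : ∀ a y, s (T a y) = s y + a) {c : ℝ} (hc : 0 < c) : IsPreconnected {y | ‖s y‖ < c} := by
  let r : E → E := fun y => T (-s y) y
  have hr : Continuous r := hT.comp (hs.neg.prodMk continuous_id)
  have hsr : ∀ y, s (r y) = 0 := fun y => by
    show s (T (-s y) y) = 0
    rw [hTs, add_neg_cancel]
  have hconn : IsPreconnected (range r) := isPreconnected_range hr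
  refine isPreconnected_of_forall (r 0) fun y hy => ?_
  have hy' : ‖s y‖ < c := hy
  refine ⟨range r ∪ (fun a : ℝ => T (-(a • s y)) y) '' Icc 0 1, ?_, Or.inl ⟨0, rfl⟩,
    Or.inr ⟨0, ⟨le_refl _, zero_le_one⟩, ?_⟩, ?_⟩
  · rintro z (⟨w, rfl⟩ | ⟨a, ha, rfl⟩)
    · show ‖s (r w)‖ < c
      rw [hsr, norm_zero]
      exact hc
    · show ‖s (T (-(a • s y)) y)‖ < c
      rw [hTs]
      have h1 : s y + -(a • s y) = (1 - a) • s y := by rw [sub_smul, one_smul]; abel
      rw [h1, norm_smul, Real.norm_eq_abs, abs_of_nonneg (by linarith [ha.2])]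
      have h2 : (1 - a) * ‖s y‖ ≤ 1 * ‖s y‖ :=
        mul_le_mul_of_nonneg_right (by linarith [ha.1]) (norm_nonneg _)
      linarith
  · show T (-((0 : ℝ) • s y)) y = y
    rw [zero_smul, neg_zero, hT0]
  · refine hconn.union (r y) ⟨y, rfl⟩ ⟨1, ⟨zero_le_one, le_refl _⟩, ?_⟩ ?_
    · show T (-((1 : ℝ) • s y)) y = r y
      rw [one_smul]
    · refine isPreconnected_Icc.image _ (Continuous.continuousOn ?_)
      exact hT.comp ((continuous_id.smul continuous_const).neg.prodMk continuous_const)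

variable {f s : E → F} {T : F → E → E} {C : E → ℝ → E → E}

/-- The segments which avoid the moved simplices. -/
theorem dense_segment [FiniteDimensional ℝ E] (hC : IsCone C) (hs : ContDiff ℝ 1 s)
    (hT : ContDiff ℝ 1 fun p : F × E => T p.1 p.2) (f : E → F) {n : ℕ} (hn : n + 1 ≤ finrank ℝ E)
    {V : Set E} (hV : V.Countable) {p : E} (hp : p ∉ MSimp f s T C V n) :
    Dense {y | Disjoint (segment ℝ p y) (MSimp f s T C V n)} := by
  have hVc : Countable V := hV.to_subtype
  have h0 : Dense {y : E | ∃ r : ℝ, ∃ z ∈ MSimp f s T C V n, y = p + r • (z - p)}ᶜ := by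
    have hsub : {y : E | ∃ r : ℝ, ∃ z ∈ MSimp f s T C V n, y = p + r • (z - p)} ⊆
        ⋃ (i : Σ m : Fin n, (Fin (m : ℕ) → V) × V),
          (fun u : (Fin (i.1 : ℕ) → ℝ) × ℝ => p + u.2 •
            (mv f s T C (List.ofFn fun j => ((i.2.1 j : E), u.1 j)) (i.2.2 : E) 1 - p)) ''
            ({u | ∀ j, 0 < u j} ×ˢ univ) := by
      rintro y ⟨r, z, hz, rfl⟩
      have h1 := MSimp_subset V n hz
      rw [mem_iUnion] at h1 ⊢
      obtain ⟨i, u, hu, rfl⟩ := h1
      exact ⟨i, (u, r), ⟨hu, mem_univ _⟩, rfl⟩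
    apply dense_compl_of_dimH_lt_finrank
    refine (dimH_mono hsub).trans_lt ?_
    rw [dimH_iUnion]
    have hle : (⨆ (i : Σ m : Fin n, (Fin (m : ℕ) → V) × V),
        dimH ((fun u : (Fin (i.1 : ℕ) → ℝ) × ℝ => p + u.2 •
            (mv f s T C (List.ofFn fun j => ((i.2.1 j : E), u.1 j)) (i.2.2 : E) 1 - p)) ''
            ({u | ∀ j, 0 < u j} ×ˢ univ))) ≤ ((n : ℕ) : ENNReal) := by
      apply iSup_le
      intro i
      have hs : ContDiffOn ℝ 1 (fun u : (Fin (i.1 : ℕ) → ℝ) × ℝ => p + u.2 •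
            (mv f s T C (List.ofFn fun j => ((i.2.1 j : E), u.1 j)) (i.2.2 : E) 1 - p))
            ({u | ∀ j, 0 < u j} ×ˢ univ) := by
        refine contDiffOn_const.add (contDiff_snd.contDiffOn.smul (ContDiffOn.sub ?_
          contDiffOn_const))
        exact (contDiffOn_mv hC hs hT f (i.1 : ℕ) (fun j => (i.2.1 j : E)) (i.2.2 : E)).comp
          contDiff_fst.contDiffOn fun u hu => hu.1
      refine (hs.dimH_image_le ((convex_orthant _).prod convex_univ) Subset.rfl).trans ?_
      refine (dimH_mono (subset_univ _)).trans ?_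
      rw [Real.dimH_univ_eq_finrank, Module.finrank_prod, Module.finrank_fin_fun,
        Module.finrank_self]
      have h3 : (i.1 : ℕ) + 1 ≤ n := i.1.2
      exact_mod_cast h3
    refine hle.trans_lt ?_
    have h4 : n < finrank ℝ E := by omega
    exact_mod_cast h4
  refine h0.mono fun y hy => Set.disjoint_left.2 ?_
  rintro z ⟨a, b, ha, hb, hab, rfl⟩ hz
  rcases eq_or_lt_of_le hb with h0 | h0
  · have ha1 : a = 1 := by linarith
    rw [← h0, ha1, one_smul, zero_smul, add_zero] at hz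
    exact hp hz
  · apply hy
    refine ⟨b⁻¹, _, hz, ?_⟩
    have h1 : a • p + b • y - p = b • (y - p) := by
      have h2 : a = 1 - b := by linarith
      rw [h2, sub_smul, one_smul, smul_sub]
      abel
    rw [h1, smul_smul, inv_mul_cancel₀ h0.ne', one_smul, add_sub_cancel]

end Pool.Agent.Lib.MP_df705a_gt.Wide
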