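import Pool.Agent.Lib.MP_df705a_gt.Wide.A4

/-!
# No mixed cover of multiplicity `n` over a ball
-/

open scoped Topology ContDiff
open Set MeasureTheory Module Metric

noncomputable section

set_option linter.unusedSectionVars false

namespace Pool.Agent.Lib.MP_df705a_gt.Wide

open Pool.Agent.Lib.MP_df705a_gt.Pin

variable {E : Type*} [NormedAddCommGroup E] [InnerProductSpace ℝ E] [FiniteDimensional ℝ E]
  {F : Type*} [NormedAddCommGroup F] [NormedSpace ℝ F]
  {d : E → E → ℝ} {K : Set E} {G G' : E → E → E} {f s : E → F} {T : F → E → E}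

/-- The swelling of a mixed cover with control of the oscillation of `f`. -/
theorem mixed_swelling' (hd : IsD d) (hf : Continuous f) {J I : Type*} {V : J → Set E} {Y : Set E}
    {W : I → Set E} (hV : LocallyFinite V) (hVc : ∀ j, IsClosed (V j)) (hY : IsClosed Y) {n : ℕ}
    (hm : ∀ x, {j | x ∈ V j}.encard ≤ n) (hmY : ∀ x ∈ Y, {j | x ∈ V j}.encard + 1 ≤ n)
    (hW : ∀ i, IsOpen (W i)) (hWd : ∀ i i', i ≠ i' → Disjoint (W i) (W i'))
    (hYW : Y ⊆ ⋃ i, W i) {D : ℝ} (hD : ∀ j, ∀ x ∈ V j, ∀ y ∈ V j, d x y ≤ D)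
    (hosc : ∀ j, ∀ x ∈ V j, ∀ y ∈ V j, ‖f x - f y‖ ≤ 1 / 16) :
    ∃ (O : J → Set E) (lam : E → ℝ) (D' : ℝ), (∀ j, IsOpen (O j)) ∧ (∀ j, V j ⊆ O j) ∧
      Continuous lam ∧ (∀ x, 0 ≤ lam x) ∧ (∀ x, lam x ≤ 1) ∧ (∀ x ∈ Y, 0 < lam x) ∧
      closure {x | 0 < lam x} ⊆ ⋃ i, W i ∧
      (∀ x, {j | x ∈ O j}.encard ≤ n) ∧
      (∀ x ∈ closure {x | 0 < lam x}, {j | x ∈ O j}.encard + 1 ≤ n) ∧
      (∀ j, ∀ x ∈ O j, ∀ y ∈ O j, d x y ≤ D') ∧
      (∀ j, ∀ x ∈ O j, ∀ y ∈ O j, ‖f x - f y‖ ≤ 1 / 8) ∧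
      ∀ i, ∀ x ∈ W i, 0 < lam x → ∃ x' ∈ Y ∩ W i, d x' x ≤ 1 := by
  set D₁ := max D 2 with hD₁
  have hD₁2 : 2 ≤ D₁ := le_max_right _ _
  let d' : E → E → ℝ := fun x y => max (d x y) (16 * D₁ * ‖f x - f y‖)
  have hL : 0 ≤ 16 * D₁ := by linarith
  have hd' : IsD d' := by
    refine ⟨fun x => ?_, fun x y => ?_, fun x y z => ?_, ?_, fun x r => ?_⟩
    · show max (d x x) (16 * D₁ * ‖f x - f x‖) = 0
      rw [hd.self, sub_self, norm_zero, mul_zero, max_self]
    · show max (d x y) (16 * D₁ * ‖f x - f y‖) = max (d y x) (16 * D₁ * ‖f y - f x‖)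
      rw [hd.comm, norm_sub_rev]
    · show max (d x z) (16 * D₁ * ‖f x - f z‖) ≤
        max (d x y) (16 * D₁ * ‖f x - f y‖) + max (d y z) (16 * D₁ * ‖f y - f z‖)
      refine max_le ((hd.tri x y z).trans (add_le_add (le_max_left _ _) (le_max_left _ _))) ?_
      refine le_trans ?_ (add_le_add (le_max_right _ _) (le_max_right _ _))
      rw [← mul_add]
      refine mul_le_mul_of_nonneg_left ?_ hL
      have h1 : f x - f z = (f x - f y) + (f y - f z) := by abel
      rw [h1]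
      exact norm_add_le _ _
    · exact hd.cont.max (continuous_const.mul
        ((hf.comp continuous_fst).sub (hf.comp continuous_snd)).norm)
    · refine (hd.proper x r).of_isClosed_subset (isClosed_le ?_ continuous_const) fun y hy => by
        have h1 : max (d x y) (16 * D₁ * ‖f x - f y‖) ≤ r := hy
        exact (le_max_left _ _).trans h1
      exact (hd.cont.comp (Continuous.prodMk_right x)).max (continuous_const.mul
        (continuous_const.sub hf).norm)
  obtain ⟨O, lam, h1, h2, h3, h4, h5, h6, h7, h8, h9, h10⟩ := mixed_swelling hd' hV hVc hY hm hmY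
    hW hWd hYW (D := D₁) (fun j x hx y hy => max_le ((hD j x hx y hy).trans (le_max_left _ _)) (by
      have := hosc j x hx y hy
      nlinarith))
  have hpos : ∀ x, 0 < min (lam x) 1 ↔ 0 < lam x := fun x =>
    ⟨fun h => lt_of_lt_of_le h (min_le_left _ _), fun h => lt_min h one_pos⟩
  have hset : {x | 0 < min (lam x) 1} = {x | 0 < lam x} := by
    ext x
    exact hpos x
  refine ⟨O, fun x => min (lam x) 1, D₁ + 2, h1, h2, h3.min continuous_const,
    fun x => le_min (h4 x) zero_le_one, fun x => min_le_right _ _, fun x hx => (hpos x).2 (h5 x hx),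
    by rw [hset]; exact h6, h7, by rw [hset]; exact h8,
    fun j x hx y hy => (le_max_left _ _).trans (h9 j x hx y hy), fun j x hx y hy => ?_,
    fun i x hx hlx => ?_⟩
  · have a1 : 16 * D₁ * ‖f x - f y‖ ≤ D₁ + 2 := (le_max_right _ _).trans (h9 j x hx y hy)
    by_contra hcon
    push Not at hcon
    have a2 : 16 * D₁ * (1 / 8) < 16 * D₁ * ‖f x - f y‖ :=
      mul_lt_mul_of_pos_left hcon (by linarith)
    linarith
  · obtain ⟨x', hx', hxx'⟩ := h10 i x hx ((hpos x).1 hlx)
    exact ⟨x', hx', (le_max_left _ _).trans hxx'⟩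

/-- **No mixed cover of multiplicity `n` over a ball.** Let `E` be the covering of the product of a
compact space with `F`, let `s` be the projection to `F`, `T` the lifted translations, and let `f` be
at bounded distance from `s`. Let the set where `‖f‖ ≤ 1 / 2` be covered by closed sets `V j` of
bounded diameter, on which `f` varies by at most `1 / 16`, and by a closed set `Y` which is contained
in the disjoint union of open sets `W i`, such that at most `n = dim E` of the sets `V j` contain a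
given point, and at most `n - 1` of them a given point of `Y`. Then for some `i` the set `Y ∩ W i` is
coarsely dense in the zero set of `s`. -/
theorem no_mixed_ball_cover [Nontrivial E] (hd : IsD d) (hG : CoCpt d K G G')
    (hs : ContDiff ℝ 1 s) (hsd : ∀ x y, ‖s x - s y‖ ≤ d x y)
    (hT : ContDiff ℝ 1 fun p : F × E => T p.1 p.2) (hT0 : ∀ y, T 0 y = y)
    (hTs : ∀ a y, s (T a y) = s y + a) (hTd : ∀ a y, d y (T a y) ≤ ‖a‖)
    (hf : Continuous f) {c : ℝ} (hfs : ∀ x, ‖f x - s x‖ ≤ c) {J I : Type*} [Countable J]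
    {V : J → Set E} {Y : Set E} {W : I → Set E} (hV : LocallyFinite V)
    (hVc : ∀ j, IsClosed (V j)) (hY : IsClosed Y)
    (hcov : ∀ x, ‖f x‖ ≤ 1 / 2 → x ∉ Y → ∃ j, x ∈ V j)
    (hm : ∀ x, {j | x ∈ V j}.encard ≤ finrank ℝ E)
    (hmY : ∀ x ∈ Y, {j | x ∈ V j}.encard + 1 ≤ finrank ℝ E) (hW : ∀ i, IsOpen (W i))
    (hWd : ∀ i i', i ≠ i' → Disjoint (W i) (W i')) (hYW : Y ⊆ ⋃ i, W i)
    {D : ℝ} (hD : ∀ j, ∀ x ∈ V j, ∀ y ∈ V j, d x y ≤ D)
    (hosc : ∀ j, ∀ x ∈ V j, ∀ y ∈ V j, ‖f x - f y‖ ≤ 1 / 16)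
    (hsp : ∀ i, ∀ R : ℝ, ∃ y, s y = 0 ∧ ∀ x ∈ Y ∩ W i, R < d y x) : False := by
  classical
  have hC := hG.isCone
  have hn1 : 1 ≤ finrank ℝ E := finrank_pos
  set n := finrank ℝ E with hn
  obtain ⟨O, lamY, D', hO, hVO, hYc, hY0, hY1, hYY, hYW', hmO, hmOl, hDO, hoscO, hlP⟩ :=
    mixed_swelling' hd hf hV hVc hY hm hmY hW hWd hYW hD hosc
  obtain ⟨R, hR⟩ := exists_displacement hd hG D' n
  have hsc : Continuous s := hs.continuous
  have hTc : Continuous fun p : F × E => T p.1 p.2 := hT.continuous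
  let v : J → E := fun j => if h : (O j).Nonempty then h.some else 0
  have hv : ∀ j x, x ∈ O j → v j ∈ O j := by
    intro j x hx
    have h1 : (O j).Nonempty := ⟨x, hx⟩
    change (if h : (O j).Nonempty then h.some else 0) ∈ O j
    rw [dif_pos h1]
    exact h1.some_mem
  -- the center
  set y₀ := T (- s 0) 0 with hy₀
  have hsy₀ : s y₀ = 0 := by rw [hy₀, hTs]; abel
  obtain ⟨p, hps, hp⟩ := (dense_compl_MSimp hC hs hT f (le_refl (finrank ℝ E))
    (V := range v) (countable_range v)).inter_open_nonempty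
    {y | ‖s y‖ < 1 / 8} (isOpen_lt hsc.norm continuous_const)
    ⟨y₀, by
      show ‖s y₀‖ < 1 / 8
      rw [hsy₀, norm_zero]; norm_num⟩
  rw [← hn] at hp
  have hps' : ‖s p‖ < 1 / 8 := hps
  set R' := R + (1 + c + R) with hR'
  -- the finitely many pieces near the center
  obtain ⟨Φ, hΦ⟩ : ∃ Φ : Finset I, closure {x | 0 < lamY x} ∩ {x | d p x ≤ R'} ⊆
      ⋃ i ∈ Φ, W i := by
    have hK0 : IsCompact (closure {x | 0 < lamY x} ∩ {x | d p x ≤ R'}) :=
      (hd.proper p R').inter_left isClosed_closure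
    exact hK0.elim_finite_subcover W hW (inter_subset_left.trans hYW')
  -- the chains
  set U : Set E := {y | ‖s y‖ < 1 / 8} with hU
  have hUo : IsOpen U := isOpen_lt hsc.norm continuous_const
  have hUc : IsPreconnected U := isPreconnected_lt hsc hTc hT0 hTs (by norm_num)
  set S' := MSimp f s T (cone G G') (range v) (n - 1) with hS'
  have hpS' : p ∉ S' := by
    rintro ⟨L, w, t, h1, h2⟩
    exact hp ⟨L, w, t, by omega, h2⟩
  have hchain : ∀ i, ∃ (y : E) (Z : Set E), Chain (U \ S') p y Z ∧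
      ∀ x ∈ W i, 0 < lamY x → R' < d y x := by
    intro i
    obtain ⟨y', hsy', hy'⟩ := hsp i (R' + 2)
    have hyc : Continuous fun y => d y' y := hd.cont.comp (Continuous.prodMk_right y')
    obtain ⟨y, Z, hyO, hZ⟩ := exists_chain hUo hUc
      (fun p hp => dense_segment hC hs hT f (n := n - 1) (by omega) (countable_range v) hp)
      hps' hpS' (y := y') (by
        show ‖s y'‖ < 1 / 8
        rw [hsy', norm_zero]; norm_num) (O := {y | d y' y < 1}) (isOpen_lt hyc continuous_const) (by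
        show d y' y' < 1
        rw [hd.self]
        exact one_pos)
    refine ⟨y, Z, hZ, fun x hx hlx => ?_⟩
    obtain ⟨x', hx', hxx'⟩ := hlP i x hx hlx
    have h1 := hy' x' hx'
    have h2 := hd.tri y' y x'
    have h3 := hd.tri y x x'
    have h4 := hd.comm x x'
    have h5 : d y' y < 1 := hyO
    linarith
  choose y Z hZ hyf using hchain
  -- the radius
  obtain ⟨ρ₁, hρ1, hρa, hρb⟩ : ∃ ρ₁ : ℝ, 1 ≤ ρ₁ ∧
      (∀ z, (z = p ∨ ∃ i ∈ Φ, z ∈ Z i) → ‖z - p‖ ≤ ρ₁) ∧
      ∀ z, (z = p ∨ ∃ i ∈ Φ, z ∈ Z i) → ∀ x, d z x ≤ R' → ‖x - p‖ ≤ ρ₁ := by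
    have hZc : IsCompact ({p} ∪ ⋃ i ∈ Φ, Z i) :=
      isCompact_singleton.union (Φ.isCompact_biUnion fun i _ => (hZ i).isCompact)
    have hdc : Continuous fun y => d p y := hd.cont.comp (Continuous.prodMk_right p)
    obtain ⟨M', hM'⟩ := hZc.exists_bound_of_continuousOn hdc.continuousOn
    obtain ⟨ρ₀, hρ₀⟩ := (hd.proper p (M' + max R' 0)).isBounded.subset_closedBall p
    have hmem : ∀ z, (z = p ∨ ∃ i ∈ Φ, z ∈ Z i) → d p z ≤ M' := by
      intro z hz
      have h1 := hM' z (by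
        rcases hz with hz | ⟨i, hi, hz⟩
        · exact Or.inl hz
        · exact Or.inr (mem_biUnion hi hz))
      rw [Real.norm_eq_abs] at h1
      exact (le_abs_self _).trans h1
    have hball : ∀ x, d p x ≤ M' + max R' 0 → ‖x - p‖ ≤ max ρ₀ 1 := by
      intro x hx
      have h2 : x ∈ closedBall p ρ₀ := hρ₀ hx
      rw [mem_closedBall, dist_eq_norm] at h2
      exact h2.trans (le_max_left _ _)
    refine ⟨max ρ₀ 1, le_max_right _ _, fun z hz => hball z ?_, fun z hz x hx => hball x ?_⟩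
    · have h1 := hmem z hz
      linarith [le_max_right R' 0]
    · have h1 := hmem z hz
      have h3 := hd.tri p z x
      linarith [le_max_left R' 0]
  have hρp : ∀ x, d p x ≤ R' → ‖x - p‖ ≤ ρ₁ := hρb p (Or.inl rfl)
  set ρ₂ := ρ₁ + 3 with hρ₂
  set B := closedBall p ρ₂ with hB
  obtain ⟨S, hS⟩ : ∃ S : Finset J, B ∩ ({x | ‖f x‖ ≤ 1 / 2} ∩ {x | 0 < lamY x}ᶜ) ⊆
      ⋃ j ∈ S, O j := by
    have hK0 : IsCompact (B ∩ ({x | ‖f x‖ ≤ 1 / 2} ∩ {x | 0 < lamY x}ᶜ)) :=
      (isCompact_closedBall p ρ₂).inter_right ((isClosed_le hf.norm continuous_const).inter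
        (isOpen_lt continuous_const hYc).isClosed_compl)
    refine hK0.elim_finite_subcover O hO ?_
    rintro x ⟨_, hx1, hx2⟩
    obtain ⟨j, hj⟩ := hcov x hx1 fun hxY => hx2 (hYY x hxY)
    exact mem_iUnion.2 ⟨j, hVO j hj⟩
  let φ : J → E → ℝ := fun j => T6_g (O j)
  have hφc : ∀ j, Continuous (φ j) := fun j => T6_g_cont _
  have hφ0 : ∀ j x, 0 ≤ φ j x := fun j x => T6_g_nonneg _ _
  have hφm : ∀ j x, φ j x ≠ 0 → x ∈ O j := fun j x h => T6_g_mem _ _ h
  have hφs : ∀ x, 0 ≤ ∑ j ∈ S, φ j x := fun x => Finset.sum_nonneg fun j _ => hφ0 j x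
  have hφp : ∀ x ∈ B, ‖f x‖ ≤ 1 / 2 → lamY x = 0 → 0 < ∑ j ∈ S, φ j x := by
    intro x hx hfx hlx
    obtain ⟨j, hj, hxj⟩ := mem_iUnion₂.1 (hS ⟨hx, hfx, by
      show ¬ 0 < lamY x
      rw [hlx]
      exact lt_irrefl _⟩)
    exact Finset.sum_pos' (fun j _ => hφ0 j x) ⟨j, hj, T6_g_pos (hO j) hxj⟩
  -- the cut off functions
  let θ : E → ℝ := fun x => max 0 (min 1 (‖x - p‖ - (ρ₂ - 2)))
  let ν : E → ℝ := fun x => max 0 (min 1 (‖x - p‖ - (ρ₂ - 1)))
  let lamf : E → ℝ := fun x => max 0 (min 1 (8 * (‖f x‖ - 3 / 8)))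
  let lam : E → ℝ := fun x => lamf x + (1 - lamf x) * lamY x
  let μ : E → ℝ := fun x => θ x + (1 - θ x) * lam x
  have hθc : Continuous θ := by
    change Continuous fun x => max 0 (min 1 (‖x - p‖ - (ρ₂ - 2)))
    fun_prop
  have hνc : Continuous ν := by
    change Continuous fun x => max 0 (min 1 (‖x - p‖ - (ρ₂ - 1)))
    fun_prop
  have hlfc : Continuous lamf := by
    change Continuous fun x => max 0 (min 1 (8 * (‖f x‖ - 3 / 8)))
    have := hf.norm
    fun_prop
  have hlc : Continuous lam := hlfc.add ((continuous_const.sub hlfc).mul hYc)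
  have hμc : Continuous μ := hθc.add ((continuous_const.sub hθc).mul hlc)
  have h01 : ∀ r : ℝ, 0 ≤ max 0 (min 1 r) ∧ max 0 (min 1 r) ≤ 1 := fun r =>
    ⟨le_max_left _ _, max_le zero_le_one (min_le_left _ _)⟩
  have hcomb : ∀ a b : ℝ, 0 ≤ a → a ≤ 1 → 0 ≤ b → b ≤ 1 → 0 ≤ a + (1 - a) * b ∧
      a + (1 - a) * b ≤ 1 := by
    intro a b h1 h2 h3 h4
    have h5 := mul_nonneg (show 0 ≤ 1 - a by linarith) h3
    have h6 := mul_le_mul_of_nonneg_left h4 (show 0 ≤ 1 - a by linarith)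
    constructor <;> linarith
  have hθ0 : ∀ x, 0 ≤ θ x := fun x => (h01 _).1
  have hθ1 : ∀ x, θ x ≤ 1 := fun x => (h01 _).2
  have hlf0 : ∀ x, 0 ≤ lamf x := fun x => (h01 _).1
  have hlf1 : ∀ x, lamf x ≤ 1 := fun x => (h01 _).2
  have hl0 : ∀ x, 0 ≤ lam x := fun x => (hcomb _ _ (hlf0 x) (hlf1 x) (hY0 x) (hY1 x)).1
  have hl1 : ∀ x, lam x ≤ 1 := fun x => (hcomb _ _ (hlf0 x) (hlf1 x) (hY0 x) (hY1 x)).2
  have hμ0 : ∀ x, 0 ≤ μ x := fun x => (hcomb _ _ (hθ0 x) (hθ1 x) (hl0 x) (hl1 x)).1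
  have hμ1 : ∀ x, μ x ≤ 1 := fun x => (hcomb _ _ (hθ0 x) (hθ1 x) (hl0 x) (hl1 x)).2
  have hpos_of : ∀ r : ℝ, 0 < max 0 (min 1 r) → 0 < r := by
    intro r h0
    by_contra hcon
    push Not at hcon
    have h2 : max 0 (min 1 r) = 0 := max_eq_left ((min_le_right _ _).trans hcon)
    rw [h2] at h0
    exact lt_irrefl _ h0
  have hone : ∀ r : ℝ, 1 ≤ r → max 0 (min 1 r) = 1 := by
    intro r hr
    rw [min_eq_left hr]
    exact max_eq_right zero_le_one
  have hθpos : ∀ x, 0 < θ x → ρ₁ < ‖x - p‖ := by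
    intro x h0
    have h1 := hpos_of _ h0
    linarith
  have hνθ : ∀ x, 0 < ν x → θ x = 1 := by
    intro x h0
    have h1 := hpos_of _ h0
    exact hone _ (by linarith)
  have hμz : ∀ x, μ x = 0 → θ x = 0 ∧ lamf x = 0 ∧ lamY x = 0 := by
    intro x hx
    have h1 : θ x + (1 - θ x) * lam x = 0 := hx
    have h2 := mul_nonneg (show 0 ≤ 1 - θ x by linarith [hθ1 x]) (hl0 x)
    have h3 : θ x = 0 := by linarith [hθ0 x]
    rw [h3] at h1
    have h4 : lamf x + (1 - lamf x) * lamY x = 0 := by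
      change 0 + (1 - 0) * (lamf x + (1 - lamf x) * lamY x) = 0 at h1
      linarith
    have h5 := mul_nonneg (show 0 ≤ 1 - lamf x by linarith [hlf1 x]) (hY0 x)
    have h6 : lamf x = 0 := by linarith [hlf0 x]
    rw [h6] at h4
    exact ⟨h3, h6, by linarith⟩
  have hμz' : ∀ x, θ x = 0 → lamf x = 0 → lamY x = 0 → μ x = 0 := by
    intro x h1 h2 h3
    change θ x + (1 - θ x) * (lamf x + (1 - lamf x) * lamY x) = 0
    rw [h1, h2, h3]; ring
  have htot : ∀ x ∈ B, 0 < (1 - μ x) * (∑ j ∈ S, φ j x) + μ x := by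
    intro x hx
    have h1 := hφs x
    have h2 : 0 ≤ (1 - μ x) * (∑ j ∈ S, φ j x) := mul_nonneg (by linarith [hμ1 x]) h1
    rcases (hμ0 x).eq_or_lt with h | h
    · obtain ⟨-, h4, h5⟩ := hμz x h.symm
      rw [← h, sub_zero, one_mul, add_zero]
      apply hφp x hx _ h5
      by_contra hcon
      push Not at hcon
      have h3 : lamf x = 1 := hone _ (by linarith)
      rw [h3] at h4
      exact one_ne_zero h4
    · linarith
  -- the list
  let Ls : E → List (E × ℝ) := fun x => S.toList.map fun j => (v j, (1 - μ x) * φ j x)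
  have hLsum : ∀ x, ((Ls x).map Prod.snd).sum = (1 - μ x) * ∑ j ∈ S, φ j x := by
    intro x
    change ((S.toList.map fun j => (v j, (1 - μ x) * φ j x)).map Prod.snd).sum = _
    rw [List.map_map, Finset.mul_sum]
    exact Finset.sum_map_toList S _
  have hLw : ∀ x, ((Ls x).map fun q => q.2 • f q.1).sum =
      ∑ j ∈ S, ((1 - μ x) * φ j x) • f (v j) := by
    intro x
    change ((S.toList.map fun j => (v j, (1 - μ x) * φ j x)).map fun q => q.2 • f q.1).sum = _
    rw [List.map_map]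
    exact Finset.sum_map_toList S _
  have hL0 : ∀ x, ∀ q ∈ Ls x, 0 ≤ q.2 ∧ q.1 ∈ range v := by
    intro x q hq
    obtain ⟨j, _, rfl⟩ := List.mem_map.1 hq
    exact ⟨mul_nonneg (by linarith [hμ1 x]) (hφ0 j x), mem_range_self j⟩
  have hLa : ∀ x, ∀ q ∈ Ls x, q.2 ≠ 0 → d x q.1 ≤ D' ∧ ‖f q.1 - f x‖ ≤ 1 / 8 := by
    intro x q hq hq2
    obtain ⟨j, _, rfl⟩ := List.mem_map.1 hq
    have h4 : φ j x ≠ 0 := right_ne_zero_of_mul hq2
    have h5 := hφm j x h4
    exact ⟨hDO j x h5 (v j) (hv j x h5), hoscO j (v j) (hv j x h5) x h5⟩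
  have hLl : ∀ x (m : ℕ), {j | x ∈ O j}.encard ≤ m →
      ((Ls x).filter fun p => decide (p.2 ≠ 0)).length ≤ m := fun x m hm =>
    T9_length S hm v _ (fun j _ h => hφm j x (right_ne_zero_of_mul h))
  -- the maps
  let H₁ : E → E := fun x => Psi (cone G G') (Ls x) x (μ x)
  let σ : E → F := fun x => avg f (Ls x) x (μ x)
  let H : E → E := fun x => T ((1 - ν x) • (σ x - s (H₁ x))) (H₁ x)
  have hH₁c : ContinuousOn H₁ B := by
    intro x hx
    refine continuousWithinAt_Psi hC v S.toList (fun j x => (1 - μ x) * φ j x) (fun x => x)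
      μ B ?_ ?_ continuousOn_id hμc.continuousOn (fun x _ => hμ0 x) x hx ?_
    · intro j _
      exact ((continuous_const.sub hμc).mul (hφc j)).continuousOn
    · intro j _ x _
      exact mul_nonneg (by linarith [hμ1 x]) (hφ0 j x)
    · have h1 : (S.toList.map fun j => (1 - μ x) * φ j x).sum = (1 - μ x) * ∑ j ∈ S, φ j x := by
        rw [Finset.mul_sum]
        exact Finset.sum_map_toList S _
      rw [h1]
      exact htot x hx
  have hσc : ContinuousOn σ B := by
    have h1 : σ = fun x => ((1 - μ x) * (∑ j ∈ S, φ j x) + μ x)⁻¹ •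
        ((∑ j ∈ S, ((1 - μ x) * φ j x) • f (v j)) + μ x • f x) := by
      funext x
      change avg f (Ls x) x (μ x) = _
      unfold avg
      rw [hLsum, hLw]
    rw [h1]
    refine ContinuousOn.smul (ContinuousOn.inv₀ ?_ fun x hx => (htot x hx).ne') ?_
    · exact (((continuous_const.sub hμc).mul (continuous_finsetSum _ fun j _ => hφc j)).add
        hμc).continuousOn
    · exact ((continuous_finsetSum _ fun j _ => ((continuous_const.sub hμc).mul (hφc j)).smul
        continuous_const).add (hμc.smul hf)).continuousOn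
  have hHc : ContinuousOn H B := by
    change ContinuousOn (fun x => T ((1 - ν x) • (σ x - s (H₁ x))) (H₁ x)) B
    have h1 : ContinuousOn (fun x => ((1 - ν x) • (σ x - s (H₁ x)), H₁ x)) B :=
      (((continuous_const.sub hνc).continuousOn).smul (hσc.sub (hsc.comp_continuousOn hH₁c))).prodMk
        hH₁c
    exact hTc.comp_continuousOn h1
  have hid : ∀ x, ‖x - p‖ = ρ₂ → H x = x := by
    intro x hx
    have h1 : ν x = 1 := hone _ (by linarith)
    have h2 : θ x = 1 := hone _ (by linarith)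
    have h3 : μ x = 1 := by
      change θ x + (1 - θ x) * lam x = 1
      rw [h2]; ring
    have h4 : H₁ x = x := by
      change Psi (cone G G') (Ls x) x (μ x) = x
      apply Psi_of_zero hC
      intro q hq
      obtain ⟨j, _, rfl⟩ := List.mem_map.1 hq
      simp only
      rw [h3, sub_self, zero_mul]
    change T ((1 - ν x) • (σ x - s (H₁ x))) (H₁ x) = x
    rw [h1, sub_self, zero_smul, hT0, h4]
  have hdH₁ : ∀ x, d x (H₁ x) ≤ R := by
    intro x
    exact hR x (Ls x) (μ x) (hμ0 x) (fun q hq => (hL0 x q hq).1)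
      (fun q hq hq2 => (hLa x q hq hq2).1) (hLl x n (hmO x))
  have hσf : ∀ x ∈ B, ‖σ x - f x‖ ≤ 1 / 8 := by
    intro x hx
    refine norm_avg_sub_le f (Ls x) x (f x) (hμ0 x) (fun q hq => (hL0 x q hq).1) ?_
      (fun q hq hq2 => (hLa x q hq hq2).2) (fun _ => by rw [sub_self, norm_zero]; norm_num)
    rw [hLsum]
    exact htot x hx
  have hν01 : ∀ x, 0 ≤ 1 - ν x ∧ 1 - ν x ≤ 1 := fun x => by
    have h1 : 0 ≤ ν x ∧ ν x ≤ 1 := h01 _
    constructor <;> linarith [h1.1, h1.2]
  have hdH : ∀ x ∈ B, d x (H x) ≤ R' := by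
    intro x hx
    have h1 := hdH₁ x
    have h2 : ‖σ x - s (H₁ x)‖ ≤ 1 + c + R := by
      have a1 : σ x - s (H₁ x) = (σ x - f x) + (f x - s x) + (s x - s (H₁ x)) := by abel
      rw [a1]
      have a2 := norm_add_le ((σ x - f x) + (f x - s x)) (s x - s (H₁ x))
      have a3 := norm_add_le (σ x - f x) (f x - s x)
      have a4 := hσf x hx
      have a5 := hfs x
      have a6 := hsd x (H₁ x)
      linarith
    have h3 := hd.tri x (H₁ x) (H x)
    have h4 : d (H₁ x) (H x) ≤ ‖(1 - ν x) • (σ x - s (H₁ x))‖ := hTd _ _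
    rw [norm_smul, Real.norm_eq_abs, abs_of_nonneg (hν01 x).1] at h4
    have h5 : (1 - ν x) * ‖σ x - s (H₁ x)‖ ≤ 1 * ‖σ x - s (H₁ x)‖ :=
      mul_le_mul_of_nonneg_right (hν01 x).2 (norm_nonneg _)
    rw [hR']
    linarith
  -- the behaviour at the points which are mapped into `U` or near to the chains
  have hν_of : ∀ x, θ x = 0 → ν x = 0 := by
    intro x hθz
    have h1 : 0 ≤ ν x := (h01 _).1
    rcases h1.eq_or_lt with h | h
    · exact h.symm
    · have h2 := hνθ x h
      rw [hθz] at h2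
      exact absurd h2 zero_ne_one
  have hHS : ∀ x ∈ B, θ x = 0 → ‖s (H x)‖ < 1 / 8 → lamY x = 0 → ∀ m : ℕ,
      {j | x ∈ O j}.encard ≤ m → H x ∈ MSimp f s T (cone G G') (range v) m := by
    intro x hx hθz hsx hlx m hm
    have hνz := hν_of x hθz
    have hHx : H x = T (σ x - s (H₁ x)) (H₁ x) := by
      change T ((1 - ν x) • (σ x - s (H₁ x))) (H₁ x) = _
      rw [hνz, sub_zero, one_smul]
    have hσp : σ x = s (H x) := by
      rw [hHx, hTs]
      abel
    have hfx : ‖f x‖ < 3 / 8 := by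
      have h1 := hσf x hx
      rw [hσp] at h1
      have h2 : f x = s (H x) - (s (H x) - f x) := by abel
      rw [h2]
      have h3 := norm_sub_le (s (H x)) (s (H x) - f x)
      linarith
    have hlz : lamf x = 0 := by
      rcases (hlf0 x).eq_or_lt with h | h
      · exact h.symm
      · have h1 := hpos_of _ h
        linarith
    have hμx := hμz' x hθz hlz hlx
    have h1 : H x = mv f s T (cone G G') (Ls x) x 0 := by
      rw [hHx]
      change T (avg f (Ls x) x (μ x) - s (Psi (cone G G') (Ls x) x (μ x)))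
        (Psi (cone G G') (Ls x) x (μ x)) = _
      rw [hμx]
      rfl
    rw [h1]
    refine mem_MSimp hC f s T (Ls x) (hL0 x) ?_ (hLl x m hm) x
    have h2 := htot x hx
    rw [hLsum]
    rw [hμx] at h2 ⊢
    linarith
  -- the pieces
  let P : I → Set E := fun i => {x | 0 < lamY x} ∩ W i
  have hPo : ∀ i, IsOpen (P i) := fun i => (isOpen_lt continuous_const hYc).inter (hW i)
  let A : I → Set E := fun i => H '' (B ∩ frontier (P i)) ∪ sphere p ρ₂
  have hAc : ∀ i, IsClosed (A i) := by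
    intro i
    refine IsClosed.union ?_ isClosed_sphere
    exact (((isCompact_closedBall p ρ₂).inter_right isClosed_frontier).image_of_continuousOn
      (hHc.mono inter_subset_left)).isClosed
  have hdis : ∀ i ∈ Φ, Disjoint (Z i) (A i) := by
    intro i hi
    rw [Set.disjoint_left]
    rintro z hz (⟨x, ⟨hx1, hx2⟩, rfl⟩ | hz2)
    · have hzU := (hZ i).subset hz
      have hx3 : x ∈ closure (P i) := hx2.1
      have hx4 : x ∉ P i := by
        intro hx4
        have := hx2.2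
        rw [(hPo i).interior_eq] at this
        exact this hx4
      have hx5 : x ∈ closure {x | 0 < lamY x} := closure_mono inter_subset_left hx3
      obtain ⟨k, hk⟩ := mem_iUnion.1 (hYW' hx5)
      have hki : k = i := by
        obtain ⟨w, hw1, hw2⟩ := mem_closure_iff.1 hx3 (W k) (hW k) hk
        by_contra hne
        exact (hWd k i hne).le_bot ⟨hw1, hw2.2⟩
      subst hki
      have hlx : lamY x = 0 := by
        rcases (hY0 x).eq_or_lt with h | h
        · exact h.symm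
        · exact absurd ⟨h, hk⟩ hx4
      rcases (hθ0 x).eq_or_lt with h0 | h0
      · apply hzU.2
        refine hHS x hx1 h0.symm hzU.1 hlx (n - 1) ?_
        have h1 := hmOl x hx5
        have h2 : ((n - 1 : ℕ) : ℕ∞) + 1 = (n : ℕ∞) := by
          have h3 : n - 1 + 1 = n := by omega
          exact_mod_cast h3
        rw [← h2] at h1
        exact (ENat.add_le_add_iff_right (by simp)).1 h1
      · have h1 := hdH x hx1
        rw [hd.comm] at h1
        have h2 := hρb _ (Or.inr ⟨k, hi, hz⟩) x h1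
        have h3 := hθpos x h0
        linarith
    · have h1 := hρa z (Or.inr ⟨i, hi, hz⟩)
      rw [mem_sphere, dist_eq_norm] at hz2
      linarith
  have hpush : ∀ i, ∃ ψ : E → E, Continuous ψ ∧ (i ∈ Φ → (∀ x ∈ A i, ψ x = x) ∧
      ∀ x, ψ x = p → x = y i) := by
    intro i
    by_cases hi : i ∈ Φ
    · obtain ⟨ψ, h1, h2, h3⟩ := (hZ i).exists_push (hAc i) (hdis i hi)
      exact ⟨ψ, h1, fun _ => ⟨h2, h3⟩⟩
    · exact ⟨fun x => x, continuous_id, fun h => absurd h hi⟩
  choose ψ hψc hψ using hpush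
  let H' : E → E := fun x => H x + ∑ i ∈ Φ, (if x ∈ P i then ψ i (H x) - H x else 0)
  have hHc' : ContinuousOn H' B := by
    refine hHc.add (continuousOn_finsetSum _ fun i hi => ?_)
    refine ContinuousOn.if (p := fun x => x ∈ P i) ?_ ?_ continuousOn_const
    · rintro x ⟨hx1, hx2⟩
      have h1 := (hψ i hi).1 _ (Or.inl ⟨x, ⟨hx1, hx2⟩, rfl⟩)
      show ψ i (H x) - H x = 0
      rw [h1, sub_self]
    · exact ((hψc i).comp_continuousOn (hHc.mono inter_subset_left)).sub
        (hHc.mono inter_subset_left)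
  have hHid' : ∀ x, ‖x - p‖ = ρ₂ → H' x = x := by
    intro x hx
    change H x + ∑ i ∈ Φ, (if x ∈ P i then ψ i (H x) - H x else 0) = x
    rw [hid x hx]
    rw [Finset.sum_eq_zero, add_zero]
    intro i hi
    have h1 : ψ i x = x := (hψ i hi).1 x (Or.inr (by rw [mem_sphere, dist_eq_norm]; exact hx))
    rw [h1, sub_self]
    simp
  obtain ⟨x, hx, hxp⟩ := exists_eq_center (by linarith : 0 < ρ₂) hHc' hHid'
  have hxp' : H x + ∑ i ∈ Φ, (if x ∈ P i then ψ i (H x) - H x else 0) = p := hxp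
  by_cases hcase : ∃ i ∈ Φ, x ∈ P i
  · obtain ⟨i, hi, hxi⟩ := hcase
    have h1 : ∑ k ∈ Φ, (if x ∈ P k then ψ k (H x) - H x else 0) = ψ i (H x) - H x := by
      rw [Finset.sum_eq_single i]
      · rw [if_pos hxi]
      · intro k _ hk
        rw [if_neg]
        intro hxk
        exact (hWd k i hk).le_bot ⟨hxk.2, hxi.2⟩
      · intro h
        exact absurd hi h
    rw [h1, add_sub_cancel] at hxp'
    have h2 : H x = y i := (hψ i hi).2 _ hxp'
    have h3 := hdH x hx
    rw [h2, hd.comm] at h3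
    have h4 := hyf i x hxi.2 hxi.1
    linarith
  · push Not at hcase
    have h1 : ∑ k ∈ Φ, (if x ∈ P k then ψ k (H x) - H x else 0) = 0 :=
      Finset.sum_eq_zero fun k hk => if_neg (hcase k hk)
    rw [h1, add_zero] at hxp'
    have hdx : d p x ≤ R' := by
      have h2 := hdH x hx
      rwa [hxp', hd.comm] at h2
    have hθz : θ x = 0 := by
      rcases (hθ0 x).eq_or_lt with h | h
      · exact h.symm
      · have h2 := hθpos x h
        have h3 := hρp x hdx
        linarith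
    rcases (hY0 x).eq_or_lt with hlx | hlx
    · apply hp
      have h2 := hHS x hx hθz (by rw [hxp']; exact hps') hlx.symm n (hmO x)
      rwa [hxp'] at h2
    · have h6 : x ∈ closure {x | 0 < lamY x} ∩ {x | d p x ≤ R'} := ⟨subset_closure hlx, hdx⟩
      obtain ⟨i, hi, hxi⟩ := mem_iUnion₂.1 (hΦ h6)
      exact hcase i hi ⟨hlx, hxi⟩

end Pool.Agent.Lib.MP_df705a_gt.Wide
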