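import Pool.Agent.Lib.MP_df705a_gt.Mg.G060

/-!
# Metrics defined by fields of bilinear forms
-/

open scoped Manifold ContDiff Topology
open Set Bundle Module Filter MeasureTheory

noncomputable section

set_option linter.unusedSectionVars false

namespace Pool.Agent.Lib.MP_df705a_gt.Wide

open Pool.Agent.Lib.MP_df705a_gt.Pin

variable {E : Type*} [NormedAddCommGroup E] [NormedSpace ℝ E] [FiniteDimensional ℝ E]

/-- The coefficients of a field of bilinear forms. -/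
def ofB (β : E → E →L[ℝ] E →L[ℝ] ℝ) : Curv.Coeff E := fun y i j =>
  β y (finBasis ℝ E i) (finBasis ℝ E j)

theorem ip_ofB (β : E → E →L[ℝ] E →L[ℝ] ℝ) (y u v : E) : Curv.ip (ofB β) y u v = β y u v := by
  unfold Curv.ip ofB
  have h1 : β y u v = ∑ i, ∑ j, β y (finBasis ℝ E i) (finBasis ℝ E j) *
      ((finBasis ℝ E).repr u i * (finBasis ℝ E).repr v j) := by
    conv_lhs => rw [← (finBasis ℝ E).sum_repr u]
    rw [map_sum, _root_.sum_apply]
    refine Finset.sum_congr rfl fun i _ => ?_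
    conv_lhs => rw [← (finBasis ℝ E).sum_repr v]
    rw [map_sum]
    refine Finset.sum_congr rfl fun j _ => ?_
    rw [map_smul, map_smul, _root_.smul_apply, smul_eq_mul, smul_eq_mul]
    ring
  rw [h1]

theorem isMetric_ofB {β : E → E →L[ℝ] E →L[ℝ] ℝ} (hβ : ∀ u v, ContDiff ℝ ∞ fun y => β y u v)
    (hs : ∀ y u v, β y u v = β y v u) (hp : ∀ y u, u ≠ 0 → 0 < β y u u) :
    Curv.IsMetric (ofB β) := by
  refine ⟨fun i j => hβ _ _, fun y => ?_⟩
  rw [Matrix.posDef_iff_dotProduct_mulVec]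
  refine ⟨?_, ?_⟩
  · ext i j
    rw [Matrix.conjTranspose_apply, star_trivial]
    exact hs _ _ _
  · intro c hc
    have h1 : (∑ i, c i • finBasis ℝ E i) ≠ 0 := by
      intro h0
      apply hc
      ext i
      have := congrArg (fun v => (finBasis ℝ E).repr v i) h0
      simpa [Finsupp.single_apply] using this
    have h3 := hp y _ h1
    rw [← ip_ofB] at h3
    refine h3.trans_eq ?_
    unfold Curv.ip
    rw [star_trivial, dotProduct]
    apply Finset.sum_congr rfl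
    intro i _
    rw [Matrix.mulVec, dotProduct, Finset.mul_sum]
    apply Finset.sum_congr rfl
    intro j _
    rw [Basis.repr_sum_self]
    ring

/-- Comparison of two metrics on a compact set. -/
theorem exists_comparison {h h₀ : Curv.Coeff E} (hh : Curv.IsMetric h) (hh₀ : Curv.IsMetric h₀)
    {K : Set E} (hK : IsCompact K) : ∃ c : ℝ, 0 < c ∧ ∀ y ∈ K, ∀ v,
      c * Curv.ip h₀ y v v ≤ Curv.ip h y v v := by
  obtain ⟨a, b, ha, hb, hab⟩ := A.nm_compact hh hK
  obtain ⟨a', b', ha', hb', hab'⟩ := A.nm_compact hh₀ hK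
  refine ⟨(a / b') ^ 2, by positivity, fun y hy v => ?_⟩
  have h1 := (hab y hy v).1
  have h2 := (hab' y hy v).2
  have h3 : a / b' * A.nm h₀ y v ≤ A.nm h y v := by
    refine le_trans ?_ h1
    rw [div_mul_eq_mul_div, div_le_iff₀ hb']
    calc a * A.nm h₀ y v ≤ a * (b' * ‖v‖) := mul_le_mul_of_nonneg_left h2 ha.le
      _ = a * ‖v‖ * b' := by ring
  have h4 := pow_le_pow_left₀ (mul_nonneg (div_pos ha hb').le (A.nm_nonneg h₀ y v)) h3 2
  rw [mul_pow, A.nm_sq hh, A.nm_sq hh₀, A.bf_apply, A.bf_apply] at h4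
  exact h4

theorem exists_bound_clm {h₀ : Curv.Coeff E} (hh₀ : Curv.IsMetric h₀) {V : Type*}
    [NormedAddCommGroup V] [NormedSpace ℝ V] {L : E → E →L[ℝ] V} (hL : Continuous L)
    {K : Set E} (hK : IsCompact K) : ∃ c : ℝ, 0 < c ∧ ∀ y ∈ K, ∀ v,
      ‖L y v‖ ^ 2 ≤ c * Curv.ip h₀ y v v := by
  obtain ⟨a, b, ha, hb, hab⟩ := A.nm_compact hh₀ hK
  obtain ⟨B, hB⟩ := hK.exists_bound_of_continuousOn hL.continuousOn
  have hB0 : 0 ≤ |B| := abs_nonneg B
  refine ⟨(|B| / a) ^ 2 + 1, by positivity, fun y hy v => ?_⟩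
  have h1 := (hab y hy v).1
  have h2 : ‖L y v‖ ≤ |B| / a * A.nm h₀ y v := by
    calc ‖L y v‖ ≤ ‖L y‖ * ‖v‖ := (L y).le_opNorm v
      _ ≤ |B| * ‖v‖ := mul_le_mul_of_nonneg_right ((hB y hy).trans (le_abs_self B)) (norm_nonneg v)
      _ = |B| / a * (a * ‖v‖) := by field_simp
      _ ≤ |B| / a * A.nm h₀ y v := mul_le_mul_of_nonneg_left h1 (div_nonneg hB0 ha.le)
  have h3 := pow_le_pow_left₀ (norm_nonneg _) h2 2
  rw [mul_pow, A.nm_sq hh₀, A.bf_apply] at h3
  have h4 : 0 ≤ Curv.ip h₀ y v v := ip_nonneg hh₀ y v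
  linarith

end Pool.Agent.Lib.MP_df705a_gt.Wide
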