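import Pool.Agent.Lib.MP_df705a_gt.Wide.Df

/-!
# The covering of the product as a stable covering
-/

open scoped Manifold ContDiff Topology
open Set Bundle Module

noncomputable section

set_option linter.unusedSectionVars false

namespace Pool.Agent.Lib.MP_df705a_gt.Wide

open Pool.Agent.Lib.MP_df705a_gt.Pin
open Pool.Agent.Lib.MP_df705a_gt.Coll (Met)

variable {E' : Type*} [NormedAddCommGroup E'] [NormedSpace ℝ E'] [FiniteDimensional ℝ E']
  {E : Type*} [NormedAddCommGroup E] [NormedSpace ℝ E] [FiniteDimensional ℝ E]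
  {F : Type*} [NormedAddCommGroup F] [InnerProductSpace ℝ F] [FiniteDimensional ℝ F]
  {X : Type*} [TopologicalSpace X] [ChartedSpace E' X] [IsManifold 𝓘(ℝ, E') ∞ X]
  {M : Type*} [TopologicalSpace M] [ChartedSpace E M] [IsManifold 𝓘(ℝ, E) ∞ M]
  {p : X → M} {t : X → F} {Q : E' → X}

theorem ProductCover.surj_Q (H : ProductCover E p t Q) : Function.Surjective Q := by
  intro x
  obtain ⟨y, hy⟩ := H.cover.surj (p x, t x)
  exact ⟨y, H.inj hy⟩

theorem ProductCover.surj_pt (H : ProductCover E p t Q) :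
    Function.Surjective fun x => (p x, t x) := by
  intro z
  obtain ⟨y, hy⟩ := H.cover.surj z
  exact ⟨Q y, hy⟩

/-- The homeomorphism `(p, t)`. -/
def ProductCover.homeo (H : ProductCover E p t Q) : X ≃ₜ M × F :=
  (Equiv.ofBijective (fun x => (p x, t x)) ⟨H.inj, H.surj_pt⟩).toHomeomorphOfContinuousOpen
    (H.smooth_p.continuous.prodMk H.smooth_t.continuous) (by
      intro U hU
      have h1 : (fun x => (p x, t x)) '' U =
          (fun y => ((p ∘ Q) y, (t ∘ Q) y)) '' (Q ⁻¹' U) := by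
        ext z
        constructor
        · rintro ⟨x, hx, rfl⟩
          obtain ⟨y, rfl⟩ := H.surj_Q x
          exact ⟨y, hx, rfl⟩
        · rintro ⟨y, hy, rfl⟩
          exact ⟨Q y, hy, rfl⟩
      show IsOpen ((fun x => (p x, t x)) '' U)
      rw [h1]
      exact H.cover.cov.isOpenMap _ (hU.preimage H.smooth_Q.continuous))

theorem ProductCover.homeo_apply (H : ProductCover E p t Q) (x : X) : H.homeo x = (p x, t x) := rfl

theorem ProductCover.cov_Q (H : ProductCover E p t Q) : IsCoveringMap Q := by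
  have h1 := H.cover.cov.homeomorph_comp H.homeo.symm
  have h2 : (H.homeo.symm ∘ fun y => ((p ∘ Q) y, (t ∘ Q) y)) = Q := by
    funext y
    show H.homeo.symm (H.homeo (Q y)) = Q y
    exact H.homeo.symm_apply_apply _
  rwa [h2] at h1

theorem mfderiv_pQ (H : ProductCover E p t Q) (y v : E') :
    (mfderiv 𝓘(ℝ, E') 𝓘(ℝ, E) (p ∘ Q) y v : E) =
      mfderiv 𝓘(ℝ, E') 𝓘(ℝ, E) p (Q y) (mfderiv 𝓘(ℝ, E') 𝓘(ℝ, E') Q y v) := by
  rw [mfderiv_comp (I := 𝓘(ℝ, E')) (I' := 𝓘(ℝ, E')) (I'' := 𝓘(ℝ, E)) y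
    ((H.smooth_p.mdifferentiable (by simp)) (Q y)) ((H.smooth_Q.mdifferentiable (by simp)) y)]
  rfl

theorem fderiv_tQ {f : X → F} (hf : ContMDiff 𝓘(ℝ, E') 𝓘(ℝ, F) 1 f)
    (hQ : ContMDiff 𝓘(ℝ, E') 𝓘(ℝ, E') ∞ Q) (y v : E') :
    fderiv ℝ (f ∘ Q) y v =
      (mfderiv 𝓘(ℝ, E') 𝓘(ℝ, F) f (Q y) (mfderiv 𝓘(ℝ, E') 𝓘(ℝ, E') Q y v) : F) := by
  rw [← mfderiv_eq_fderiv, mfderiv_comp (I := 𝓘(ℝ, E')) (I' := 𝓘(ℝ, E')) (I'' := 𝓘(ℝ, F)) y
    ((hf.mdifferentiable (by simp)) (Q y)) ((hQ.mdifferentiable (by simp)) y)]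
  rfl

theorem ProductCover.bij_Q (H : ProductCover E p t Q) (y : E') :
    Function.Bijective (mfderiv 𝓘(ℝ, E') 𝓘(ℝ, E') Q y : E' →L[ℝ] E') := by
  have h1 : Function.Injective (mfderiv 𝓘(ℝ, E') 𝓘(ℝ, E') Q y : E' →L[ℝ] E') := by
    intro u v huv
    apply (H.cover.bij y).1
    refine Prod.ext ?_ ?_
    · show (mfderiv 𝓘(ℝ, E') 𝓘(ℝ, E) (p ∘ Q) y u : E) = mfderiv 𝓘(ℝ, E') 𝓘(ℝ, E) (p ∘ Q) y v
      rw [mfderiv_pQ H, mfderiv_pQ H]
      exact congrArg _ huv
    · show fderiv ℝ (t ∘ Q) y u = fderiv ℝ (t ∘ Q) y v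
      rw [fderiv_tQ (H.smooth_t.of_le (by simp)) H.smooth_Q,
        fderiv_tQ (H.smooth_t.of_le (by simp)) H.smooth_Q]
      exact congrArg _ huv
  obtain ⟨D, hD⟩ : ∃ D : E' →L[ℝ] E', D = mfderiv 𝓘(ℝ, E') 𝓘(ℝ, E') Q y := ⟨_, rfl⟩
  have h2 : Function.Injective D := by
    rw [hD]
    exact h1
  have h3 : Function.Surjective D :=
    LinearMap.injective_iff_surjective.1 (show Function.Injective (D : E' →ₗ[ℝ] E') from h2)
  have h4 : Function.Bijective D := ⟨h2, h3⟩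
  rw [hD] at h4
  exact h4

/-- `Q` together with the map to the zero space is a stable covering. -/
theorem ProductCover.stable (H : ProductCover E p t Q) :
    StableCover E' Q (fun _ : E' => (0 : EuclideanSpace ℝ (Fin 0))) where
  cov := by
    have h1 := H.cov_Q.homeomorph_comp
      (Homeomorph.prodUnique X (EuclideanSpace ℝ (Fin 0))).symm
    have h2 : ((Homeomorph.prodUnique X (EuclideanSpace ℝ (Fin 0))).symm ∘ Q) =
        fun y => (Q y, (0 : EuclideanSpace ℝ (Fin 0))) := by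
      funext y
      exact Prod.ext rfl (Subsingleton.elim _ _)
    rwa [h2] at h1
  surj := by
    rintro ⟨x, z⟩
    obtain ⟨y, rfl⟩ := H.surj_Q x
    exact ⟨y, Prod.ext rfl (Subsingleton.elim _ _)⟩
  smooth_q := H.smooth_Q
  smooth_s := contDiff_const
  bij := by
    intro y
    obtain ⟨h1, h2⟩ := H.bij_Q y
    refine ⟨fun u v huv => h1 (congrArg Prod.fst huv), ?_⟩
    rintro ⟨a, b⟩
    obtain ⟨v, hv⟩ := h2 a
    exact ⟨v, Prod.ext hv (Subsingleton.elim _ _)⟩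

end Pool.Agent.Lib.MP_df705a_gt.Wide
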