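import Pool.Agent.Lib.MP_df705a_gt.Wide.A3
import Pool.Agent.Lib.MP_df705a_gt.Wide.B0
import Pool.Agent.Lib.MP_df705a_gt.Mg.G065
import Pool.Agent.Lib.MP_df705a_gt.Mg.G060
import Pool.Agent.Lib.MP_df705a_gt.Mg.G066

/-!
# The reference metric
-/

open scoped Manifold ContDiff Topology
open Set Bundle Module Filter MeasureTheory

noncomputable section

set_option linter.unusedSectionVars false

namespace Pool.Agent.Lib.MP_df705a_gt.Wide

open Pool.Agent.Lib.MP_df705a_gt.Pin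

variable {E' : Type*} [NormedAddCommGroup E'] [NormedSpace ℝ E'] [FiniteDimensional ℝ E']
  {E : Type*} [NormedAddCommGroup E] [NormedSpace ℝ E] [FiniteDimensional ℝ E]
  {F : Type*} [NormedAddCommGroup F] [InnerProductSpace ℝ F] [FiniteDimensional ℝ F]
  {M : Type*} [TopologicalSpace M] [ChartedSpace E M] [IsManifold 𝓘(ℝ, E) ∞ M]
  {q : E' → M} {s : E' → F}

/-- The metric `h` is invariant under the lifts of the translation by `a`. -/
def Inv (q : E' → M) (s : E' → F) (h : Curv.Coeff E') (a : F) : Prop :=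
  ∀ γ : E' → E', ContDiff ℝ ∞ γ → (∀ w, q (γ w) = q w ∧ s (γ w) = s w + a) →
    ∀ w v, Curv.ip h (γ w) (fderiv ℝ γ w v) (fderiv ℝ γ w v) = Curv.ip h w v v

/-- The inner product as a continuous bilinear map. -/
def ri (F : Type*) [NormedAddCommGroup F] [InnerProductSpace ℝ F] : F →L[ℝ] F →L[ℝ] ℝ :=
  LinearMap.mkContinuous₂ (innerₗ F) 1 fun u v => by
    rw [one_mul]
    exact norm_inner_le_norm u v

theorem ri_apply (u v : F) : ri F u v = inner ℝ u v := rfl

/-- The form `r^* h + |ds|²`. -/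
def rf (s : E' → F) (r : E' → E') (h : Curv.Coeff E') (y : E') : E' →L[ℝ] E' →L[ℝ] ℝ :=
  (A.bf h (r y)).bilinearComp (fderiv ℝ r y) (fderiv ℝ r y) +
    (ri F).bilinearComp (fderiv ℝ s y) (fderiv ℝ s y)

theorem rf_apply (s : E' → F) (r : E' → E') (h : Curv.Coeff E') (y u v : E') :
    rf s r h y u v = Curv.ip h (r y) (fderiv ℝ r y u) (fderiv ℝ r y v) +
      inner ℝ (fderiv ℝ s y u) (fderiv ℝ s y v) := by
  rw [← A.bf_apply]
  rfl

/-- The metric `r^* h + |ds|²` where `r` is the retraction onto the zero set of `s`. -/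
theorem isMetric_rf (H : StableCover E q s) {T : F → E' → E'}
    (hT : ContDiff ℝ ∞ fun z : F × E' => T z.1 z.2) (hTq : ∀ a y, q (T a y) = q y)
    {h : Curv.Coeff E'} (hh : Curv.IsMetric h) :
    Curv.IsMetric (ofB (rf s (fun y => T (-s y) y) h)) := by
  set r : E' → E' := fun y => T (-s y) y with hr
  have hrs : ContDiff ℝ ∞ r := hT.comp (H.smooth_s.neg.prodMk contDiff_id)
  have hqr : q ∘ r = q := funext fun y => hTq _ _
  apply isMetric_ofB
  · intro u v
    have h1 : (fun y => rf s r h y u v) = fun y =>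
        A.bf h (r y) (fderiv ℝ r y u) (fderiv ℝ r y v) +
          inner ℝ (fderiv ℝ s y u) (fderiv ℝ s y v) := rfl
    rw [h1]
    have hdr : ContDiff ℝ ∞ (fderiv ℝ r) := hrs.fderiv_right (m := ∞) (by simp)
    have hds : ContDiff ℝ ∞ (fderiv ℝ s) := H.smooth_s.fderiv_right (m := ∞) (by simp)
    refine ContDiff.add ?_ (ContDiff.inner ℝ (hds.clm_apply contDiff_const)
      (hds.clm_apply contDiff_const))
    exact (((A.bf_smooth hh).comp hrs).clm_apply (hdr.clm_apply contDiff_const)).clm_apply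
      (hdr.clm_apply contDiff_const)
  · intro y u v
    rw [rf_apply, rf_apply, ip_symm hh, real_inner_comm]
  · intro y u hu
    rw [rf_apply]
    have h4 : 0 ≤ inner ℝ (fderiv ℝ s y u) (fderiv ℝ s y u) := real_inner_self_nonneg
    by_cases h5 : fderiv ℝ r y u = 0
    · have h6 : fderiv ℝ s y u ≠ 0 := by
        intro h6
        apply hu
        apply (H.bij y).1
        have h7 : (mfderiv 𝓘(ℝ, E') 𝓘(ℝ, E) q y u : E) = 0 := by
          have h8 := mfderiv_comp (I := 𝓘(ℝ, E')) (I' := 𝓘(ℝ, E')) (I'' := 𝓘(ℝ, E)) y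
            ((H.smooth_q.mdifferentiable (by simp)) (r y))
            ((hrs.differentiable (by simp)) y).mdifferentiableAt
          have key : ∀ (f f' : E' → M), f = f' → (mfderiv 𝓘(ℝ, E') 𝓘(ℝ, E) f y u : E) =
              (mfderiv 𝓘(ℝ, E') 𝓘(ℝ, E) f' y u : E) := by
            rintro f _ rfl
            rfl
          have h9 := key _ _ hqr
          rw [h8, mfderiv_eq_fderiv] at h9
          have h10 : (mfderiv 𝓘(ℝ, E') 𝓘(ℝ, E) q (r y) (fderiv ℝ r y u) : E) =
              (mfderiv 𝓘(ℝ, E') 𝓘(ℝ, E) q y u : E) := h9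
          rw [← h10, h5]
          exact (mfderiv 𝓘(ℝ, E') 𝓘(ℝ, E) q (r y)).map_zero
        refine Prod.ext ?_ ?_
        · show (mfderiv 𝓘(ℝ, E') 𝓘(ℝ, E) q y u : E) = mfderiv 𝓘(ℝ, E') 𝓘(ℝ, E) q y (0 : E')
          rw [h7]
          exact ((mfderiv 𝓘(ℝ, E') 𝓘(ℝ, E) q y).map_zero).symm
        · show fderiv ℝ s y u = fderiv ℝ s y 0
          rw [h6, map_zero]
      have h7 : 0 < inner ℝ (fderiv ℝ s y u) (fderiv ℝ s y u) := real_inner_self_pos.2 h6
      have h8 : 0 ≤ Curv.ip h (r y) (fderiv ℝ r y u) (fderiv ℝ r y u) := ip_nonneg hh _ _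
      linarith
    · have h8 := ip_pos hh (r y) h5
      linarith

/-- The reference metric is invariant under all lifts of translations. -/
theorem inv_rf (H : StableCover E q s) {T : F → E' → E'}
    (hT : ContDiff ℝ ∞ fun z : F × E' => T z.1 z.2) (hTq : ∀ a y, q (T a y) = q y)
    (hTs : ∀ a y, s (T a y) = s y + a) {h : Curv.Coeff E'} (hi : Inv q s h 0) (a : F) :
    Inv q s (ofB (rf s (fun y => T (-s y) y) h)) a := by
  set r : E' → E' := fun y => T (-s y) y with hr
  have hrs : ContDiff ℝ ∞ r := hT.comp (H.smooth_s.neg.prodMk contDiff_id)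
  have hqr : ∀ y, q (r y) = q y := fun y => hTq _ _
  have hsr : ∀ y, s (r y) = 0 := fun y => by
    show s (T (-s y) y) = 0
    rw [hTs, add_neg_cancel]
  intro γ hγ hγq w v
  obtain ⟨δ, δ', hδ, -, -, -, hδq, -, hδ0⟩ := exists_lift H (x := r 0) (z := r (γ 0)) (a := 0)
    (by rw [hqr, hqr, (hγq 0).1]) (by rw [hsr, hsr, add_zero])
  have hδs : ContDiff ℝ ∞ δ := contDiff_lift H hδ hδq
  have h1 : (fun w => r (γ w)) = fun w => δ (r w) := by
    refine H.cov.eq_of_comp_eq (hrs.continuous.comp hγ.continuous)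
      (hδ.comp hrs.continuous) ?_ 0 hδ0.symm
    funext w
    refine Prod.ext ?_ ?_
    · change q (r (γ w)) = q (δ (r w))
      rw [hqr, (hγq w).1, (hδq _).1, hqr]
    · change s (r (γ w)) = s (δ (r w))
      rw [hsr, (hδq _).2, hsr, add_zero]
  have hrd : ∀ y, DifferentiableAt ℝ r y := fun y => (hrs.differentiable (by simp)) y
  have hγd : DifferentiableAt ℝ γ w := (hγ.differentiable (by simp)) w
  have hδd : ∀ y, DifferentiableAt ℝ δ y := fun y => (hδs.differentiable (by simp)) y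
  have h2 : fderiv ℝ r (γ w) (fderiv ℝ γ w v) = fderiv ℝ δ (r w) (fderiv ℝ r w v) := by
    have a1 : fderiv ℝ (fun w => r (γ w)) w = (fderiv ℝ r (γ w)).comp (fderiv ℝ γ w) :=
      fderiv_comp w (hrd _) hγd
    have a2 : fderiv ℝ (fun w => δ (r w)) w = (fderiv ℝ δ (r w)).comp (fderiv ℝ r w) :=
      fderiv_comp w (hδd _) (hrd _)
    rw [h1, a2] at a1
    have a3 := congrArg (fun L : E' →L[ℝ] E' => L v) a1
    exact a3.symm
  have h3 : fderiv ℝ s (γ w) (fderiv ℝ γ w v) = fderiv ℝ s w v := by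
    have a1 : fderiv ℝ (fun w => s (γ w)) w = (fderiv ℝ s (γ w)).comp (fderiv ℝ γ w) :=
      fderiv_comp w ((H.smooth_s.differentiable (by simp)) _) hγd
    have a2 : (fun w => s (γ w)) = fun w => s w + a := funext fun w => (hγq w).2
    rw [a2, fderiv_add_const] at a1
    have a3 := congrArg (fun L : E' →L[ℝ] F => L v) a1
    exact a3.symm
  rw [ip_ofB, ip_ofB, rf_apply, rf_apply, h2, h3, congrFun h1 w, hi δ hδs hδq]

/-- An invariant metric is cocompact. -/
theorem exists_coCpt' [CompactSpace M] (H : StableCover E q s) {h : Curv.Coeff E'}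
    (hh : Curv.IsMetric h) (hi : ∀ a, Inv q s h a) :
    ∃ (K : Set E') (G G' : E' → E' → E'), CoCpt (dh h) K G G' := by
  obtain ⟨K, hK, hKs⟩ := exists_compact_cover H
  have hex : ∀ x : E', ∃ γ γ' : E' → E', ContDiff ℝ ∞ γ ∧ ContDiff ℝ ∞ γ' ∧ (∀ w, γ (γ' w) = w) ∧
      (∀ w, γ' (γ w) = w) ∧ (∀ w, q (γ w) = q w ∧ s (γ w) = s w + -s x) ∧
      (∀ w, q (γ' w) = q w ∧ s (γ' w) = s w + s x) ∧ γ x ∈ K := by
    intro x
    obtain ⟨z, hz, hqz, hsz⟩ := hKs (q x)
    obtain ⟨γ, γ', hγ, hγ', h1, h2, h3, h4, h5⟩ := exists_lift H (x := x) (z := z) (a := -s x) hqz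
      (by rw [hsz, add_neg_cancel])
    have h6 : ∀ w, q (γ' w) = q w ∧ s (γ' w) = s w + s x := fun w =>
      ⟨(h4 w).1, by rw [(h4 w).2, sub_neg_eq_add]⟩
    exact ⟨γ, γ', contDiff_lift H hγ h3, contDiff_lift H hγ' h6, h1, h2, h3, h6, h5 ▸ hz⟩
  choose G' G h1 h2 h3 h4 h5 h6 h7 using hex
  have hle : ∀ x y z, dh h (G x y) (G x z) ≤ dh h y z := fun x y z =>
    dh_map_le hh ((h2 x).of_le (by simp)) (fun w v => hi _ (G x) (h2 x) (h6 x) w v) y z
  have hle' : ∀ x y z, dh h (G' x y) (G' x z) ≤ dh h y z := fun x y z =>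
    dh_map_le hh ((h1 x).of_le (by simp)) (fun w v => hi _ (G' x) (h1 x) (h5 x) w v) y z
  refine ⟨K, G, G', hK, fun x => (h2 x).of_le (by simp), fun x => (h1 x).of_le (by simp), h4, h3,
    fun x y z => le_antisymm (hle x y z) ?_, h7⟩
  have h8 := hle' x (G x y) (G x z)
  rw [h3, h3] at h8
  exact h8

/-- The lifted translation by `a` moves the points by at most `‖a‖`. -/
theorem dh_flow_le (H : StableCover E q s) {T : F → E' → E'}
    (hT : ContDiff ℝ ∞ fun z : F × E' => T z.1 z.2) (hT0 : ∀ y, T 0 y = y)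
    (hTq : ∀ a y, q (T a y) = q y) (hTs : ∀ a y, s (T a y) = s y + a) {h : Curv.Coeff E'}
    (hh : Curv.IsMetric h) (a : F) (y : E') :
    dh (ofB (rf s (fun y => T (-s y) y) h)) y (T a y) ≤ ‖a‖ := by
  have hm := isMetric_rf H hT hTq hh
  set r : E' → E' := fun y => T (-s y) y with hr
  have hrs : ContDiff ℝ ∞ r := hT.comp (H.smooth_s.neg.prodMk contDiff_id)
  have hqr : ∀ y, q (r y) = q y := fun y => hTq _ _
  have hsr : ∀ y, s (r y) = 0 := fun y => by
    show s (T (-s y) y) = 0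
    rw [hTs, add_neg_cancel]
  let c : ℝ → E' := fun r => T (r • a) y
  have hc : ContDiff ℝ ∞ c := hT.comp ((contDiff_id.smul contDiff_const).prodMk contDiff_const)
  have hcd : ∀ r, HasDerivAt c (deriv c r) r := fun r =>
    ((hc.differentiable (by simp)) r).hasDerivAt
  have hc0 : c 0 = y := by
    change T ((0 : ℝ) • a) y = y
    rw [zero_smul, hT0]
  have hc1 : c 1 = T a y := by
    change T ((1 : ℝ) • a) y = _
    rw [one_smul]
  have hrc : (fun z => r (c z)) = fun _ => r y := by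
    refine H.cov.eq_of_comp_eq (hrs.continuous.comp hc.continuous) continuous_const ?_ 0 ?_
    · funext z
      refine Prod.ext ?_ ?_
      · change q (r (c z)) = q (r y)
        rw [hqr, hqr]
        exact hTq _ _
      · change s (r (c z)) = s (r y)
        rw [hsr, hsr]
    · rw [hc0]
  have hrr : ∀ z, fderiv ℝ r (c z) (deriv c z) = 0 := by
    intro z
    have h2 : HasDerivAt (fun z => r (c z)) (fderiv ℝ r (c z) (deriv c z)) z :=
      (((hrs.differentiable (by simp)) (c z)).hasFDerivAt).comp_hasDerivAt z (hcd z)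
    rw [hrc] at h2
    exact h2.unique (hasDerivAt_const z (r y))
  have hsr' : ∀ z, fderiv ℝ s (c z) (deriv c z) = a := by
    intro z
    have h2 : HasDerivAt (s ∘ c) (fderiv ℝ s (c z) (deriv c z)) z :=
      (((H.smooth_s.differentiable (by simp)) (c z)).hasFDerivAt).comp_hasDerivAt z (hcd z)
    have h3 : s ∘ c = fun r => s y + r • a := funext fun r => hTs _ _
    rw [h3] at h2
    have h4 : HasDerivAt (fun r : ℝ => s y + r • a) a z := by
      have := ((hasDerivAt_id z).smul_const a).const_add (s y)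
      simpa using this
    exact h2.unique h4
  have h5 := Pin.dh_le_curve hm (g := c) (g' := deriv c) (a := 0) (b := 1) (C := ‖a‖)
    zero_le_one (fun r _ => (hcd r).hasDerivWithinAt)
    ((hc.continuous_deriv (by simp)).continuousOn) (by
      intro z _
      have h9 : Curv.ip (ofB (rf s r h)) (c z) (deriv c z) (deriv c z) = ‖a‖ ^ 2 := by
        rw [ip_ofB, rf_apply, hrr, hsr', real_inner_self_eq_norm_sq]
        have h10 : Curv.ip h (r (c z)) (0 : E') (0 : E') = 0 := by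
          rw [← A.bf_apply, map_zero]
        rw [h10, zero_add]
      rw [h9]
      exact (Real.sqrt_sq (norm_nonneg a)).le)
  rw [hc0, hc1, sub_zero, mul_one] at h5
  exact h5

/-- For every `R` there is a compact set which contains a point over each point of `M × B_R`. -/
theorem exists_compact_over [CompactSpace M] (H : StableCover E q s) {T : F → E' → E'}
    (hT : ContDiff ℝ ∞ fun z : F × E' => T z.1 z.2)
    (hTq : ∀ a y, q (T a y) = q y) (hTs : ∀ a y, s (T a y) = s y + a) (R : ℝ) :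
    ∃ K : Set E', IsCompact K ∧ ∀ y, ‖s y‖ ≤ R → ∃ k ∈ K, q k = q y ∧ s k = s y := by
  obtain ⟨K, hK, hKs⟩ := exists_compact_cover H
  refine ⟨(fun z : F × E' => T z.1 z.2) '' (Metric.closedBall 0 R ×ˢ K),
    ((isCompact_closedBall 0 R).prod hK).image hT.continuous, fun y hy => ?_⟩
  obtain ⟨x, hx, hq, hs⟩ := hKs (q y)
  refine ⟨T (s y) x, ⟨(s y, x), ⟨by simpa using hy, hx⟩, rfl⟩, ?_, ?_⟩
  · rw [hTq, hq]
  · rw [hTs, hs, zero_add]

/-- **The reference metric.** -/
theorem exists_ref [CompactSpace M] (H : StableCover E q s) {h : Curv.Coeff E'}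
    (hh : Curv.IsMetric h) (hi : Inv q s h 0) :
    ∃ (h₀ : Curv.Coeff E') (K : Set E') (G G' : E' → E' → E') (T : F → E' → E'),
      Curv.IsMetric h₀ ∧ CoCpt (dh h₀) K G G' ∧ ContDiff ℝ ∞ (fun z : F × E' => T z.1 z.2) ∧
      (∀ y, T 0 y = y) ∧ (∀ a y, q (T a y) = q y) ∧ (∀ a y, s (T a y) = s y + a) ∧
      (∀ a y, dh h₀ y (T a y) ≤ ‖a‖) ∧ (∀ y v, ‖fderiv ℝ s y v‖ ^ 2 ≤ Curv.ip h₀ y v v) ∧
      (∀ a, Inv q s h₀ a) ∧ ∀ R, ∃ c : ℝ, 0 < c ∧
        ∀ y, ‖s y‖ ≤ R → ∀ v, c * Curv.ip h₀ y v v ≤ Curv.ip h y v v := by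
  obtain ⟨T, hT, hT0, hTq, hTs⟩ := exists_flow H
  have hm := isMetric_rf H hT hTq hh
  have hinv := inv_rf H hT hTq hTs hi
  obtain ⟨K, G, G', hG⟩ := exists_coCpt' H hm hinv
  refine ⟨ofB (rf s (fun y => T (-s y) y) h), K, G, G', T, hm, hG, hT, hT0, hTq, hTs,
    dh_flow_le H hT hT0 hTq hTs hh, fun y v => ?_, hinv, fun R => ?_⟩
  · rw [ip_ofB, rf_apply, real_inner_self_eq_norm_sq]
    have h1 := ip_nonneg hh ((fun y => T (-s y) y) y) (fderiv ℝ (fun y => T (-s y) y) y v)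
    linarith
  · obtain ⟨K', hK', hover⟩ := exists_compact_over H hT hTq hTs R
    obtain ⟨c, hc, hcmp⟩ := exists_comparison hh hm hK'
    refine ⟨c, hc, fun y hy v => ?_⟩
    obtain ⟨k, hk, hqk, hsk⟩ := hover y hy
    obtain ⟨δ, δ', hδ, hδ', h1, h2, hδq, hδ'q, hδ0⟩ := exists_lift H (x := y) (z := k) (a := 0)
      hqk (by rw [hsk, add_zero])
    have hδs : ContDiff ℝ ∞ δ := contDiff_lift H hδ hδq
    rw [← hi δ hδs hδq y v, ← hinv 0 δ hδs hδq y v, hδ0]
    exact hcmp k hk _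

end Pool.Agent.Lib.MP_df705a_gt.Wide
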