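import Pool.Agent.Lib.MP_df705a_gt.Wide.B0
import Pool.Agent.Lib.MP_df705a_gt.Mg.G003

/-!
# The metric changed outside of a region
-/

open scoped Manifold ContDiff Topology
open Set Bundle Module Filter MeasureTheory

noncomputable section

set_option linter.unusedSectionVars false

namespace Pool.Agent.Lib.MP_df705a_gt.Wide

open Pool.Agent.Lib.MP_df705a_gt.Pin

variable {E : Type*} [NormedAddCommGroup E] [NormedSpace ℝ E] [FiniteDimensional ℝ E]
  {F : Type*} [NormedAddCommGroup F] [NormedSpace ℝ F]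

/-- A smooth function which is large with respect to finitely many data. -/
theorem exists_majorant {h h₀ : Curv.Coeff E} (hh : Curv.IsMetric h) (hh₀ : Curv.IsMetric h₀)
    {V : Type*} [NormedAddCommGroup V] [NormedSpace ℝ V] {L : E → E →L[ℝ] V}
    (hL : Continuous L) {V' : Type*} [NormedAddCommGroup V'] [NormedSpace ℝ V']
    {L' : E → E →L[ℝ] V'} (hL' : Continuous L') :
    ∃ lam : E → ℝ, ContDiff ℝ ∞ lam ∧ (∀ y, 1 ≤ lam y) ∧
      (∀ y v, Curv.ip h y v v ≤ lam y * Curv.ip h₀ y v v) ∧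
      (∀ y v, ‖L y v‖ ^ 2 ≤ lam y * Curv.ip h₀ y v v) ∧
      ∀ y v, ‖L' y v‖ ^ 2 ≤ lam y * Curv.ip h₀ y v v := by
  have : ProperSpace E := FiniteDimensional.proper_real E
  obtain ⟨g, hg⟩ := exists_contMDiffMap_forall_mem_convex_of_local_const (n := ⊤) 𝓘(ℝ, E)
    (t := fun y : E => {c : ℝ | 1 ≤ c ∧ (∀ v, Curv.ip h y v v ≤ c * Curv.ip h₀ y v v) ∧
      (∀ v, ‖L y v‖ ^ 2 ≤ c * Curv.ip h₀ y v v) ∧ ∀ v, ‖L' y v‖ ^ 2 ≤ c * Curv.ip h₀ y v v})
    (by
      intro y c hc d hd a b ha hb hab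
      obtain ⟨c1, c2, c3, c4⟩ := hc
      obtain ⟨d1, d2, d3, d4⟩ := hd
      have key : ∀ A I : ℝ, A ≤ c * I → A ≤ d * I → A ≤ (a • c + b • d) * I := by
        intro A I h1 h2
        have h3 := mul_le_mul_of_nonneg_left h1 ha
        have h4 := mul_le_mul_of_nonneg_left h2 hb
        have h5 : A = a * A + b * A := by rw [← add_mul, hab, one_mul]
        rw [h5]
        simp only [smul_eq_mul]
        nlinarith
      refine ⟨?_, fun v => key _ _ (c2 v) (d2 v), fun v => key _ _ (c3 v) (d3 v),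
        fun v => key _ _ (c4 v) (d4 v)⟩
      have := key 1 1 (by linarith) (by linarith)
      linarith)
    (by
      intro x
      obtain ⟨c, hc, h1⟩ := exists_comparison hh₀ hh (isCompact_closedBall x 1)
      obtain ⟨c', hc', h2⟩ := exists_bound_clm hh₀ hL (isCompact_closedBall x 1)
      obtain ⟨c'', hc'', h3⟩ := exists_bound_clm hh₀ hL' (isCompact_closedBall x 1)
      refine ⟨1 + c⁻¹ + c' + c'', ?_⟩
      filter_upwards [Metric.closedBall_mem_nhds x one_pos] with y hy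
      have hc0 : 0 < c⁻¹ := inv_pos.2 hc
      refine ⟨by linarith, fun v => ?_, fun v => ?_, fun v => ?_⟩
      · have h4 := h1 y hy v
        have h5 := ip_nonneg hh₀ y v
        have h6 : Curv.ip h y v v ≤ c⁻¹ * Curv.ip h₀ y v v := by
          rw [inv_mul_eq_div, le_div_iff₀ hc]
          linarith
        nlinarith
      · have h4 := h2 y hy v
        have h5 := ip_nonneg hh₀ y v
        nlinarith
      · have h4 := h3 y hy v
        have h5 := ip_nonneg hh₀ y v
        nlinarith)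
  refine ⟨g, g.contMDiff.contDiff, fun y => (hg y).1, fun y => (hg y).2.1,
    fun y => (hg y).2.2.1, fun y => (hg y).2.2.2⟩

/-- **The metric changed outside of the region `‖f‖ < 3 / 4`.** -/
theorem exists_hat {h h₀ : Curv.Coeff E} (hh : Curv.IsMetric h) (hh₀ : Curv.IsMetric h₀)
    (hp : Proper h₀) {f : E → F} (hf : ContDiff ℝ 1 f) {r : E → ℝ} (hr : ContDiff ℝ 1 r)
    (hr1 : ∀ y, ‖f y‖ < 1 → ∀ v, (fderiv ℝ r y v) ^ 2 ≤ Curv.ip h y v v)
    (hf1 : ∀ y, ‖f y‖ < 1 → ∀ v, r y ^ 2 * ‖fderiv ℝ f y v‖ ^ 2 ≤ Curv.ip h y v v)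
    {c : ℝ} (hc : 0 < c) (hc1 : ∀ y, ‖f y‖ < 1 → ∀ v, c * Curv.ip h₀ y v v ≤ Curv.ip h y v v) :
    ∃ (k : Curv.Coeff E) (c' : ℝ), Curv.IsMetric k ∧ Proper k ∧ 0 < c' ∧
      (∀ x y, dh h₀ x y ≤ c' * dh k x y) ∧ (∀ y, ‖f y‖ < 3 / 4 → k =ᶠ[𝓝 y] h) ∧
      (∀ y v, (fderiv ℝ r y v) ^ 2 ≤ Curv.ip k y v v) ∧
      ∀ y v, r y ^ 2 * ‖fderiv ℝ f y v‖ ^ 2 ≤ Curv.ip k y v v := by
  have : ProperSpace E := FiniteDimensional.proper_real E
  have hdr : Continuous (fderiv ℝ r) := hr.continuous_fderiv (by simp)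
  have hdf : Continuous (fderiv ℝ f) := hf.continuous_fderiv (by simp)
  obtain ⟨lam, hlam, hlam1, hlamh, hlamr, hlamf⟩ := exists_majorant hh hh₀ hdr
    (L' := fun y => r y • fderiv ℝ f y) (hr.continuous.smul hdf)
  have hlamr' : ∀ y v, (fderiv ℝ r y v) ^ 2 ≤ lam y * Curv.ip h₀ y v v := by
    intro y v
    have h1 := hlamr y v
    rwa [Real.norm_eq_abs, sq_abs] at h1
  have hlamf' : ∀ y v, r y ^ 2 * ‖fderiv ℝ f y v‖ ^ 2 ≤ lam y * Curv.ip h₀ y v v := by
    intro y v
    have h1 := hlamf y v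
    have h2 : ‖(r y • fderiv ℝ f y) v‖ ^ 2 = r y ^ 2 * ‖fderiv ℝ f y v‖ ^ 2 := by
      rw [_root_.smul_apply, norm_smul, mul_pow, Real.norm_eq_abs, sq_abs]
    rwa [h2] at h1
  obtain ⟨χ, hχ0, hχ1, hχ⟩ := exists_contMDiffMap_zero_one_of_isClosed (n := ⊤) 𝓘(ℝ, E)
    (s := {y : E | 7 / 8 ≤ ‖f y‖}) (t := {y : E | ‖f y‖ ≤ 3 / 4})
    (isClosed_le continuous_const hf.continuous.norm) (isClosed_le hf.continuous.norm
      continuous_const) (disjoint_left.2 fun y hy hy' => by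
        have h1 : 7 / 8 ≤ ‖f y‖ := hy
        have h2 : ‖f y‖ ≤ 3 / 4 := hy'
        linarith)
  have hχs : ContDiff ℝ ∞ χ := χ.contMDiff.contDiff
  set β : E → E →L[ℝ] E →L[ℝ] ℝ := fun y =>
    χ y • A.bf h y + ((1 - χ y) * lam y) • A.bf h₀ y with hβ
  have hβa : ∀ y u v, β y u v = χ y * Curv.ip h y u v + (1 - χ y) * lam y * Curv.ip h₀ y u v := by
    intro y u v
    rw [← A.bf_apply, ← A.bf_apply]
    rfl
  have hip : ∀ y u v, Curv.ip (ofB β) y u v =
      χ y * Curv.ip h y u v + (1 - χ y) * lam y * Curv.ip h₀ y u v := fun y u v => by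
    rw [ip_ofB, hβa]
  have hχ0' : ∀ y, 0 ≤ χ y := fun y => (hχ y).1
  have hχ1' : ∀ y, 0 ≤ 1 - χ y := fun y => by linarith [(hχ y).2]
  have hfχ : ∀ y, 0 < χ y → ‖f y‖ < 1 := by
    intro y hy
    by_contra hcon
    push Not at hcon
    have h1 : χ y = 0 := hχ0 (show 7 / 8 ≤ ‖f y‖ by linarith)
    rw [h1] at hy
    exact lt_irrefl _ hy
  have key : ∀ y v (a : ℝ), (‖f y‖ < 1 → a ≤ Curv.ip h y v v) → a ≤ lam y * Curv.ip h₀ y v v →
      a ≤ Curv.ip (ofB β) y v v := by
    intro y v a h1 h2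
    rw [hip]
    have h3 := mul_le_mul_of_nonneg_left h2 (hχ1' y)
    rcases (hχ0' y).eq_or_lt with h0 | h0
    · rw [← h0] at h3 ⊢
      linarith
    · have h4 := mul_le_mul_of_nonneg_left (h1 (hfχ y h0)) h0.le
      have h5 : a = χ y * a + (1 - χ y) * a := by ring
      rw [h5]
      linarith
  have hm : Curv.IsMetric (ofB β) := by
    apply isMetric_ofB
    · intro u v
      have h1 : (fun y => β y u v) = fun y => χ y * A.bf h y u v +
          (1 - χ y) * lam y * A.bf h₀ y u v := by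
        funext y
        rw [hβa, A.bf_apply, A.bf_apply]
      rw [h1]
      refine (hχs.mul ?_).add (((contDiff_const.sub hχs).mul hlam).mul ?_)
      · exact ((A.bf_smooth hh).clm_apply contDiff_const).clm_apply contDiff_const
      · exact ((A.bf_smooth hh₀).clm_apply contDiff_const).clm_apply contDiff_const
    · intro y u v
      rw [hβa, hβa, ip_symm hh, ip_symm hh₀]
    · intro y u hu
      rw [hβa]
      have h1 := ip_pos hh y hu
      have h2 := ip_pos hh₀ y hu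
      have h3 := hlam1 y
      rcases (hχ0' y).eq_or_lt with h0 | h0
      · rw [← h0]
        have : 0 < lam y := by linarith
        have h4 := mul_pos this h2
        linarith
      · have h4 := mul_pos h0 h1
        have h5 : 0 ≤ (1 - χ y) * lam y * Curv.ip h₀ y u u :=
          mul_nonneg (mul_nonneg (hχ1' y) (by linarith)) h2.le
        linarith
  set c₁ := min c 1 with hc₁
  have hc₁0 : 0 < c₁ := lt_min hc one_pos
  have hlow : ∀ y v, c₁ * Curv.ip h₀ y v v ≤ Curv.ip (ofB β) y v v := by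
    intro y v
    have h0 := ip_nonneg hh₀ y v
    apply key
    · intro hy
      exact (mul_le_mul_of_nonneg_right (min_le_left _ _) h0).trans (hc1 y hy v)
    · exact mul_le_mul_of_nonneg_right ((min_le_right _ _).trans (hlam1 y)) h0
  have hdh : ∀ x y, dh h₀ x y ≤ (√ c₁)⁻¹ * dh (ofB β) x y := by
    refine Kat.dh_le_mul hh₀ hm (inv_nonneg.2 (Real.sqrt_nonneg _)) fun y v => ?_
    have h1 := Real.sqrt_le_sqrt (hlow y v)
    rw [Real.sqrt_mul hc₁0.le] at h1
    rw [inv_mul_eq_div, le_div_iff₀ (Real.sqrt_pos.2 hc₁0)]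
    linarith
  refine ⟨ofB β, (√ c₁)⁻¹, hm, ?_, inv_pos.2 (Real.sqrt_pos.2 hc₁0), hdh, ?_, ?_, ?_⟩
  · intro x R
    have hcd : Continuous fun y => dh (ofB β) x y :=
      (continuous_dh hm).comp (Continuous.prodMk_right x)
    refine (hp x ((√ c₁)⁻¹ * R)).of_isClosed_subset (isClosed_le hcd continuous_const)
      fun y hy => ?_
    exact (hdh x y).trans (mul_le_mul_of_nonneg_left hy (inv_nonneg.2 (Real.sqrt_nonneg _)))
  · intro y hy
    filter_upwards [(isOpen_lt hf.continuous.norm continuous_const).mem_nhds hy] with z hz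
    have h1 : χ z = 1 := hχ1 (show ‖f z‖ ≤ 3 / 4 from le_of_lt hz)
    funext i j
    show β z (finBasis ℝ E i) (finBasis ℝ E j) = h z i j
    rw [hβa, h1, sub_self, zero_mul, zero_mul, add_zero, one_mul]
    unfold Curv.ip
    rw [Finset.sum_eq_single i, Finset.sum_eq_single j]
    · simp
    · intro b _ hb
      simp [Finsupp.single_apply, hb.symm]
    · intro hj; exact absurd (Finset.mem_univ _) hj
    · intro b _ hb
      apply Finset.sum_eq_zero
      intro b' _
      simp [Finsupp.single_apply, hb.symm]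
    · intro hj; exact absurd (Finset.mem_univ _) hj
  · intro y v
    exact key y v _ (fun hy => hr1 y hy v) (hlamr' y v)
  · intro y v
    exact key y v _ (fun hy => hf1 y hy v) (hlamf' y v)

end Pool.Agent.Lib.MP_df705a_gt.Wide
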