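import Pool.Agent.Lib.MP_df705a_gt.Mg.G003
import Pool.Agent.Lib.MP_df705a_gt.Coll.Defs
import Pool.Agent.Lib.MP_df705a_gt.Mg.G013

/-!
# The curvature only depends on the germ of the metric
-/

open scoped Manifold ContDiff Topology
open Set Bundle Module Filter MeasureTheory

noncomputable section

set_option linter.unusedSectionVars false

namespace Pool.Agent.Lib.MP_df705a_gt.Wide

open Pool.Agent.Lib.MP_df705a_gt.Pin

variable {E : Type*} [NormedAddCommGroup E] [NormedSpace ℝ E] [FiniteDimensional ℝ E]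
  {h k : Curv.Coeff E} {y : E}

theorem scal_germ (hh : k =ᶠ[𝓝 y] h) : Curv.scal k y = Curv.scal h y := by
  unfold Curv.scal
  rw [hh.self_of_nhds]
  simp only [Coll.riem_congr hh]

theorem ric_germ (hh : k =ᶠ[𝓝 y] h) : ric k y = ric h y := by
  unfold ric
  rw [hh.self_of_nhds]
  simp only [Coll.riem_congr hh]

theorem lapC_germ (hh : k =ᶠ[𝓝 y] h) (f : E → ℝ) : Twist.lapC k f y = Twist.lapC h f y :=
  S1.lapC_congr_metric hh f

theorem gd_germ (hh : k =ᶠ[𝓝 y] h) {W : E → ℝ} {κ : ℝ} (hg : Kat.Gd h W κ y) : Kat.Gd k W κ y := by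
  have h1 : Kat.ta k W κ y = Kat.ta h W κ y := by
    unfold Kat.ta
    rw [lapC_germ hh]
  unfold Kat.Gd at hg ⊢
  rw [h1]
  refine ⟨hg.1, ?_⟩
  have h2 := hg.2
  unfold RicGeAt at h2 ⊢
  rw [ric_germ hh, hh.self_of_nhds]
  exact h2

theorem ip_germ (hh : k =ᶠ[𝓝 y] h) (u v : E) : Curv.ip k y u v = Curv.ip h y u v := by
  unfold Curv.ip
  rw [hh.self_of_nhds]

end Pool.Agent.Lib.MP_df705a_gt.Wide
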