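import Pool.Agent.Lib.MP_df705a_gt.Pin.AH2
import Pool.Agent.Lib.MP_df705a_gt.Pin.AG7
import Pool.Agent.Lib.MP_df705a_gt.Mg.G060

/-!
# The oscillation of a map on small sets
-/

open scoped Manifold ContDiff Topology
open Set Bundle Module Filter MeasureTheory

noncomputable section

set_option linter.unusedSectionVars false

namespace Pool.Agent.Lib.MP_df705a_gt.Wide

open Pool.Agent.Lib.MP_df705a_gt.Pin

variable {E : Type*} [NormedAddCommGroup E] [NormedSpace ℝ E] [FiniteDimensional ℝ E]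
  {F : Type*} [NormedAddCommGroup F] [NormedSpace ℝ F] {k : Curv.Coeff E}

/-- If `|dr| ≤ 1` and `r |df| ≤ 1` then `f` varies by at most `2 ε` on balls of radius `ε r`. -/
theorem osc_le (hk : Curv.IsMetric k) (hkp : Proper k) {f : E → F} (hf : ContDiff ℝ 1 f)
    {r : E → ℝ} (hr : ContDiff ℝ 1 r) (hr0 : ∀ y, 0 < r y)
    (hr1 : ∀ y v, (fderiv ℝ r y v) ^ 2 ≤ Curv.ip k y v v)
    (hf1 : ∀ y v, r y ^ 2 * ‖fderiv ℝ f y v‖ ^ 2 ≤ Curv.ip k y v v) {x y : E} {ε : ℝ}
    (hε2 : ε ≤ 1 / 2) (hxy : dh k x y ≤ ε * r x) : ‖f x - f y‖ ≤ 2 * ε := by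
  obtain ⟨Ex, hE⟩ := A.exists_exp hk hkp
  obtain ⟨v, hv, hvy⟩ := A.hopf_rinow hk hkp hE x y
  set l := dh k x y with hl
  have hrx := hr0 x
  have hl0 : 0 ≤ l := dh_nonneg k x y
  have hε0 : 0 ≤ ε := by
    by_contra hcon
    push Not at hcon
    have : ε * r x < 0 := mul_neg_of_neg_of_pos hcon hrx
    linarith
  have hderiv : ∀ t : ℝ, HasDerivAt (fun t : ℝ => f (Ex x (t • v)))
      (fderiv ℝ f (Ex x (t • v)) (A.vel Ex x v t)) t := fun t =>
    (((hf.differentiable (by simp)) (Ex x (t • v))).hasFDerivAt).comp_hasDerivAt t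
      (hE.hasDerivAt x v t)
  have hbound : ∀ t ∈ Ico (0 : ℝ) 1, ‖fderiv ℝ f (Ex x (t • v)) (A.vel Ex x v t)‖ ≤ 2 * ε := by
    intro t ht
    set z := Ex x (t • v) with hz
    have h1 : dh k x z ≤ l := by
      have h2 := hE.dist_le hk x v 0 t
      rw [zero_smul, hE.zero, sub_zero, abs_of_nonneg ht.1, hv] at h2
      exact h2.trans (mul_le_of_le_one_left hl0 ht.2.le)
    have h2 : |r x - r z| ≤ dh k x z := dual hk hr hr1 x z
    have h3 : r x / 2 ≤ r z := by
      have h4 := (abs_le.1 h2).2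
      nlinarith
    have h4 := hf1 z (A.vel Ex x v t)
    have h5 : Curv.ip k z (A.vel Ex x v t) (A.vel Ex x v t) = l ^ 2 := by
      have h6 := hE.speed hk x v t
      rw [hv] at h6
      rw [← A.bf_apply, ← A.nm_sq hk, h6]
    rw [h5] at h4
    have h6 : r z * ‖fderiv ℝ f z (A.vel Ex x v t)‖ ≤ l := by
      rw [← mul_pow] at h4
      exact le_of_sq_le_sq h4 hl0
    have hrz := hr0 z
    have h7 : r x / 2 * ‖fderiv ℝ f z (A.vel Ex x v t)‖ ≤ ε * r x :=
      (mul_le_mul_of_nonneg_right h3 (norm_nonneg _)).trans (h6.trans hxy)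
    have h8 : r x * ‖fderiv ℝ f z (A.vel Ex x v t)‖ ≤ r x * (2 * ε) := by linarith
    exact le_of_mul_le_mul_left h8 hrx
  have h9 := norm_image_sub_le_of_norm_deriv_le_segment_01' (f := fun t : ℝ => f (Ex x (t • v)))
    (f' := fun t => fderiv ℝ f (Ex x (t • v)) (A.vel Ex x v t)) (C := 2 * ε)
    (fun t _ => (hderiv t).hasDerivWithinAt) hbound
  rw [norm_sub_rev]
  simp only [one_smul, zero_smul, hE.zero, hvy] at h9
  exact h9

end Pool.Agent.Lib.MP_df705a_gt.Wide
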