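import Pool.Agent.Lib.MP_df705a_gt.Wide.A2
import Pool.Agent.Lib.MP_df705a_gt.Wide.B1
import Pool.Agent.Lib.MP_df705a_gt.Wide.B2
import Pool.Agent.Lib.MP_df705a_gt.Wide.B3
import Pool.Agent.Lib.MP_df705a_gt.Wide.B4
import Pool.Agent.Lib.MP_df705a_gt.Wide.B5
import Pool.Agent.Lib.MP_df705a_gt.Mg.G029

/-!
# Every metric on a wide band over a closed aspherical manifold has a bad point
-/

open scoped Manifold ContDiff Topology
open Set Bundle Module Filter MeasureTheory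

noncomputable section

set_option linter.unusedSectionVars false

namespace Pool.Agent.Lib.MP_df705a_gt.Wide

open Pool.Agent.Lib.MP_df705a_gt.Twist Pool.Agent.Lib.MP_df705a_gt.Perm
open Pool.Agent.Lib.MP_df705a_gt.Pin
open Pool.Agent.Lib.MP_df705a_gt.Coll (Met)

section general

variable {E' : Type*} [NormedAddCommGroup E'] [NormedSpace ℝ E'] [FiniteDimensional ℝ E']
  {E : Type*} [NormedAddCommGroup E] [NormedSpace ℝ E] [FiniteDimensional ℝ E]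
  {F : Type*} [NormedAddCommGroup F] [InnerProductSpace ℝ F] [FiniteDimensional ℝ F]
  {X : Type*} [TopologicalSpace X] [ChartedSpace E' X] [IsManifold 𝓘(ℝ, E') ∞ X]
  {M : Type*} [TopologicalSpace M] [ChartedSpace E M] [IsManifold 𝓘(ℝ, E) ∞ M]
  {p : X → M} {t : X → F} {Q : E' → X}

/-- The metric `Q^* g`. -/
def up (g : Met E' X) (Q : E' → X) : Curv.Coeff E' :=
  st g Q (fun _ : E' => (0 : EuclideanSpace ℝ (Fin 0)))

theorem ip_up (g : Met E' X) (Q : E' → X) (y v : E') : Curv.ip (up g Q) y v v =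
    g.inner (Q y) (mfderiv 𝓘(ℝ, E') 𝓘(ℝ, E') Q y v) (mfderiv 𝓘(ℝ, E') 𝓘(ℝ, E') Q y v) := by
  unfold up
  rw [ip_st]
  have h1 : ∀ a b : EuclideanSpace ℝ (Fin 0), inner ℝ a b = 0 := fun a b => by
    rw [Subsingleton.elim a 0, inner_zero_left]
  rw [h1, add_zero]

theorem inv_up (H : ProductCover E p t Q) (g : Met E' X) : Inv (p ∘ Q) (t ∘ Q) (up g Q) 0 := by
  intro γ hγ hγq w v
  refine ip_lift g H.stable hγ (a := 0) (fun w => ⟨H.inj (Prod.ext (hγq w).1 ?_), ?_⟩) w v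
  · have h1 := (hγq w).2
    rw [add_zero] at h1
    exact h1
  · rw [add_zero]

theorem grad_up (H : ProductCover E p t Q) (g : Met E' X) {ρ : X → ℝ} {f : X → F}
    (hρ : ContMDiff 𝓘(ℝ, E') 𝓘(ℝ, ℝ) 1 ρ) (hf : ContMDiff 𝓘(ℝ, E') 𝓘(ℝ, F) 1 f) {y : E'}
    (hg : GradLe g ρ f (Q y)) (v : E') :
    (fderiv ℝ (ρ ∘ Q) y v) ^ 2 ≤ Curv.ip (up g Q) y v v ∧
      (ρ ∘ Q) y ^ 2 * ‖fderiv ℝ (f ∘ Q) y v‖ ^ 2 ≤ Curv.ip (up g Q) y v v := by
  have h1 := hg (mfderiv 𝓘(ℝ, E') 𝓘(ℝ, E') Q y v)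
  rw [ip_up, fderiv_tQ hf H.smooth_Q]
  have h2 : fderiv ℝ (ρ ∘ Q) y v =
      (mfderiv 𝓘(ℝ, E') 𝓘(ℝ, ℝ) ρ (Q y) (mfderiv 𝓘(ℝ, E') 𝓘(ℝ, E') Q y v) : ℝ) := by
    rw [← mfderiv_eq_fderiv, mfderiv_comp (I := 𝓘(ℝ, E')) (I' := 𝓘(ℝ, E')) (I'' := 𝓘(ℝ, ℝ)) y
      ((hρ.mdifferentiable (by simp)) (Q y)) ((H.smooth_Q.mdifferentiable (by simp)) y)]
    rfl
  rw [h2]
  exact h1

theorem norm_sub_le_dh {h : Curv.Coeff E'} (hh : Curv.IsMetric h) {s : E' → F}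
    (hs : ContDiff ℝ 1 s) (hs1 : ∀ y v, ‖fderiv ℝ s y v‖ ^ 2 ≤ Curv.ip h y v v) (x y : E') :
    ‖s x - s y‖ ≤ dh h x y := by
  rcases eq_or_ne (s x - s y) 0 with h0 | h0
  · rw [h0, norm_zero]
    exact dh_nonneg h x y
  · have hn : 0 < ‖s x - s y‖ := norm_pos_iff.2 h0
    set e : F := ‖s x - s y‖⁻¹ • (s x - s y) with he
    have hen : ‖e‖ = 1 := by
      rw [he, norm_smul, norm_inv, norm_norm, inv_mul_cancel₀ hn.ne']
    have hc : ContDiff ℝ 1 fun z => inner ℝ e (s z) := contDiff_const.inner ℝ hs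
    have hd : ∀ z v, fderiv ℝ (fun z => inner ℝ e (s z)) z v = inner ℝ e (fderiv ℝ s z v) := by
      intro z v
      have h1 : HasFDerivAt (fun z => inner ℝ e (s z)) ((ri F e).comp (fderiv ℝ s z)) z :=
        (ri F e).hasFDerivAt.comp z ((hs.differentiable (by simp)) z).hasFDerivAt
      rw [h1.fderiv]
      rfl
    have h1 := dual hh hc (fun z v => by
      rw [hd]
      have h2 : |inner ℝ e (fderiv ℝ s z v)| ≤ ‖fderiv ℝ s z v‖ := by
        have h3 := abs_real_inner_le_norm e (fderiv ℝ s z v)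
        rwa [hen, one_mul] at h3
      rw [← sq_abs]
      exact (pow_le_pow_left₀ (abs_nonneg _) h2 2).trans (hs1 z v)) x y
    have h2 : inner ℝ e (s x) - inner ℝ e (s y) = ‖s x - s y‖ := by
      rw [← inner_sub_right, he, real_inner_smul_left, real_inner_self_eq_norm_sq]
      field_simp
    rw [h2, abs_norm] at h1
    exact h1

/-- A continuous function is bounded over bounded subsets of `F`. -/
theorem exists_bound_over [CompactSpace M] (H : ProductCover E p t Q) {ρ : X → ℝ}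
    (hρ : Continuous ρ) (R : ℝ) : ∃ B : ℝ, ∀ x, ‖t x‖ ≤ R → ρ x ≤ B := by
  have h1 : IsCompact (H.homeo.symm '' ((univ : Set M) ×ˢ Metric.closedBall (0 : F) R)) :=
    (isCompact_univ.prod (isCompact_closedBall 0 R)).image H.homeo.symm.continuous
  obtain ⟨B, hB⟩ := h1.bddAbove_image (f := ρ) hρ.continuousOn
  refine ⟨B, fun x hx => hB ⟨x, ⟨H.homeo x, ⟨mem_univ _, ?_⟩, H.homeo.symm_apply_apply x⟩, rfl⟩⟩
  rw [H.homeo_apply]
  simpa using hx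

end general

/-- **Every metric on a wide band over a closed aspherical manifold has a bad point.** -/
theorem wide.{v, w} (N : ℕ) (hN : 2 ≤ N) (Λ : ℝ) : ∃ C : ℝ, 0 < C ∧ ∀ (n m : ℕ)
    (M : Type v) [TopologicalSpace M] [ChartedSpace (EuclideanSpace ℝ (Fin n)) M]
    [IsManifold 𝓘(ℝ, EuclideanSpace ℝ (Fin n)) ∞ M] [CompactSpace M]
    (X : Type w) [TopologicalSpace X] [ChartedSpace (EuclideanSpace ℝ (Fin N)) X]
    [IsManifold 𝓘(ℝ, EuclideanSpace ℝ (Fin N)) ∞ X]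
    (p : X → M) (t : X → EuclideanSpace ℝ (Fin m)) (Q : EuclideanSpace ℝ (Fin N) → X),
    ProductCover (EuclideanSpace ℝ (Fin n)) p t Q →
    ∀ (g : Met (EuclideanSpace ℝ (Fin N)) X) (f : X → EuclideanSpace ℝ (Fin m)) (ρ : X → ℝ),
      ContMDiff 𝓘(ℝ, EuclideanSpace ℝ (Fin N)) 𝓘(ℝ, EuclideanSpace ℝ (Fin m)) 1 f →
      (∃ c : ℝ, ∀ x, ‖f x - t x‖ ≤ c) →
      ContMDiff 𝓘(ℝ, EuclideanSpace ℝ (Fin N)) 𝓘(ℝ, ℝ) 1 ρ → (∀ x, 0 < ρ x) →
      (∀ x, ‖f x‖ < 1 → GradLe g ρ f x) →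
      ∀ w : X → ℝ, Sm (EuclideanSpace ℝ (Fin N)) w → (∀ x, 1 ≤ w x) → (∀ x, w x ≤ Λ) →
      ∀ (γ : ℝ) (u : X → ℝ), 0 ≤ γ → Sm (EuclideanSpace ℝ (Fin N)) u → (∀ x, 0 < u x) →
        ∃ b : X, ‖f b‖ < 1 ∧ BadN g C γ ρ w u b := by
  obtain ⟨C₀, hC₀, hwd⟩ := Kat.E5_width2 N hN Λ
  obtain ⟨ε, hε⟩ : ∃ ε : ℝ, ε = 1 / 32 := ⟨_, rfl⟩
  have hε0 : 0 < ε := by norm_num [hε]
  refine ⟨C₀ / ε ^ 2, by positivity, ?_⟩
  intro n m M _ _ _ _ X _ _ _ p t Q H g f ρ hf hft hρ hρ0 hgrad w hw hw1 hwΛ γ u hγ hu hu0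
  by_contra hno
  push Not at hno
  obtain ⟨c, hc⟩ := hft
  set h := up g Q with hh'
  have hh : Curv.IsMetric h := isMetric_st g H.stable
  obtain ⟨h₀, K, G, G', T, hh₀, hG, hT, hT0, hTq, hTs, hTd, hds, -, hcmp⟩ :=
    exists_ref H.cover hh (inv_up H g)
  have hp₀ : Proper h₀ := proper_of_coCpt hh₀ hG
  have hd := isD_dh hh₀ hp₀
  have hfQ : ContDiff ℝ 1 (f ∘ Q) := (hf.comp (H.smooth_Q.of_le (by simp))).contDiff
  have hρQ : ContDiff ℝ 1 (ρ ∘ Q) := (hρ.comp (H.smooth_Q.of_le (by simp))).contDiff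
  have htb : ∀ x, ‖f x‖ < 1 → ‖t x‖ ≤ 1 + c := by
    intro x hx
    have h1 : t x = f x - (f x - t x) := by abel
    rw [h1]
    have h2 := norm_sub_le (f x) (f x - t x)
    have h3 := hc x
    linarith
  obtain ⟨c₁, hc₁, hc₁'⟩ := hcmp (1 + c)
  obtain ⟨k, c', hk, hkp, hc', hkd, hkh, hkr, hkf⟩ := exists_hat hh hh₀ hp₀ hfQ hρQ
    (fun y hy v => (grad_up H g hρ hf (hgrad (Q y) hy) v).1)
    (fun y hy v => (grad_up H g hρ hf (hgrad (Q y) hy) v).2) hc₁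
    (fun y hy v => hc₁' y (htb (Q y) hy) v)
  set r : EuclideanSpace ℝ (Fin N) → ℝ := ρ ∘ Q with hr
  have hr0 : ∀ x, 0 < r x := fun x => hρ0 (Q x)
  have hfr : finrank ℝ (EuclideanSpace ℝ (Fin N)) = N := by simp
  have hwt : Kat.Wt (w ∘ Q) Λ := ⟨contDiff_comp_q' H.stable hw, fun y => hw1 (Q y),
    fun y => hwΛ (Q y)⟩
  set B : Set (EuclideanSpace ℝ (Fin N)) := {y | 3 / 4 ≤ ‖(f ∘ Q) y‖} with hB
  have hnB : ∀ y, y ∉ B → ‖(f ∘ Q) y‖ < 3 / 4 := fun y hy => not_le.1 hy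
  have hlip : ∀ x y, |r x - r y| ≤ dh k x y := fun x y => dual hk hρQ hkr x y
  have hgood : ∀ y, y ∉ B → (0 ≤ tauN g ρ w (Q y) ∧ MRicGe g (tauN g ρ w (Q y)) (Q y)) ∧
      C₀ / ε ^ 2 * (1 + γ) / ρ (Q y) ^ 2 * u (Q y) < Scal g (Q y) * u (Q y) -
        γ * Lap g u (Q y) := by
    intro y hy
    have h1 := hno (Q y) (by
      have := hnB y hy
      show ‖(f ∘ Q) y‖ < 1
      linarith)
    unfold BadN at h1
    push Not at h1
    exact ⟨h1.1, h1.2⟩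
  obtain ⟨J, hJ, V, Y, hVc, hVl, hYc, hcov, hm, hmY, hdiam, hYB⟩ :=
    hwd k (w ∘ Q) hk hkp hwt (fun y => ε * r y) (fun y => mul_pos hε0 (hr0 y)) (fun x y => by
      rw [← mul_sub, abs_mul, abs_of_pos hε0]
      calc ε * |r x - r y| ≤ 1 * |r x - r y| :=
            mul_le_mul_of_nonneg_right (by norm_num [hε]) (abs_nonneg _)
        _ ≤ dh k x y := by rw [one_mul]; exact hlip x y) B
    (fun y hy => by
      apply gd_germ (hkh y (hnB y hy))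
      have h1 := (hgood y hy).1
      have h3 := hr0 y
      have h4 : Kat.ta h (w ∘ Q) (1 / r y ^ 2) y = tauN g ρ w (Q y) := by
        unfold Kat.ta tauN
        rw [hh']
        unfold up
        rw [lap_st g H.stable hw y]
        rfl
      have h6 : Kat.Gd h (w ∘ Q) (1 / r y ^ 2) y := by
        unfold Kat.Gd
        rw [h4]
        exact ⟨h1.1, ricGe_st g H.stable h1.1 h1.2⟩
      refine h6.mono hh ?_
      show 1 / r y ^ 2 ≤ 1 / (ε * r y) ^ 2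
      apply one_div_le_one_div_of_le (by positivity)
      exact pow_le_pow_left₀ (by positivity)
        (mul_le_of_le_one_left h3.le (by norm_num [hε])) 2)
    γ (u ∘ Q) hγ (contDiff_comp_q' H.stable hu) (fun y => hu0 (Q y)) (by
      intro y hy
      have h1 := (hgood y hy).2
      rw [lapC_germ (hkh y (hnB y hy)), scal_germ (hkh y (hnB y hy)), hh']
      unfold up
      rw [lap_st g H.stable hu y, scal_st g H.stable y]
      have h2 : C₀ * (1 + γ) / (ε * r y) ^ 2 = C₀ / ε ^ 2 * (1 + γ) / ρ (Q y) ^ 2 := by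
        have h3 := hr0 y
        show C₀ * (1 + γ) / (ε * r y) ^ 2 = C₀ / ε ^ 2 * (1 + γ) / r y ^ 2
        field_simp
      rw [h2]
      show γ * Lap g u (Q y) < (Scal g (Q y) - C₀ / ε ^ 2 * (1 + γ) / ρ (Q y) ^ 2) * u (Q y)
      linarith)
  have hosc : ∀ j, ∀ x ∈ V j, ∀ y ∈ V j, ‖(f ∘ Q) x - (f ∘ Q) y‖ ≤ 1 / 16 := by
    intro j x hx y hy
    have h1 := osc_le hk hkp hfQ hρQ hr0 hkr hkf (ε := ε) (by norm_num [hε]) (hdiam j x hx y hy)
    refine h1.trans (by norm_num [hε])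
  obtain ⟨D, hD⟩ := exists_bound_over H hρ.continuous (1 + c)
  have hD' : ∀ y, ‖(f ∘ Q) y‖ < 1 → r y ≤ D := fun y hy => hD (Q y) (htb (Q y) hy)
  let J' : Type := {j : J // ∃ x ∈ V j, ‖(f ∘ Q) x‖ ≤ 1 / 2}
  have : Nontrivial (EuclideanSpace ℝ (Fin N)) := by
    apply nontrivial_of_finrank_pos (R := ℝ)
    rw [hfr]; omega
  have hs1 : ContDiff ℝ 1 (t ∘ Q) := H.cover.smooth_s.of_le (by simp)
  refine no_ball_cover hd hG hs1 (norm_sub_le_dh hh₀ hs1 hds) (hT.of_le (by simp)) hT0 hTs hTd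
    hfQ.continuous (fun x => hc (Q x)) (J := J') (V := fun j => V j.1)
    (hVl.comp_injective Subtype.val_injective) (fun j => hVc j.1) ?_ ?_ (D := c' * (ε * D)) ?_
    (fun j => hosc j.1)
  · intro x hx
    rcases hcov x with h1 | ⟨j, hj⟩
    · exfalso
      obtain ⟨b, hb, hxb⟩ := hYB x h1
      have hrx := hr0 x
      have h2 := osc_le hk hkp hfQ hρQ hr0 hkr hkf (ε := ε) (by norm_num [hε]) (x := x) (y := b)
        (by
          have h3 : dh k x b < ε * r x / 2 := hxb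
          have h4 : 0 < ε * r x := mul_pos hε0 hrx
          linarith)
      have h2' : 2 * ε = 1 / 16 := by norm_num [hε]
      have h3 : 3 / 4 ≤ ‖(f ∘ Q) b‖ := hb
      have h4 : (f ∘ Q) b = (f ∘ Q) x - ((f ∘ Q) x - (f ∘ Q) b) := by abel
      rw [h4] at h3
      have h5 := norm_sub_le ((f ∘ Q) x) ((f ∘ Q) x - (f ∘ Q) b)
      linarith
    · exact ⟨⟨j, x, hj, hx⟩, hj⟩
  · intro x
    rw [hfr]
    refine le_trans ?_ (hm x)
    rw [← Subtype.val_injective.encard_image]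
    apply Set.encard_le_encard
    rintro _ ⟨j, hj, rfl⟩
    exact hj
  · rintro ⟨j, x₀, hx₀, hfx₀⟩ x hx y hy
    refine (hkd x y).trans (mul_le_mul_of_nonneg_left ?_ hc'.le)
    refine (hdiam j x hx y hy).trans (mul_le_mul_of_nonneg_left (hD' x ?_) hε0.le)
    have h1 := hosc j x hx x₀ hx₀
    have h4 : (f ∘ Q) x = (f ∘ Q) x₀ + ((f ∘ Q) x - (f ∘ Q) x₀) := by abel
    rw [h4]
    have h5 := norm_add_le ((f ∘ Q) x₀) ((f ∘ Q) x - (f ∘ Q) x₀)
    linarith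

end Pool.Agent.Lib.MP_df705a_gt.Wide
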