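import Pool.Agent.Lib.MP_df705a_gt.Mg.G021
import Pool.Agent.Lib.MP_df705a_gt.Wide.B1
import Pool.Agent.Lib.MP_df705a_gt.Wide.B2

/-!
# Components of the preimage of an open set of infinite index are not coarsely dense
-/

open scoped Manifold ContDiff Topology
open Set Bundle Module Filter MeasureTheory

noncomputable section

set_option linter.unusedSectionVars false

namespace Pool.Agent.Lib.MP_df705a_gt.Wide

open Pool.Agent.Lib.MP_df705a_gt.Pin
open Pool.Agent.Lib.MP_df705a_gt.Coll (Met)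

section abstract

variable {X M : Type*} [TopologicalSpace X] [TopologicalSpace M] {q : X → M}
  {W V : Set M}

/-- **Components and coarse density.** -/
theorem sparse_orbit {S : Type*} {σ : X → S} [LocallyConnectedSpace X] (hqc : Continuous q) (hqo : IsOpenMap q)
    (hqs : Function.Surjective q) {d : X → X → ℝ} (hp : ∀ x r, IsCompact {y | d x y ≤ r})
    (deck : ∀ x z, q z = q x → σ z = σ x → ∃ γ : X ≃ₜ X, (∀ w, q (γ w) = q w) ∧
      (∀ w, σ (γ w) = σ w) ∧ (∀ y w, d (γ y) (γ w) = d y w) ∧ γ x = z) (hσq : ∀ x z, q z = q x → σ z = σ x) {Y : Set M} (hW : IsOpen W) (hY : IsClosed Y)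
    (hYW : Y ⊆ W) (hinf : ∀ x ∈ W, {C : Set X | ∃ y ∈ q ⁻¹' connectedComponentIn W x,
      C = connectedComponentIn (q ⁻¹' connectedComponentIn W x) y}.Infinite) :
    ∀ y₀ ∈ q ⁻¹' W, ∀ R : ℝ, ∃ y, σ y = σ y₀ ∧
      ∀ x ∈ q ⁻¹' Y ∩ connectedComponentIn (q ⁻¹' W) y₀, R < d y x := by
  intro y₀ hy₀ R
  by_contra hcon
  push Not at hcon
  have hWo : IsOpen (q ⁻¹' W) := hW.preimage hqc
  set V := connectedComponentIn W (q y₀) with hV
  have hy₀V : q y₀ ∈ V := mem_connectedComponentIn hy₀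
  set C₀ := connectedComponentIn (q ⁻¹' W) y₀ with hC₀
  let Orb : X → Prop := fun y => ∃ γ : X ≃ₜ X, (∀ w, q (γ w) = q w) ∧
    (∀ w, σ (γ w) = σ w) ∧ (∀ y w, d (γ y) (γ w) = d y w) ∧ connectedComponentIn (q ⁻¹' W) y = γ '' C₀
  have hOrb : ∀ y y', y ∈ q ⁻¹' W → q y' = q y → Orb y → Orb y' := by
    rintro y y' hy hyy ⟨γ, h1, h1', h2, h3⟩
    obtain ⟨δ, e1, e1', e2, e3⟩ := deck y y' hyy (hσq _ _ hyy)
    refine ⟨γ.trans δ, fun w => ?_, fun w => ?_, fun a b => ?_, ?_⟩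
    · show q (δ (γ w)) = q w
      rw [e1, h1]
    · show σ (δ (γ w)) = σ w
      rw [e1', h1']
    · show d (δ (γ a)) (δ (γ b)) = d a b
      rw [e2, h2]
    · rw [← e3, ← comp_image δ e1 hy, h3, image_image]
      rfl
  have hopen : ∀ Q : X → Prop, (∀ y y', y' ∈ connectedComponentIn (q ⁻¹' W) y → Q y → Q y') →
      IsOpen (q '' {y | q y ∈ V ∧ Q y}) := by
    intro Q hQ
    apply hqo
    rw [isOpen_iff_mem_nhds]
    rintro y ⟨hyV, hyQ⟩
    have hyW : y ∈ q ⁻¹' W := connectedComponentIn_subset W _ hyV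
    refine Filter.mem_of_superset (connectedComponentIn_mem_nhds (hWo.mem_nhds hyW)) ?_
    intro y' hy'
    refine ⟨?_, hQ y y' hy' hyQ⟩
    rw [← comp_preimage hqc hyV] at hy'
    have h1 := connectedComponentIn_subset (q ⁻¹' connectedComponentIn W (q y₀)) y hy'
    exact h1
  have hOrb1 : ∀ y y', y' ∈ connectedComponentIn (q ⁻¹' W) y → Orb y → Orb y' := by
    rintro y y' hy' ⟨γ, h1, h1', h2, h3⟩
    exact ⟨γ, h1, h1', h2, by rw [← connectedComponentIn_eq hy', h3]⟩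
  have hOrb2 : ∀ y y', y' ∈ connectedComponentIn (q ⁻¹' W) y → ¬ Orb y → ¬ Orb y' := by
    rintro y y' hy' hn ⟨γ, h1, h1', h2, h3⟩
    exact hn ⟨γ, h1, h1', h2, by rw [connectedComponentIn_eq hy', h3]⟩
  -- all components over `V` are translates of `C₀`
  have hall : ∀ y, q y ∈ V → Orb y := by
    by_contra hne
    push Not at hne
    obtain ⟨y₁, hy₁, hn₁⟩ := hne
    have hVc : IsPreconnected V := isPreconnected_connectedComponentIn
    obtain ⟨m, hm, ⟨a, ⟨ha1, ha2⟩, ha3⟩, ⟨b, ⟨hb1, hb2⟩, hb3⟩⟩ := hVc _ _ (hopen Orb hOrb1)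
      (hopen (fun y => ¬ Orb y) hOrb2) (by
        intro m hm
        obtain ⟨y, rfl⟩ := hqs m
        by_cases hy : Orb y
        · exact Or.inl ⟨y, ⟨hm, hy⟩, rfl⟩
        · exact Or.inr ⟨y, ⟨hm, hy⟩, rfl⟩)
      ⟨q y₀, hy₀V, y₀, ⟨hy₀V, Homeomorph.refl X, fun w => rfl, fun w => rfl, fun y w => rfl,
        by simp [hC₀]⟩, rfl⟩
      ⟨q y₁, hy₁, y₁, ⟨hy₁, hn₁⟩, rfl⟩
    refine hb2 (hOrb a b ?_ (hb3.trans ha3.symm) ha2)
    exact connectedComponentIn_subset W _ ha1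
  -- they meet a fixed compact set
  have hK : IsCompact ({x | d y₀ x ≤ R} ∩ q ⁻¹' Y) :=
    (hp y₀ R).inter_right (hY.preimage hqc)
  obtain ⟨t, ht⟩ := hK.elim_finite_subcover (fun y => connectedComponentIn (q ⁻¹' W) y)
    (fun y => hWo.connectedComponentIn) (fun x hx => mem_iUnion.2 ⟨x,
      mem_connectedComponentIn (hYW hx.2)⟩)
  refine hinf (q y₀) hy₀ ((t.finite_toSet.image fun y => connectedComponentIn (q ⁻¹' W) y).subset ?_)
  rintro C ⟨y, hy, rfl⟩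
  rw [comp_preimage hqc hy]
  obtain ⟨γ, h1, h1', h2, h3⟩ := hall y hy
  obtain ⟨x, ⟨hx1, hx2⟩, hx3⟩ := hcon (γ.symm y₀) (by
    rw [← h1', γ.apply_symm_apply])
  have h4 : γ x ∈ {x | d y₀ x ≤ R} ∩ q ⁻¹' Y := by
    constructor
    · show d y₀ (γ x) ≤ R
      rw [← h2, γ.apply_symm_apply] at hx3
      exact hx3
    · show q (γ x) ∈ Y
      rw [h1]
      exact hx1
  obtain ⟨z, hz, hxz⟩ := mem_iUnion₂.1 (ht h4)
  have h5 : γ x ∈ connectedComponentIn (q ⁻¹' W) y := by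
    rw [h3]
    exact mem_image_of_mem γ hx2
  refine ⟨z, hz, ?_⟩
  show connectedComponentIn (q ⁻¹' W) z = connectedComponentIn (q ⁻¹' W) y
  rw [connectedComponentIn_eq hxz, connectedComponentIn_eq h5]

end abstract

variable {E' : Type*} [NormedAddCommGroup E'] [NormedSpace ℝ E'] [FiniteDimensional ℝ E']
  {E : Type*} [NormedAddCommGroup E] [NormedSpace ℝ E] [FiniteDimensional ℝ E]
  {F : Type*} [NormedAddCommGroup F] [InnerProductSpace ℝ F] [FiniteDimensional ℝ F]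
  {X : Type*} [TopologicalSpace X] [ChartedSpace E' X] [IsManifold 𝓘(ℝ, E') ∞ X]
  {M : Type*} [TopologicalSpace M] [ChartedSpace E M] [IsManifold 𝓘(ℝ, E) ∞ M]
  {p : X → M} {t : X → F} {Q : E' → X}

/-- Let `A` be open in `X` such that the preimages of its components have infinitely many components,
and let the closed set `Z ⊆ A` lie over a bounded subset of `F`. Then for every component `C` of the
preimage of `A` there are points `y` over `0` with arbitrary large distance from the part of `C` over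
`Z`. -/
theorem sparse_over (H : ProductCover E p t Q) {h₀ : Curv.Coeff E'} (hh₀ : Curv.IsMetric h₀)
    (hp : Proper h₀) (hi : Inv (p ∘ Q) (t ∘ Q) h₀ 0) {T : F → E' → E'}
    (hTs : ∀ a y, (t ∘ Q) (T a y) = (t ∘ Q) y + a) (hTd : ∀ a y, dh h₀ y (T a y) ≤ ‖a‖)
    {A Z : Set X} (hA : IsOpen A) (hZ : IsClosed Z) (hZA : Z ⊆ A) {R₀ : ℝ}
    (hZt : ∀ x ∈ Z, ‖t x‖ ≤ R₀)
    (hinf : ∀ x ∈ A, {C : Set E' | ∃ y ∈ Q ⁻¹' connectedComponentIn A x,
      C = connectedComponentIn (Q ⁻¹' connectedComponentIn A x) y}.Infinite) :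
    ∀ y₀ ∈ Q ⁻¹' A, ∀ R : ℝ, ∃ y, (t ∘ Q) y = 0 ∧
      ∀ x ∈ Q ⁻¹' Z ∩ connectedComponentIn (Q ⁻¹' A) y₀, R < dh h₀ y x := by
  intro y₀ hy₀ R
  by_cases hne : (Q ⁻¹' Z ∩ connectedComponentIn (Q ⁻¹' A) y₀).Nonempty
  · obtain ⟨y₁, hy₁Z, hy₁C⟩ := hne
    have hy₁A : y₁ ∈ Q ⁻¹' A := hZA hy₁Z
    have hC : connectedComponentIn (Q ⁻¹' A) y₀ = connectedComponentIn (Q ⁻¹' A) y₁ :=
      connectedComponentIn_eq hy₁C
    obtain ⟨y, hys, hy⟩ := sparse_orbit (σ := t ∘ Q) H.smooth_Q.continuous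
      (q_isOpenMap H.stable) H.surj_Q hp (by
        intro x z hxz hs
        obtain ⟨γ, γ', hγ, hγ', h1, h2, h3, h4, h5⟩ := exists_lift H.cover (x := x) (z := z)
          (a := 0) (congrArg p hxz) (by rw [add_zero]; exact hs)
        have h4' : ∀ w, (p ∘ Q) (γ' w) = (p ∘ Q) w ∧ (t ∘ Q) (γ' w) = (t ∘ Q) w + 0 := fun w =>
          ⟨(h4 w).1, by rw [(h4 w).2]; abel⟩
        have hs1 := contDiff_lift H.cover hγ h3
        have hs2 := contDiff_lift H.cover hγ' h4'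
        refine ⟨⟨⟨γ, γ', h2, h1⟩, hγ, hγ'⟩, fun w => H.inj (Prod.ext (h3 w).1 ?_), fun w => ?_,
          fun y w => ?_, h5⟩
        · have a1 := (h3 w).2
          rw [add_zero] at a1
          exact a1
        · have a1 := (h3 w).2
          rw [add_zero] at a1
          exact a1
        · show dh h₀ (γ y) (γ w) = dh h₀ y w
          apply le_antisymm
          · exact dh_map_le hh₀ (hs1.of_le (by simp)) (fun w v => hi γ hs1 h3 w v) y w
          · have h8 := dh_map_le hh₀ (hs2.of_le (by simp)) (fun w v => hi γ' hs2 h4' w v) (γ y) (γ w)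
            rwa [h2, h2] at h8) (fun x z hxz => congrArg t hxz) hA hZ hZA hinf y₁ hy₁A (R + R₀)
    refine ⟨T (-(t ∘ Q) y) y, by rw [hTs, add_neg_cancel], fun x hx => ?_⟩
    rw [hC] at hx
    have h1 := hy x hx
    have h2 := dh_triangle hh₀ y (T (-(t ∘ Q) y) y) x
    have h3 := hTd (-(t ∘ Q) y) y
    have h4 : ‖(t ∘ Q) y‖ ≤ R₀ := by
      rw [hys]
      exact hZt _ hy₁Z
    rw [norm_neg] at h3
    linarith
  · obtain ⟨z, hz⟩ := H.surj_pt (p (Q y₀), 0)
    obtain ⟨y, rfl⟩ := H.surj_Q z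
    refine ⟨y, congrArg Prod.snd hz, fun x hx => absurd ⟨x, hx⟩ hne⟩

end Pool.Agent.Lib.MP_df705a_gt.Wide
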