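import Pool.Agent.Lib.MP_df705a_gt.Wide.B6
import Pool.Agent.Lib.MP_df705a_gt.Pin.E7

/-!
# Riemannian distances in the manifold and in its covering
-/

open scoped Manifold ContDiff Topology ENNReal
open Set Bundle Module Filter MeasureTheory

noncomputable section

set_option linter.unusedSectionVars false

namespace Pool.Agent.Lib.MP_df705a_gt.Wide

open Pool.Agent.Lib.MP_df705a_gt.Pin
open Pool.Agent.Lib.MP_df705a_gt.Coll (Met)

variable {E' : Type*} [NormedAddCommGroup E'] [NormedSpace ℝ E'] [FiniteDimensional ℝ E']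
  {E : Type*} [NormedAddCommGroup E] [NormedSpace ℝ E] [FiniteDimensional ℝ E]
  {F : Type*} [NormedAddCommGroup F] [InnerProductSpace ℝ F] [FiniteDimensional ℝ F]
  {X : Type*} [TopologicalSpace X] [ChartedSpace E' X] [IsManifold 𝓘(ℝ, E') ∞ X]
  {M : Type*} [TopologicalSpace M] [ChartedSpace E M] [IsManifold 𝓘(ℝ, E) ∞ M]
  {p : X → M} {t : X → F} {Q : E' → X}

/-- The distance of the ends of the image of a curve. -/
theorem mdist_le_curve (g : Met E' X) (hQ : ContMDiff 𝓘(ℝ, E') 𝓘(ℝ, E') ∞ Q) {c : ℝ → E'}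
    (hc : ContDiff ℝ ∞ c) {L : ℝ}
    (hL : ∀ τ ∈ Icc (0 : ℝ) 1, √ (Curv.ip (up g Q) (c τ) (deriv c τ) (deriv c τ)) ≤ L) :
    mdist g (Q (c 0)) (Q (c 1)) ≤ ENNReal.ofReal L := by
  have hγ : ContMDiff 𝓘(ℝ, ℝ) 𝓘(ℝ, E') 1 fun τ : ℝ => Q (c τ) :=
    (hQ.comp hc.contMDiff).of_le (by exact_mod_cast le_top)
  let I0 : ∀ x : X, ENorm (TangentSpace 𝓘(ℝ, E') x) :=
    fun x => ⟨fun v => ENNReal.ofReal (√ (g.inner x v v))⟩
  let I1 : ∀ x : X, ENormSMulClass ℝ (TangentSpace 𝓘(ℝ, E') x) :=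
    fun x => ⟨fun r v => enorm_smul_met g x r v⟩
  show Manifold.riemannianEDist 𝓘(ℝ, E') (Q (c 0)) (Q (c 1)) ≤ _
  refine (Manifold.riemannianEDist_le_pathELength (I := 𝓘(ℝ, E')) (a := 0) (b := 1)
    hγ.contMDiffOn rfl rfl zero_le_one).trans ?_
  rw [Manifold.pathELength_eq_lintegral_mfderiv_Icc]
  have hpt : ∀ τ ∈ Icc (0 : ℝ) 1,
      ‖mfderiv 𝓘(ℝ, ℝ) 𝓘(ℝ, E') (fun τ : ℝ => Q (c τ)) τ (1 : ℝ)‖ₑ ≤ ENNReal.ofReal L := by
    intro τ hτ
    have h1 : mfderiv 𝓘(ℝ, ℝ) 𝓘(ℝ, E') (fun τ : ℝ => Q (c τ)) τ (1 : ℝ) =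
        mfderiv 𝓘(ℝ, E') 𝓘(ℝ, E') Q (c τ) (deriv c τ) := by
      have h2 := mfderiv_comp τ (g := Q) (f := c)
        (hQ.mdifferentiableAt (by simp)) (hc.contMDiff.mdifferentiableAt (by simp))
      show mfderiv 𝓘(ℝ, ℝ) 𝓘(ℝ, E') (Q ∘ c) τ (1 : ℝ) = _
      rw [h2]
      have h3 : mfderiv 𝓘(ℝ, ℝ) 𝓘(ℝ, E') c τ (1 : ℝ) = deriv c τ := by
        rw [mfderiv_eq_fderiv]
        rfl
      show mfderiv 𝓘(ℝ, E') 𝓘(ℝ, E') Q (c τ)
        (mfderiv 𝓘(ℝ, ℝ) 𝓘(ℝ, E') c τ (1 : ℝ)) = _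
      rw [h3]
      rfl
    rw [h1]
    show ENNReal.ofReal (√ (g.inner _ _ _)) ≤ _
    refine ENNReal.ofReal_le_ofReal ?_
    have h4 := hL τ hτ
    rw [ip_up] at h4
    exact h4
  refine (setLIntegral_mono' measurableSet_Icc hpt).trans ?_
  rw [setLIntegral_const, Real.volume_Icc]
  simp

/-- The distance function is continuous on the diagonal. -/
theorem eventually_mdist_lt (H : ProductCover E p t Q) (g : Met E' X) (z : X) {δ : ℝ}
    (hδ : 0 < δ) : ∀ᶠ x in 𝓝 z, mdist g z x < ENNReal.ofReal δ := by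
  obtain ⟨k, rfl⟩ := H.surj_Q z
  have hh : Curv.IsMetric (up g Q) := isMetric_st g H.stable
  have : ProperSpace E' := FiniteDimensional.proper_real E'
  obtain ⟨a, b, ha, hb, hab⟩ := A.nm_compact hh (isCompact_closedBall k 1)
  have h1 : Metric.ball k (min 1 (δ / b)) ∈ 𝓝 k :=
    Metric.ball_mem_nhds k (lt_min one_pos (by positivity))
  have h2 : Q '' Metric.ball k (min 1 (δ / b)) ∈ 𝓝 (Q k) :=
    (q_isOpenMap H.stable).image_mem_nhds h1
  filter_upwards [h2]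
  rintro _ ⟨y, hy, rfl⟩
  rw [Metric.mem_ball, dist_eq_norm] at hy
  have hc : ContDiff ℝ ∞ fun τ : ℝ => k + τ • (y - k) :=
    contDiff_const.add (contDiff_id.smul contDiff_const)
  have hcd : ∀ τ : ℝ, deriv (fun τ : ℝ => k + τ • (y - k)) τ = y - k := by
    intro τ
    have h3 : HasDerivAt (fun τ : ℝ => k + τ • (y - k)) (y - k) τ := by
      have := ((hasDerivAt_id τ).smul_const (y - k)).const_add k
      simpa using this
    exact h3.deriv
  have h3 := mdist_le_curve g H.smooth_Q hc (L := b * ‖y - k‖) (fun τ hτ => by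
    rw [hcd]
    refine (hab (k + τ • (y - k)) ?_ (y - k)).2
    rw [Metric.mem_closedBall, dist_eq_norm, add_sub_cancel_left, norm_smul, Real.norm_eq_abs,
      abs_of_nonneg hτ.1]
    have h4 : ‖y - k‖ ≤ 1 := (hy.trans_le (min_le_left _ _)).le
    calc τ * ‖y - k‖ ≤ 1 * 1 := mul_le_mul hτ.2 h4 (norm_nonneg _) zero_le_one
      _ = 1 := one_mul 1)
  simp only [zero_smul, add_zero, one_smul, add_sub_cancel] at h3
  refine h3.trans_lt ((ENNReal.ofReal_lt_ofReal_iff hδ).2 ?_)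
  have h4 := hy.trans_le (min_le_right _ _)
  rw [lt_div_iff₀ hb] at h4
  linarith

/-- The distance in `X` is at most the distance of the changed metric, as long as the shortest curve
stays in the region where the metric was not changed. -/
theorem mdist_le_hat (H : ProductCover E p t Q) (g : Met E' X) {k : Curv.Coeff E'}
    (hk : Curv.IsMetric k) (hkp : Proper k) {f : E' → F} (hf : ContDiff ℝ 1 f)
    {r : E' → ℝ} (hr : ContDiff ℝ 1 r) (hr0 : ∀ y, 0 < r y)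
    (hr1 : ∀ y v, (fderiv ℝ r y v) ^ 2 ≤ Curv.ip k y v v)
    (hf1 : ∀ y v, r y ^ 2 * ‖fderiv ℝ f y v‖ ^ 2 ≤ Curv.ip k y v v)
    (hkh : ∀ y, ‖f y‖ < 3 / 4 → k =ᶠ[𝓝 y] up g Q) {x y : E'} (hx : ‖f x‖ ≤ 1 / 2) {ε : ℝ}
    (hε2 : ε ≤ 1 / 16) (hxy : dh k x y ≤ ε * r x) :
    mdist g (Q x) (Q y) ≤ ENNReal.ofReal (dh k x y) := by
  obtain ⟨Ex, hE⟩ := A.exists_exp hk hkp
  obtain ⟨v, hv, hvy⟩ := A.hopf_rinow hk hkp hE x y
  have hc : ContDiff ℝ ∞ fun τ : ℝ => Ex x (τ • v) :=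
    (hE.smooth_at x).comp (contDiff_id.smul contDiff_const)
  have hcd : ∀ τ : ℝ, deriv (fun τ : ℝ => Ex x (τ • v)) τ = A.vel Ex x v τ := fun τ =>
    (hE.hasDerivAt x v τ).deriv
  have hl0 : 0 ≤ dh k x y := dh_nonneg k x y
  have h3 := mdist_le_curve g H.smooth_Q hc (L := dh k x y) (fun τ hτ => by
    have h1 : dh k x (Ex x (τ • v)) ≤ dh k x y := by
      have h2 := hE.dist_le hk x v 0 τ
      rw [zero_smul, hE.zero, sub_zero, abs_of_nonneg hτ.1, hv] at h2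
      exact h2.trans (mul_le_of_le_one_left hl0 hτ.2)
    have h2 := osc_le hk hkp hf hr hr0 hr1 hf1 (ε := ε) (by linarith) (h1.trans hxy)
    have h4 : ‖f (Ex x (τ • v))‖ < 3 / 4 := by
      have h5 : f (Ex x (τ • v)) = f x - (f x - f (Ex x (τ • v))) := by abel
      rw [h5]
      have h6 := norm_sub_le (f x) (f x - f (Ex x (τ • v)))
      linarith
    rw [hcd, ← ip_germ (hkh _ h4)]
    have h6 := hE.speed hk x v τ
    rw [hv] at h6
    exact h6.le)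
  simp only [zero_smul, hE.zero, one_smul, hvy] at h3
  exact h3

end Pool.Agent.Lib.MP_df705a_gt.Wide
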