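import Pool.Agent.Lib.MP_df705a_gt.Wide.A5
import Pool.Agent.Lib.MP_df705a_gt.Wide.B7
import Pool.Agent.Lib.MP_df705a_gt.Wide.B8
import Pool.Agent.Lib.MP_df705a_gt.Mg.G021
import Pool.Agent.Lib.MP_df705a_gt.Pin.F9
import Pool.Agent.Lib.MP_df705a_gt.Pin.F10

/-!
# The bad set of a metric on a wide band over a closed aspherical manifold is essential
-/

open scoped Manifold ContDiff Topology ENNReal
open Set Bundle Module Filter MeasureTheory

noncomputable section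

set_option linter.unusedSectionVars false

namespace Pool.Agent.Lib.MP_df705a_gt.Wide

open Pool.Agent.Lib.MP_df705a_gt.Twist Pool.Agent.Lib.MP_df705a_gt.Perm
open Pool.Agent.Lib.MP_df705a_gt.Pin
open Pool.Agent.Lib.MP_df705a_gt.Coll (Met)

/-- **The bad set of a metric on a wide band over a closed aspherical manifold is essential.** -/
theorem wide_essential.{v, w} (N : ℕ) (hN : 2 ≤ N) (Λ : ℝ) : ∃ C : ℝ, 0 < C ∧ ∀ (n m : ℕ)
    (M : Type v) [TopologicalSpace M] [ChartedSpace (EuclideanSpace ℝ (Fin n)) M]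
    [IsManifold 𝓘(ℝ, EuclideanSpace ℝ (Fin n)) ∞ M] [CompactSpace M]
    (X : Type w) [TopologicalSpace X] [ChartedSpace (EuclideanSpace ℝ (Fin N)) X]
    [IsManifold 𝓘(ℝ, EuclideanSpace ℝ (Fin N)) ∞ X]
    (p : X → M) (t : X → EuclideanSpace ℝ (Fin m)) (Q : EuclideanSpace ℝ (Fin N) → X),
    ProductCover (EuclideanSpace ℝ (Fin n)) p t Q →
    ∀ (g : Met (EuclideanSpace ℝ (Fin N)) X) (f : X → EuclideanSpace ℝ (Fin m)) (ρ : X → ℝ),
      ContMDiff 𝓘(ℝ, EuclideanSpace ℝ (Fin N)) 𝓘(ℝ, EuclideanSpace ℝ (Fin m)) 1 f →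
      (∃ c : ℝ, ∀ x, ‖f x - t x‖ ≤ c) →
      ContMDiff 𝓘(ℝ, EuclideanSpace ℝ (Fin N)) 𝓘(ℝ, ℝ) 1 ρ → (∀ x, 0 < ρ x) →
      (∀ x, ‖f x‖ < 1 → GradLe g ρ f x) →
      ∀ w : X → ℝ, Sm (EuclideanSpace ℝ (Fin N)) w → (∀ x, 1 ≤ w x) → (∀ x, w x ≤ Λ) →
      ∀ (γ : ℝ) (u : X → ℝ), 0 ≤ γ → Sm (EuclideanSpace ℝ (Fin N)) u → (∀ x, 0 < u x) →
      ∀ A : Set X, IsOpen A → (∀ x : A, ¬ (piImage A x).FiniteIndex) →
        ∃ b x : X, ‖f b‖ < 1 ∧ ‖f x‖ < 1 ∧ BadN g C γ ρ w u b ∧ b ∈ mball g x (ρ x) ∧ x ∉ A := by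
  obtain ⟨C₀, hC₀, hwd⟩ := Kat.E5_width2 N hN Λ
  obtain ⟨ε, hε⟩ : ∃ ε : ℝ, ε = 1 / 32 := ⟨_, rfl⟩
  have hε0 : 0 < ε := by norm_num [hε]
  refine ⟨C₀ / ε ^ 2, by positivity, ?_⟩
  intro n m M _ _ _ _ X _ _ _ p t Q H g f ρ hf hft hρ hρ0 hgrad w hw hw1 hwΛ γ u hγ hu hu0
    A hA hAi
  by_contra hno
  push Not at hno
  have : LocallyConnectedSpace X :=
    ChartedSpace.locallyConnectedSpace (EuclideanSpace ℝ (Fin N)) X
  obtain ⟨c, hc⟩ := hft
  set h := up g Q with hh'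
  have hh : Curv.IsMetric h := isMetric_st g H.stable
  obtain ⟨h₀, K, G, G', T, hh₀, hG, hT, hT0, hTq, hTs, hTd, hds, hinv, hcmp⟩ :=
    exists_ref H.cover hh (inv_up H g)
  have hp₀ : Proper h₀ := proper_of_coCpt hh₀ hG
  have hd := isD_dh hh₀ hp₀
  have hfQ : ContDiff ℝ 1 (f ∘ Q) := (hf.comp (H.smooth_Q.of_le (by simp))).contDiff
  have hρQ : ContDiff ℝ 1 (ρ ∘ Q) := (hρ.comp (H.smooth_Q.of_le (by simp))).contDiff
  have htb : ∀ x, ‖f x‖ < 1 → ‖t x‖ ≤ 1 + c := by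
    intro x hx
    have h1 : t x = f x - (f x - t x) := by abel
    rw [h1]
    have h2 := norm_sub_le (f x) (f x - t x)
    have h3 := hc x
    linarith
  obtain ⟨c₁, hc₁, hc₁'⟩ := hcmp (1 + c)
  obtain ⟨k, c', hk, hkp, hc', hkd, hkh, hkr, hkf⟩ := exists_hat hh hh₀ hp₀ hfQ hρQ
    (fun y hy v => (grad_up H g hρ hf (hgrad (Q y) hy) v).1)
    (fun y hy v => (grad_up H g hρ hf (hgrad (Q y) hy) v).2) hc₁
    (fun y hy v => hc₁' y (htb (Q y) hy) v)
  set r : EuclideanSpace ℝ (Fin N) → ℝ := ρ ∘ Q with hr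
  have hr0 : ∀ x, 0 < r x := fun x => hρ0 (Q x)
  have hfr : finrank ℝ (EuclideanSpace ℝ (Fin N)) = N := by simp
  have hwt : Kat.Wt (w ∘ Q) Λ := ⟨contDiff_comp_q' H.stable hw, fun y => hw1 (Q y),
    fun y => hwΛ (Q y)⟩
  set Bd : Set X := {b | ‖f b‖ < 3 / 4 ∧ BadN g (C₀ / ε ^ 2) γ ρ w u b} with hBd
  set B : Set (EuclideanSpace ℝ (Fin N)) := {y | 3 / 4 ≤ ‖(f ∘ Q) y‖} ∪ Q ⁻¹' Bd with hB
  have hnB : ∀ y, y ∉ B → ‖(f ∘ Q) y‖ < 3 / 4 := fun y hy => by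
    by_contra h1
    exact hy (Or.inl (not_lt.1 h1))
  have hlip : ∀ x y, |r x - r y| ≤ dh k x y := fun x y => dual hk hρQ hkr x y
  have hgood : ∀ y, y ∉ B → (0 ≤ tauN g ρ w (Q y) ∧ MRicGe g (tauN g ρ w (Q y)) (Q y)) ∧
      C₀ / ε ^ 2 * (1 + γ) / ρ (Q y) ^ 2 * u (Q y) < Scal g (Q y) * u (Q y) -
        γ * Lap g u (Q y) := by
    intro y hy
    have h1 : ¬ BadN g (C₀ / ε ^ 2) γ ρ w u (Q y) := fun h1 => hy (Or.inr ⟨hnB y hy, h1⟩)
    unfold BadN at h1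
    push Not at h1
    exact ⟨h1.1, h1.2⟩
  obtain ⟨J, hJ, V, Y, hVc, hVl, hYc, hcov, hm, hmY, hdiam, hYB⟩ :=
    hwd k (w ∘ Q) hk hkp hwt (fun y => ε * r y) (fun y => mul_pos hε0 (hr0 y)) (fun x y => by
      rw [← mul_sub, abs_mul, abs_of_pos hε0]
      calc ε * |r x - r y| ≤ 1 * |r x - r y| :=
            mul_le_mul_of_nonneg_right (by norm_num [hε]) (abs_nonneg _)
        _ ≤ dh k x y := by rw [one_mul]; exact hlip x y) B
    (fun y hy => by
      apply gd_germ (hkh y (hnB y hy))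
      have h1 := (hgood y hy).1
      have h3 := hr0 y
      have h4 : Kat.ta h (w ∘ Q) (1 / r y ^ 2) y = tauN g ρ w (Q y) := by
        unfold Kat.ta tauN
        rw [hh']
        unfold up
        rw [lap_st g H.stable hw y]
        rfl
      have h6 : Kat.Gd h (w ∘ Q) (1 / r y ^ 2) y := by
        unfold Kat.Gd
        rw [h4]
        exact ⟨h1.1, ricGe_st g H.stable h1.1 h1.2⟩
      refine h6.mono hh ?_
      show 1 / r y ^ 2 ≤ 1 / (ε * r y) ^ 2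
      apply one_div_le_one_div_of_le (by positivity)
      exact pow_le_pow_left₀ (by positivity)
        (mul_le_of_le_one_left h3.le (by norm_num [hε])) 2)
    γ (u ∘ Q) hγ (contDiff_comp_q' H.stable hu) (fun y => hu0 (Q y)) (by
      intro y hy
      have h1 := (hgood y hy).2
      rw [lapC_germ (hkh y (hnB y hy)), scal_germ (hkh y (hnB y hy)), hh']
      unfold up
      rw [lap_st g H.stable hu y, scal_st g H.stable y]
      have h2 : C₀ * (1 + γ) / (ε * r y) ^ 2 = C₀ / ε ^ 2 * (1 + γ) / ρ (Q y) ^ 2 := by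
        have h3 := hr0 y
        show C₀ * (1 + γ) / (ε * r y) ^ 2 = C₀ / ε ^ 2 * (1 + γ) / r y ^ 2
        field_simp
      rw [h2]
      show γ * Lap g u (Q y) < (Scal g (Q y) - C₀ / ε ^ 2 * (1 + γ) / ρ (Q y) ^ 2) * u (Q y)
      linarith)
  have hosc : ∀ j, ∀ x ∈ V j, ∀ y ∈ V j, ‖(f ∘ Q) x - (f ∘ Q) y‖ ≤ 1 / 16 := by
    intro j x hx y hy
    have h1 := osc_le hk hkp hfQ hρQ hr0 hkr hkf (ε := ε) (by norm_num [hε]) (hdiam j x hx y hy)
    refine h1.trans (by norm_num [hε])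
  obtain ⟨D, hD⟩ := exists_bound_over H hρ.continuous (1 + c)
  have hD' : ∀ y, ‖(f ∘ Q) y‖ < 1 → r y ≤ D := fun y hy => hD (Q y) (htb (Q y) hy)
  -- the neighborhood of the bad set
  set NA : Set X := {x | ‖f x‖ ≤ 1 / 2 ∧ ∃ b ∈ Bd, mdist g x b < ENNReal.ofReal (ρ x / 2)}
    with hNA
  have hZf : closure NA ⊆ {x | ‖f x‖ ≤ 1 / 2} :=
    closure_minimal (fun x hx => hx.1) (isClosed_le hf.continuous.norm continuous_const)
  have hZA : closure NA ⊆ A := by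
    intro z hz
    have hz1 := hZf hz
    have hz2 : ‖f z‖ ≤ 1 / 2 := hz1
    have hρz := hρ0 z
    have h1 := eventually_mdist_lt H g z (δ := ρ z / 8) (by positivity)
    have h2 : ∀ᶠ x in 𝓝 z, ρ x < 5 / 4 * ρ z :=
      hρ.continuous.continuousAt.eventually_lt continuousAt_const (by linarith)
    obtain ⟨x, ⟨hx3, b, hb, hxb⟩, hx1, hx2⟩ :=
      ((mem_closure_iff_frequently.1 hz).and_eventually (h1.and h2)).exists
    refine hno b z (by linarith [hb.1]) (by linarith) hb.2 ?_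
    show mdist g z b < ENNReal.ofReal (ρ z)
    refine (mdist_triangle g z x b).trans_lt ?_
    calc mdist g z x + mdist g x b < ENNReal.ofReal (ρ z / 8) + ENNReal.ofReal (ρ x / 2) :=
          ENNReal.add_lt_add hx1 hxb
      _ = ENNReal.ofReal (ρ z / 8 + ρ x / 2) :=
          (ENNReal.ofReal_add (by positivity) (by have := hρ0 x; positivity)).symm
      _ ≤ ENNReal.ofReal (ρ z) := ENNReal.ofReal_le_ofReal (by linarith)
  set Y' : Set (EuclideanSpace ℝ (Fin N)) := Y ∩ {x | ‖(f ∘ Q) x‖ ≤ 1 / 2} with hY'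
  have hY'c : IsClosed Y' := hYc.inter (isClosed_le hfQ.continuous.norm continuous_const)
  have hY'Z : ∀ x ∈ Y', Q x ∈ closure NA := by
    rintro x ⟨hxY, hxf⟩
    have hxf' : ‖(f ∘ Q) x‖ ≤ 1 / 2 := hxf
    obtain ⟨b, hb, hxb⟩ := hYB x hxY
    have hrx := hr0 x
    have h3 : dh k x b < ε * r x / 2 := hxb
    have h4 : 0 < ε * r x := mul_pos hε0 hrx
    have h2 := osc_le hk hkp hfQ hρQ hr0 hkr hkf (ε := ε) (by norm_num [hε]) (x := x) (y := b)
      (by linarith)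
    have h5 : (f ∘ Q) b = (f ∘ Q) x - ((f ∘ Q) x - (f ∘ Q) b) := by abel
    have h6 := norm_sub_le ((f ∘ Q) x) ((f ∘ Q) x - (f ∘ Q) b)
    rw [← h5] at h6
    have h7 : 2 * ε = 1 / 16 := by norm_num [hε]
    have h8 : b ∈ Q ⁻¹' Bd := by
      rcases hb with hb | hb
      · exfalso
        have h9 : 3 / 4 ≤ ‖(f ∘ Q) b‖ := hb
        linarith
      · exact hb
    refine subset_closure ⟨hxf', Q b, h8, ?_⟩
    refine (mdist_le_hat H g hk hkp hfQ hρQ hr0 hkr hkf hkh hxf' (ε := ε) (by norm_num [hε])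
      (by linarith)).trans_lt ?_
    refine (ENNReal.ofReal_lt_ofReal_iff (by
      show 0 < r x / 2
      linarith)).2 ?_
    show dh k x b < r x / 2
    have h9 : ε * r x ≤ 1 * r x := mul_le_mul_of_nonneg_right (by norm_num [hε]) hrx.le
    linarith
  -- the components of the preimage of `A`
  have hinf : ∀ x ∈ A, {C : Set (EuclideanSpace ℝ (Fin N)) |
      ∃ y ∈ Q ⁻¹' connectedComponentIn A x,
        C = connectedComponentIn (Q ⁻¹' connectedComponentIn A x) y}.Infinite := by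
    intro x hx hfin
    have h1 := finiteIndex_of_finite H.stable hA.connectedComponentIn
      ⟨x, mem_connectedComponentIn hx⟩ hfin
    refine hAi ⟨x, hx⟩ ?_
    have h2 : (piImage (connectedComponentIn A x) ⟨x, mem_connectedComponentIn hx⟩).FiniteIndex :=
      h1
    exact Subgroup.finiteIndex_of_le (piImage_mono (connectedComponentIn_subset A x)
      ⟨x, mem_connectedComponentIn hx⟩)
  have hQA : IsOpen (Q ⁻¹' A) := hA.preimage H.smooth_Q.continuous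
  let I : Type := {C : Set (EuclideanSpace ℝ (Fin N)) // ∃ y ∈ Q ⁻¹' A,
    C = connectedComponentIn (Q ⁻¹' A) y}
  let J' : Type := {j : J // ∃ x ∈ V j, ‖(f ∘ Q) x‖ ≤ 1 / 2}
  have : Nontrivial (EuclideanSpace ℝ (Fin N)) := by
    apply nontrivial_of_finrank_pos (R := ℝ)
    rw [hfr]; omega
  have hs1 : ContDiff ℝ 1 (t ∘ Q) := H.cover.smooth_s.of_le (by simp)
  have hle : ∀ x, {j : J' | x ∈ V j.1}.encard ≤ {j | x ∈ V j}.encard := by
    intro x
    rw [← Subtype.val_injective.encard_image]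
    apply Set.encard_le_encard
    rintro _ ⟨j, hj, rfl⟩
    exact hj
  refine no_mixed_ball_cover hd hG hs1 (norm_sub_le_dh hh₀ hs1 hds) (hT.of_le (by simp)) hT0 hTs
    hTd hfQ.continuous (fun x => hc (Q x)) (J := J') (I := I) (V := fun j => V j.1) (Y := Y')
    (W := fun i => i.1)
    (hVl.comp_injective Subtype.val_injective) (fun j => hVc j.1) hY'c ?_ ?_ ?_ ?_ ?_ ?_
    (D := c' * (ε * D)) ?_ (fun j => hosc j.1) ?_
  · intro x hx hxY
    rcases hcov x with h1 | ⟨j, hj⟩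
    · exact absurd ⟨h1, hx⟩ hxY
    · exact ⟨⟨j, x, hj, hx⟩, hj⟩
  · intro x
    rw [hfr]
    exact (hle x).trans (hm x)
  · intro x hx
    rw [hfr]
    exact (add_le_add_left (hle x) 1).trans (hmY x hx.1)
  · rintro ⟨C, y, hy, rfl⟩
    exact hQA.connectedComponentIn
  · rintro ⟨C, y, hy, rfl⟩ ⟨C', y', hy', rfl⟩ hne
    rw [Set.disjoint_left]
    intro z hz hz'
    refine hne (Subtype.ext ?_)
    show connectedComponentIn (Q ⁻¹' A) y = connectedComponentIn (Q ⁻¹' A) y'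
    rw [connectedComponentIn_eq hz, connectedComponentIn_eq hz']
  · intro y hy
    exact mem_iUnion.2 ⟨⟨_, y, hZA (hY'Z y hy), rfl⟩, mem_connectedComponentIn (hZA (hY'Z y hy))⟩
  · rintro ⟨j, x₀, hx₀, hfx₀⟩ x hx y hy
    refine (hkd x y).trans (mul_le_mul_of_nonneg_left ?_ hc'.le)
    refine (hdiam j x hx y hy).trans (mul_le_mul_of_nonneg_left (hD' x ?_) hε0.le)
    have h1 := hosc j x hx x₀ hx₀
    have h4 : (f ∘ Q) x = (f ∘ Q) x₀ + ((f ∘ Q) x - (f ∘ Q) x₀) := by abel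
    rw [h4]
    have h5 := norm_add_le ((f ∘ Q) x₀) ((f ∘ Q) x - (f ∘ Q) x₀)
    linarith
  · rintro ⟨C, y, hy, rfl⟩ R
    obtain ⟨z, hz0, hz⟩ := sparse_over H hh₀ hp₀ (hinv 0) hTs hTd hA isClosed_closure hZA
      (R₀ := 1 + c) (fun x hx => htb x (by
        have h1 : ‖f x‖ ≤ 1 / 2 := hZf hx
        linarith)) hinf y hy R
    exact ⟨z, hz0, fun x hx => hz x ⟨hY'Z x hx.1, hx.2⟩⟩

end Pool.Agent.Lib.MP_df705a_gt.Wide
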