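import Pool.Agent.Lib.MP_df705a_gt.Kat.Df

/-!
# Coverings of the product of a closed manifold with a vector space: definitions
-/

open scoped Manifold ContDiff Topology
open Set Bundle Module

noncomputable section

namespace Pool.Agent.Lib.MP_df705a_gt.Wide

open Pool.Agent.Lib.MP_df705a_gt.Twist Pool.Agent.Lib.MP_df705a_gt.Perm
open Pool.Agent.Lib.MP_df705a_gt.Pin
open Pool.Agent.Lib.MP_df705a_gt.Coll (Met)

variable {E' : Type*} [NormedAddCommGroup E'] [NormedSpace ℝ E'] [FiniteDimensional ℝ E']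
  {F : Type*} [NormedAddCommGroup F] [InnerProductSpace ℝ F]
  {X : Type*} [TopologicalSpace X] [ChartedSpace E' X]

/-- The map `(p, t) : X → M × F` is a diffeomorphism (it is smooth and injective, and by `cover` it is
surjective with invertible differentials) and `Q : E' → X` is a smooth covering (`(p, t) ∘ Q` is a
smooth covering of `M × F`). -/
structure ProductCover (E : Type*) [NormedAddCommGroup E] [NormedSpace ℝ E] {M : Type*}
    [TopologicalSpace M] [ChartedSpace E M] (p : X → M) (t : X → F) (Q : E' → X) : Prop where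
  smooth_p : ContMDiff 𝓘(ℝ, E') 𝓘(ℝ, E) ∞ p
  smooth_t : ContMDiff 𝓘(ℝ, E') 𝓘(ℝ, F) ∞ t
  smooth_Q : ContMDiff 𝓘(ℝ, E') 𝓘(ℝ, E') ∞ Q
  inj : Function.Injective fun x => (p x, t x)
  cover : StableCover E (p ∘ Q) (t ∘ Q)

variable [IsManifold 𝓘(ℝ, E') ∞ X]

/-- The function `τ = ρ⁻² - Δw / (N w)`, where `N` is the dimension of the manifold. -/
def tauN (g : Met E' X) (ρ w : X → ℝ) (b : X) : ℝ :=
  1 / ρ b ^ 2 - Lap g w b / ((finrank ℝ E' : ℝ) * w b)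

/-- The point `b` is bad: `τ(b) ≥ 0` and `Ric ≥ -τ(b) g` at `b` do not both hold, or
`scal(b) u(b) - γ Δu(b) ≤ C (1 + γ) ρ(b)⁻² u(b)`. -/
def BadN (g : Met E' X) (C γ : ℝ) (ρ w u : X → ℝ) (b : X) : Prop :=
  ¬ (0 ≤ tauN g ρ w b ∧ MRicGe g (tauN g ρ w b) b) ∨
    Scal g b * u b - γ * Lap g u b ≤ C * (1 + γ) / ρ b ^ 2 * u b

/-- At the point `x` the differentials of `ρ : X → ℝ` and `f : X → F` satisfy `|dρ| ≤ 1` and
`ρ |df| ≤ 1` for the metric `g`. -/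
def GradLe (g : Met E' X) (ρ : X → ℝ) (f : X → F) (x : X) : Prop :=
  ∀ v : TangentSpace 𝓘(ℝ, E') x,
    let dρ : E' →L[ℝ] ℝ := mfderiv 𝓘(ℝ, E') 𝓘(ℝ, ℝ) ρ x
    let df : E' →L[ℝ] F := mfderiv 𝓘(ℝ, E') 𝓘(ℝ, F) f x
    (dρ v) ^ 2 ≤ g.inner x v v ∧ ρ x ^ 2 * ‖df v‖ ^ 2 ≤ g.inner x v v

end Pool.Agent.Lib.MP_df705a_gt.Wide
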